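import Mathlib

set_option autoImplicit false

/-! Core of the theorem on AB functions with a hyperplane of quadratic components:
alternating forms `β v` (`v` in `H`) on `V`, `|V| = 2|H|`, with radicals of order 2, and an
alternating trilinear form `η` which vanishes on the planes where all `β v` vanish. -/

namespace Pool.Agent.Lib.AbHyp8

open Finset

/-- sign of an element of `ZMod 2` -/
def sg (t : ZMod 2) : ℤ := if t = 0 then 1 else -1

lemma sg_add (s t : ZMod 2) : sg (s + t) = sg s * sg t := by
  revert s t; decide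

lemma sg_zero : sg 0 = 1 := by decide

lemma zmod2_cases (t : ZMod 2) : t = 0 ∨ t = 1 := by
  revert t; decide

lemma zmod2_ne (t : ZMod 2) (h : t ≠ 0) : t = 1 := by
  revert t; decide

/-- the sum of the signs of an additive function -/
lemma sum_sg {A : Type*} [AddCommGroup A] [Fintype A] (φ : A →+ ZMod 2) :
    ∑ x, sg (φ x) = if (∀ x, φ x = 0) then (Fintype.card A : ℤ) else 0 := by
  split_ifs with h
  · simp [h, sg_zero]
  · push Not at h
    obtain ⟨a, ha⟩ := h
    have ha1 := zmod2_ne _ ha
    have h1 : ∑ x, sg (φ x) = ∑ x, sg (φ (x + a)) :=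
      (Fintype.sum_equiv (Equiv.addRight a) _ _ (fun x => rfl)).symm
    have h2 : ∀ x, sg (φ (x + a)) = - sg (φ x) := by
      intro x
      rw [map_add, ha1, sg_add]
      have : sg 1 = -1 := by decide
      rw [this]; ring
    simp only [h2, sum_neg_distrib] at h1
    omega

section core

variable {V H : Type} [AddCommGroup V] [AddCommGroup H] [Fintype V] [Fintype H]
  [DecidableEq V] [DecidableEq H]
variable (β : H →+ V →+ V →+ ZMod 2)

/-- common kernel of `β v a ·` -/
def NN (a : V) : Finset V := univ.filter fun b => ∀ v, β v a b = 0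

/-- the forms with `a` in their radical -/
def MM (a : V) : Finset H := univ.filter fun v => ∀ b, β v a b = 0

omit [DecidableEq V] [DecidableEq H] in
lemma nm (a : V) : (NN β a).card * Fintype.card H = Fintype.card V * (MM β a).card := by
  classical
  have h1 : ∑ v : H, ∑ b : V, sg (β v a b) = (Fintype.card V : ℤ) * (MM β a).card := by
    have : ∀ v : H, ∑ b : V, sg (β v a b)
        = if (∀ b, β v a b = 0) then (Fintype.card V : ℤ) else 0 := fun v => sum_sg (β v a)
    simp only [this]
    rw [← sum_filter, sum_const, nsmul_eq_mul, mul_comm]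
    rfl
  have h2 : ∑ v : H, ∑ b : V, sg (β v a b) = ((NN β a).card : ℤ) * Fintype.card H := by
    rw [sum_comm]
    have : ∀ b : V, ∑ v : H, sg (β v a b)
        = if (∀ v, β v a b = 0) then (Fintype.card H : ℤ) else 0 := by
      intro b
      exact sum_sg (⟨⟨fun v => β v a b, by simp⟩, by intro x y; simp⟩ : H →+ ZMod 2)
    simp only [this]
    rw [← sum_filter, sum_const, nsmul_eq_mul]
    rfl
  have := h1.symm.trans h2
  exact_mod_cast this.symm

variable (hcard : Fintype.card V = 2 * Fintype.card H)
  (hN : ∀ a : V, a ≠ 0 → (NN β a).card ≤ 4)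

omit [DecidableEq V] [DecidableEq H] in
include hcard in
lemma nm2 (a : V) : (NN β a).card = 2 * (MM β a).card := by
  have h := nm β a
  rw [hcard] at h
  have hp : 0 < Fintype.card H := Fintype.card_pos
  have : Fintype.card H * (NN β a).card = Fintype.card H * (2 * (MM β a).card) := by
    calc Fintype.card H * (NN β a).card = (NN β a).card * Fintype.card H := mul_comm _ _
      _ = _ := h
      _ = _ := by ring
  exact Nat.eq_of_mul_eq_mul_left hp this

/-- points on a plane where all forms vanish -/
def ZZ : Finset V := univ.filter fun a => a ≠ 0 ∧ (NN β a).card = 4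

include hcard hN in
lemma zcard (hrad : ∀ v : H, v ≠ 0 → 2 ≤ (univ.filter fun a : V => ∀ b, β v a b = 0).card) :
    Fintype.card H ≤ (ZZ β).card + 1 := by
  have hM1 : ∀ a, 1 ≤ (MM β a).card := by
    intro a
    apply Finset.card_pos.mpr
    exact ⟨0, by simp [MM]⟩
  -- double counting of pairs (a, v), a ≠ 0, v ≠ 0, a in the radical
  have h1 : Fintype.card H - 1 ≤
      ∑ v ∈ univ.erase (0 : H), ((univ.erase (0 : V)).filter fun a => ∀ b, β v a b = 0).card := by
    have : ∀ v ∈ univ.erase (0 : H),
        1 ≤ ((univ.erase (0 : V)).filter fun a => ∀ b, β v a b = 0).card := by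
      intro v hv
      have hv0 : v ≠ 0 := (Finset.mem_erase.mp hv).1
      have h := hrad v hv0
      have he : ((univ.erase (0 : V)).filter fun a => ∀ b, β v a b = 0)
          = (univ.filter fun a : V => ∀ b, β v a b = 0).erase 0 := by
        ext a; simp [and_comm]
      rw [he, Finset.card_erase_of_mem (by simp)]
      omega
    calc Fintype.card H - 1 = ∑ v ∈ univ.erase (0 : H), 1 := by
          simp [Finset.card_erase_of_mem]
      _ ≤ _ := sum_le_sum this
  have h2 : ∑ v ∈ univ.erase (0 : H), ((univ.erase (0 : V)).filter fun a => ∀ b, β v a b = 0).card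
      = ∑ a ∈ univ.erase (0 : V), ((univ.erase (0 : H)).filter fun v => ∀ b, β v a b = 0).card := by
    simp only [card_filter]
    rw [sum_comm]
  have h3 : ∀ a ∈ univ.erase (0 : V),
      ((univ.erase (0 : H)).filter fun v => ∀ b, β v a b = 0).card
        = if (NN β a).card = 4 then 1 else 0 := by
    intro a ha
    have ha0 : a ≠ 0 := (Finset.mem_erase.mp ha).1
    have he : ((univ.erase (0 : H)).filter fun v => ∀ b, β v a b = 0) = (MM β a).erase 0 := by
      ext v; simp [MM, and_comm]
    rw [he, Finset.card_erase_of_mem (by simp [MM])]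
    have hn := nm2 β hcard a
    have hl := hN a ha0
    have hm := hM1 a
    split_ifs with h4 <;> omega
  rw [h2, sum_congr rfl h3, ← card_filter] at h1
  have hz : (univ.erase (0 : V)).filter (fun a => (NN β a).card = 4) = ZZ β := by
    ext a; simp [ZZ]
  rw [hz] at h1
  have hp : 0 < Fintype.card H := Fintype.card_pos
  omega


end core

/-- symmetric, alternating, additive in every variable -/
structure Tri {V : Type} [AddCommGroup V] (η : V → V → V → ZMod 2) : Prop where
  add : ∀ x y b c, η (x + y) b c = η x b c + η y b c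
  s1 : ∀ a b c, η a b c = η b a c
  s2 : ∀ a b c, η a b c = η a c b
  alt : ∀ a c, η a a c = 0

namespace Tri

variable {V : Type} [AddCommGroup V] [Module (ZMod 2) V] {η : V → V → V → ZMod 2} (T : Tri η)

include T

omit [Module (ZMod 2) V] in
lemma add2 (a x y c : V) : η a (x + y) c = η a x c + η a y c := by
  rw [T.s1, T.add, T.s1 x, T.s1 y]

omit [Module (ZMod 2) V] in
lemma add3 (a b x y : V) : η a b (x + y) = η a b x + η a b y := by
  rw [T.s2, T.add2, T.s2 a x, T.s2 a y]

omit [Module (ZMod 2) V] in
lemma zero1 (b c : V) : η 0 b c = 0 := by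
  have h := T.add 0 0 b c
  rw [add_zero] at h
  have : ∀ t : ZMod 2, t = t + t → t = 0 := by decide
  exact this _ h

lemma smul1 (r : ZMod 2) (a b c : V) : η (r • a) b c = r * η a b c := by
  rcases zmod2_cases r with rfl | rfl
  · rw [zero_smul, T.zero1, zero_mul]
  · rw [one_smul, one_mul]

lemma smul2 (r : ZMod 2) (a b c : V) : η a (r • b) c = r * η a b c := by
  rw [T.s1, T.smul1, T.s1 b]

lemma smul3 (r : ZMod 2) (a b c : V) : η a b (r • c) = r * η a b c := by
  rw [T.s2, T.smul2, T.s2 a c]

omit [Module (ZMod 2) V] in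
lemma alt2 (a b : V) : η a b b = 0 := by rw [T.s1, T.s2, T.alt]

omit [Module (ZMod 2) V] in
lemma alt3 (a b : V) : η a b a = 0 := by rw [T.s2, T.alt]

end Tri

/-- the radical of a trilinear form -/
def rad3 {V : Type} [AddCommGroup V] [Module (ZMod 2) V] {η : V → V → V → ZMod 2} (T : Tri η) :
    Submodule (ZMod 2) V where
  carrier := {x | ∀ a b, η x a b = 0}
  add_mem' := by
    intro x y hx hy a b
    rw [T.add, hx, hy, add_zero]
  zero_mem' := fun a b => T.zero1 a b
  smul_mem' := by
    intro r x hx a b
    rw [T.smul1, hx, mul_zero]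

section index

variable {V : Type} [AddCommGroup V] [Module (ZMod 2) V] {η : V → V → V → ZMod 2}

lemma mem_rad3 (T : Tri η) (x : V) : x ∈ rad3 T ↔ ∀ a b, η x a b = 0 := Iff.rfl

/-- adjoining vectors to a subspace -/
lemma two_cosets [Finite V] (V1 : Submodule (ZMod 2) V) (d e : V) (hd : d ∉ V1) (he : e ∉ V1)
    (hde : d + e ∉ V1) : 4 * Nat.card V1 ≤ Nat.card V := by
  let ψ : V1 × (ZMod 2 × ZMod 2) → V := fun p => (p.1 : V) + (p.2.1 • d + p.2.2 • e)
  have hψ : Function.Injective ψ := by
    rintro ⟨x, r, s⟩ ⟨y, r', s'⟩ h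
    have hxx : ∀ z : V, z + z = 0 := fun z => by
      rw [← two_smul (ZMod 2) z]
      have : (2 : ZMod 2) = 0 := by decide
      rw [this, zero_smul]
    have h' : (x : V) + (r • d + s • e) = (y : V) + (r' • d + s' • e) := h
    have hm : (r + r') • d + (s + s') • e ∈ V1 := by
      have : (r + r') • d + (s + s') • e = (x : V) + (y : V) := by
        have h2 : (x : V) + (y : V) = (x : V) + ((x : V) + (r • d + s • e) + (r' • d + s' • e)) := by
          rw [h', add_assoc (y : V), hxx, add_zero]
        rw [h2, add_assoc (x : V), ← add_assoc (x : V), hxx, zero_add, add_smul, add_smul]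
        abel
      rw [this]
      exact V1.add_mem x.2 y.2
    have hr : r + r' = 0 ∧ s + s' = 0 := by
      rcases zmod2_cases (r + r') with h1 | h1 <;> rcases zmod2_cases (s + s') with h2 | h2
      · exact ⟨h1, h2⟩
      · rw [h1, h2, zero_smul, zero_add, one_smul] at hm; exact absurd hm he
      · rw [h1, h2, zero_smul, add_zero, one_smul] at hm; exact absurd hm hd
      · rw [h1, h2, one_smul, one_smul] at hm; exact absurd hm hde
    have e1 : r = r' := by
      have : ∀ a b : ZMod 2, a + b = 0 → a = b := by decide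
      exact this _ _ hr.1
    have e2 : s = s' := by
      have : ∀ a b : ZMod 2, a + b = 0 → a = b := by decide
      exact this _ _ hr.2
    subst e1 e2
    have : (x : V) = y := add_right_cancel h'
    rw [Subtype.ext this]
  have h := Nat.card_le_card_of_injective ψ hψ
  rw [Nat.card_prod, Nat.card_prod, Nat.card_zmod] at h
  omega

/-- the subspace spanned by the radical and three vectors with `η = 1` has order `8 |V₀|` -/
lemma three_gen [Finite V] (T : Tri η) (a b c : V) (h1 : η a b c = 1) :
    ∃ V1 : Submodule (ZMod 2) V, Nat.card V1 = 8 * Nat.card (rad3 T) ∧ rad3 T ≤ V1 ∧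
      a ∈ V1 ∧ b ∈ V1 ∧ c ∈ V1 ∧
      ∀ x ∈ V1, ∃ z ∈ rad3 T, ∃ r s t : ZMod 2, x = z + (r • a + (s • b + t • c)) := by
  let ψ : (rad3 T × (ZMod 2 × (ZMod 2 × ZMod 2))) →ₗ[ZMod 2] V :=
    (rad3 T).subtype.coprod ((LinearMap.toSpanSingleton (ZMod 2) V a).coprod
      ((LinearMap.toSpanSingleton (ZMod 2) V b).coprod (LinearMap.toSpanSingleton (ZMod 2) V c)))
  have hval : ∀ p, ψ p = (p.1 : V) + (p.2.1 • a + (p.2.2.1 • b + p.2.2.2 • c)) := by
    rintro ⟨x, r, s, t⟩
    simp [ψ]
  have hinj : Function.Injective ψ := by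
    rw [injective_iff_map_eq_zero]
    rintro ⟨x, r, s, t⟩ h
    rw [hval] at h
    simp only at h
    have hx := x.2
    rw [mem_rad3] at hx
    have hr : r = 0 := by
      have := T.zero1 b c
      rw [← h, T.add, T.add, T.add, T.smul1, T.smul1, T.smul1, hx, h1, T.alt, T.alt3] at this
      simpa using this
    have hs : s = 0 := by
      have := T.zero1 a c
      rw [← h, T.add, T.add, T.add, T.smul1, T.smul1, T.smul1, hx, T.alt, T.s1 b a c, h1,
        T.alt3] at this
      simpa using this
    have ht : t = 0 := by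
      have := T.zero1 a b
      rw [← h, T.add, T.add, T.add, T.smul1, T.smul1, T.smul1, hx, T.alt, T.alt3, T.s1 c a b,
        T.s2 a c b, h1] at this
      simpa using this
    subst hr hs ht
    have hx0 : (x : V) = 0 := by simpa using h
    have : x = 0 := Subtype.ext hx0
    rw [this]; rfl
  refine ⟨LinearMap.range ψ, ?_, ?_, ?_, ?_, ?_, ?_⟩
  · have e := Nat.card_congr (LinearEquiv.ofInjective ψ hinj).toEquiv
    rw [← e, Nat.card_prod, Nat.card_prod, Nat.card_prod, Nat.card_zmod]
    ring
  · intro x hx
    exact ⟨(⟨x, hx⟩, 0, 0, 0), by rw [hval]; simp⟩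
  · exact ⟨(0, 1, 0, 0), by rw [hval]; simp⟩
  · exact ⟨(0, 0, 1, 0), by rw [hval]; simp⟩
  · exact ⟨(0, 0, 0, 1), by rw [hval]; simp⟩
  · rintro x ⟨p, rfl⟩
    exact ⟨p.1, p.1.2, p.2.1, p.2.2.1, p.2.2.2, hval p⟩

/-- three dimensional forms: a null pair is dependent modulo the radical -/
lemma null3 (T : Tri η) (a b c : V) (h1 : η a b c = 1)
    (hgen : ∀ x : V, ∃ z ∈ rad3 T, ∃ r s t : ZMod 2, x = z + (r • a + (s • b + t • c)))
    (x y : V) (h0 : ∀ w, η x y w = 0) : x ∈ rad3 T ∨ y ∈ rad3 T ∨ x + y ∈ rad3 T := by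
  obtain ⟨z, hz, r, s, t, rfl⟩ := hgen x
  obtain ⟨z', hz', r', s', t', rfl⟩ := hgen y
  have hz1 : ∀ p q, η z p q = 0 := (mem_rad3 T z).mp hz
  have hz2 : ∀ p q, η p z' q = 0 := fun p q => by rw [T.s1]; exact (mem_rad3 T z').mp hz' p q
  have hbac : η b a c = 1 := by rw [T.s1]; exact h1
  have hacb : η a c b = 1 := by rw [T.s2]; exact h1
  have hbca : η b c a = 1 := by rw [T.s2]; exact hbac
  have hcab : η c a b = 1 := by rw [T.s1]; exact hacb
  have hcba : η c b a = 1 := by rw [T.s2]; exact hcab
  have key : ∀ w, η (r • a + (s • b + t • c)) (r' • a + (s' • b + t' • c)) w = 0 := by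
    intro w
    have := h0 w
    rw [T.add, hz1, zero_add, T.add2, hz2, zero_add] at this
    exact this
  have ka := key a
  have kb := key b
  have kc := key c
  simp only [T.add, T.add2, T.smul1, T.smul2, T.alt, T.alt2, T.alt3, hbca, hcba, hacb, hcab,
    h1, hbac, mul_zero, mul_one, add_zero, zero_add] at ka kb kc
  have dec : ∀ r s t r' s' t' : ZMod 2, s * t' + t * s' = 0 →
      (r * t' + t * r') = 0 → (r * s' + s * r') = 0 →
      (r = 0 ∧ s = 0 ∧ t = 0) ∨ (r' = 0 ∧ s' = 0 ∧ t' = 0) ∨
        (r + r' = 0 ∧ s + s' = 0 ∧ t + t' = 0) := by decide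
  rcases dec r s t r' s' t' ka kb kc with ⟨h2, h3, h4⟩ | ⟨h2, h3, h4⟩ | ⟨h2, h3, h4⟩
  · left; subst h2 h3 h4; simpa using hz
  · right; left; subst h2 h3 h4; simpa using hz'
  · right; right
    have e : z + (r • a + (s • b + t • c)) + (z' + (r' • a + (s' • b + t' • c)))
        = (z + z') + ((r + r') • a + ((s + s') • b + (t + t') • c)) := by
      rw [add_smul, add_smul, add_smul]; abel
    rw [e, h2, h3, h4]
    simpa using (rad3 T).add_mem hz hz'

/-- index two: impossible -/
lemma four_gen [Finite V] (T : Tri η) (a b c : V) (h1 : η a b c = 1)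
    (V1 : Submodule (ZMod 2) V) (hle : rad3 T ≤ V1) (ha : a ∈ V1) (hb : b ∈ V1) (hc : c ∈ V1)
    (hgen : ∀ x ∈ V1, ∃ z ∈ rad3 T, ∃ r s t : ZMod 2, x = z + (r • a + (s • b + t • c)))
    (d : V) (hd : d ∉ V1) (hall : ∀ x, x ∈ V1 ∨ x + d ∈ V1) : False := by
  have hxx : ∀ z : V, z + z = 0 := fun z => by
    rw [← two_smul (ZMod 2) z]
    have : (2 : ZMod 2) = 0 := by decide
    rw [this, zero_smul]
  have t2 : ∀ q : ZMod 2, q + q = 0 := by decide
  have hbac : η b a c = 1 := by rw [T.s1]; exact h1
  have hacb : η a c b = 1 := by rw [T.s2]; exact h1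
  have hbca : η b c a = 1 := by rw [T.s2]; exact hbac
  have hcab : η c a b = 1 := by rw [T.s1]; exact hacb
  have hcba : η c b a = 1 := by rw [T.s2]; exact hcab
  -- the corrected vector
  obtain ⟨e, he⟩ : ∃ e, e = d + (η d b c • a + (η d a c • b + η d a b • c)) := ⟨_, rfl⟩
  have hed : e + d ∈ V1 := by
    have : e + d = η d b c • a + (η d a c • b + η d a b • c) := by
      rw [he, add_comm d, add_assoc, hxx, add_zero]
    rw [this]
    exact V1.add_mem (V1.smul_mem _ ha) (V1.add_mem (V1.smul_mem _ hb) (V1.smul_mem _ hc))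
  have heV : e ∉ V1 := by
    intro h
    apply hd
    have : d = e + (e + d) := by rw [← add_assoc, hxx, zero_add]
    rw [this]
    exact V1.add_mem h hed
  have e1 : η e b c = 0 := by
    rw [he, T.add, T.add, T.add, T.smul1, T.smul1, T.smul1, h1, T.alt, T.alt3, mul_one, mul_zero,
      mul_zero, add_zero, add_zero, t2]
  have e2 : η e a c = 0 := by
    rw [he, T.add, T.add, T.add, T.smul1, T.smul1, T.smul1, hbac, T.alt, T.alt3, mul_one,
      mul_zero, mul_zero, add_zero, zero_add, t2]
  have e3 : η e a b = 0 := by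
    rw [he, T.add, T.add, T.add, T.smul1, T.smul1, T.smul1, hcab, T.alt, T.alt3, mul_one,
      mul_zero, mul_zero, zero_add, zero_add, t2]
  have e1' : η e c b = 0 := by rw [T.s2]; exact e1
  have e2' : η e c a = 0 := by rw [T.s2]; exact e2
  have e3' : η e b a = 0 := by rw [T.s2]; exact e3
  have hall' : ∀ x, x ∈ V1 ∨ x + e ∈ V1 := by
    intro x
    rcases hall x with h | h
    · exact Or.inl h
    · right
      have : x + e = (x + d) + (e + d) := by
        have := hxx d
        calc x + e = x + e + (d + d) := by rw [this, add_zero]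
          _ = _ := by abel
      rw [this]
      exact V1.add_mem h hed
  -- every vector is `z + r a + s b + t c + u e`
  have hform : ∀ x : V, ∃ z ∈ rad3 T, ∃ r s t u : ZMod 2,
      x = z + (r • a + (s • b + t • c)) + u • e := by
    intro x
    rcases hall' x with h | h
    · obtain ⟨z, hz, r, s, t, hx⟩ := hgen x h
      exact ⟨z, hz, r, s, t, 0, by rw [zero_smul, add_zero]; exact hx⟩
    · obtain ⟨z, hz, r, s, t, hx⟩ := hgen _ h
      refine ⟨z, hz, r, s, t, 1, ?_⟩
      rw [one_smul, ← hx, add_assoc, hxx, add_zero]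
  apply heV
  apply hle
  rw [mem_rad3]
  intro x y
  obtain ⟨z, hz, r, s, t, u, rfl⟩ := hform x
  obtain ⟨z', hz', r', s', t', u', rfl⟩ := hform y
  have hz2 : ∀ p q, η p z q = 0 := fun p q => by rw [T.s1]; exact (mem_rad3 T z).mp hz p q
  have hz3 : ∀ p q, η p q z' = 0 := fun p q => by
    rw [T.s2, T.s1]; exact (mem_rad3 T z').mp hz' p q
  simp only [T.add2, T.add3, T.smul2, T.smul3, T.alt, T.alt2, T.alt3, hz2, hz3, e1, e2, e3, e1',
    e2', e3', mul_zero, add_zero]

theorem index32 [Finite V] (T : Tri η) (a b c : V) (h1 : η a b c = 1)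
    (hcount : (∀ x : V, ∃ z ∈ rad3 T, ∃ r s t : ZMod 2, x = z + (r • a + (s • b + t • c))) →
      Nat.card V = 8 * Nat.card (rad3 T) → False) :
    32 * Nat.card (rad3 T) ≤ Nat.card V := by
  obtain ⟨V1, hcard, hle, ha, hb, hc, hgen⟩ := three_gen T a b c h1
  by_cases htop : ∀ x : V, x ∈ V1
  · exfalso
    refine hcount (fun x => hgen x (htop x)) ?_
    rw [← hcard]
    have : V1 = ⊤ := by
      ext x; simp [htop x]
    rw [this]
    exact (Nat.card_congr (Equiv.subtypeUnivEquiv (fun x => Submodule.mem_top))).symm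
  · push Not at htop
    obtain ⟨d, hd⟩ := htop
    by_cases hall : ∀ x, x ∈ V1 ∨ x + d ∈ V1
    · exact (four_gen T a b c h1 V1 hle ha hb hc hgen d hd hall).elim
    · push Not at hall
      obtain ⟨e, he, hed⟩ := hall
      have := two_cosets V1 d e hd he (by rw [add_comm]; exact hed)
      omega

end index

section main

variable {V H : Type} [AddCommGroup V] [AddCommGroup H] [Fintype V] [Fintype H]
  [DecidableEq V] [DecidableEq H] [Module (ZMod 2) V]

/-- Core theorem, first part: the radical of `η` has index at least 32. -/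
theorem core1 (β : H →+ V →+ V →+ ZMod 2)
    (hcard : Fintype.card V = 2 * Fintype.card H)
    (hβs : ∀ v a b, β v a b = β v b a) (hβa : ∀ v a, β v a a = 0)
    (hrad : ∀ v : H, v ≠ 0 → 2 ≤ (univ.filter fun a : V => ∀ b, β v a b = 0).card)
    (hN : ∀ a : V, a ≠ 0 → (NN β a).card ≤ 4)
    {η : V → V → V → ZMod 2} (T : Tri η)
    (hη : ∀ a b, (∀ v, β v a b = 0) → ∀ c, η a b c = 0)
    (hη1 : ∃ a b c, η a b c ≠ 0) :
    32 * Nat.card (rad3 T) ≤ Nat.card V := by
  classical
  have hxx : ∀ z : V, z + z = 0 := fun z => by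
    rw [← two_smul (ZMod 2) z]
    have : (2 : ZMod 2) = 0 := by decide
    rw [this, zero_smul]
  obtain ⟨a, b, c, habc⟩ := hη1
  refine index32 T a b c (zmod2_ne _ habc) ?_
  intro hgen h8
  -- every point of Z lies on a plane through a nonzero vector of the radical
  have hZ : ZZ β ⊆ ((univ.filter fun x : V => x ∈ rad3 T).erase 0).biUnion
      fun x => (NN β x).erase 0 := by
    intro x hx
    simp only [ZZ, mem_filter, mem_univ, true_and] at hx
    obtain ⟨hx0, hx4⟩ := hx
    obtain ⟨y, hy, hy0, hyx⟩ : ∃ y ∈ NN β x, y ≠ 0 ∧ y ≠ x := by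
      by_contra hcon
      push Not at hcon
      have hsub : NN β x ⊆ {0, x} := by
        intro y hy
        rw [mem_insert, mem_singleton]
        by_cases h : y = 0
        · exact Or.inl h
        · exact Or.inr (hcon y hy h)
      have := card_le_card hsub
      have h2 : ({0, x} : Finset V).card ≤ 2 := card_le_two
      omega
    have hyz : ∀ v, β v x y = 0 := by
      simpa only [NN, mem_filter, mem_univ, true_and] using hy
    have hnull := null3 T a b c (zmod2_ne _ habc) hgen x y (hη x y hyz)
    have fin : ∀ z, z ∈ rad3 T → z ≠ 0 → (∀ v, β v z x = 0) →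
        x ∈ ((univ.filter fun x : V => x ∈ rad3 T).erase 0).biUnion
          fun x => (NN β x).erase 0 := by
      intro z hz hz0 hzx
      rw [mem_biUnion]
      refine ⟨z, ?_, ?_⟩
      · rw [mem_erase, mem_filter]
        exact ⟨hz0, mem_univ _, hz⟩
      · rw [mem_erase]
        exact ⟨hx0, by simpa only [NN, mem_filter, mem_univ, true_and] using hzx⟩
    rcases hnull with h | h | h
    · exact fin x h hx0 (fun v => hβa v x)
    · exact fin y h hy0 (fun v => by rw [hβs]; exact hyz v)
    · refine fin (x + y) h ?_ ?_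
      · intro h0
        apply hyx
        calc y = x + (x + y) := by rw [← add_assoc, hxx, zero_add]
          _ = x := by rw [h0, add_zero]
      · intro v
        rw [map_add, AddMonoidHom.add_apply, hβa, hβs v y x, hyz, add_zero]
  have h1 := card_le_card hZ
  have h2 : (((univ.filter fun x : V => x ∈ rad3 T).erase 0).biUnion
      fun x => (NN β x).erase 0).card ≤ ((univ.filter fun x : V => x ∈ rad3 T).erase 0).card * 3 := by
    apply card_biUnion_le_card_mul
    intro x hx
    have hx0 : x ≠ 0 := (mem_erase.mp hx).1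
    have := hN x hx0
    rw [card_erase_of_mem (by simp [NN])]
    omega
  have h3 : ((univ.filter fun x : V => x ∈ rad3 T).erase 0).card = Nat.card (rad3 T) - 1 := by
    rw [card_erase_of_mem (by simp [(rad3 T).zero_mem])]
    congr 1
    rw [Nat.card_eq_fintype_card, Fintype.card_subtype]
  have h4 := zcard β hcard hN hrad
  rw [Nat.card_eq_fintype_card] at h8
  have h5 : 0 < Nat.card (rad3 T) := Nat.card_pos
  omega

/-- Core theorem, second part. -/
theorem core2 (β : H →+ V →+ V →+ ZMod 2)
    (hcard : Fintype.card V = 2 * Fintype.card H)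
    (hrad : ∀ v : H, v ≠ 0 → (univ.filter fun a : V => ∀ b, β v a b = 0).card = 2)
    {η : V → V → V → ZMod 2} (T : Tri η)
    (hη : ∀ a b, (∀ v, β v a b = 0) → ∀ c, η a b c = 0)
    (x : V) (v : H) (hxv : ∀ a b, η x a b = β v a b) : v = 0 ∧ x ∈ rad3 T := by
  classical
  by_cases hv : v = 0
  · refine ⟨hv, ?_⟩
    rw [mem_rad3]
    intro a b
    rw [hxv a b, hv]; simp
  · exfalso
    have h2 := hrad v hv
    have hx0 : x ≠ 0 := by
      intro h0
      have hall : (univ.filter fun a : V => ∀ b, β v a b = 0) = univ := by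
        ext a
        simp only [mem_filter, mem_univ, true_and, iff_true]
        intro b
        rw [← hxv a b, h0, T.zero1]
      rw [hall, card_univ, hcard] at h2
      have h1 : Fintype.card H = 1 := by omega
      have := Fintype.card_le_one_iff.mp h1.le v 0
      exact hv this
    have hxr : ∀ b, β v x b = 0 := by
      intro b
      rw [← hxv x b, T.alt]
    have hM : 2 ≤ (MM β x).card := by
      have hsub : ({0, v} : Finset H) ⊆ MM β x := by
        intro t ht
        simp only [mem_insert, mem_singleton] at ht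
        rcases ht with rfl | rfl
        · simp [MM]
        · simpa only [MM, mem_filter, mem_univ, true_and] using hxr
      have := card_le_card hsub
      rw [card_pair (Ne.symm hv)] at this
      exact this
    have hN4 := nm2 β hcard x
    obtain ⟨y, hy, hy0, hyx⟩ : ∃ y ∈ NN β x, y ≠ 0 ∧ y ≠ x := by
      by_contra hcon
      push Not at hcon
      have hsub : NN β x ⊆ {0, x} := by
        intro y hy
        rw [mem_insert, mem_singleton]
        by_cases h : y = 0
        · exact Or.inl h
        · exact Or.inr (hcon y hy h)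
      have := card_le_card hsub
      have h2 : ({0, x} : Finset V).card ≤ 2 := card_le_two
      omega
    have hyz : ∀ v, β v x y = 0 := by
      simpa only [NN, mem_filter, mem_univ, true_and] using hy
    have hyr : ∀ b, β v y b = 0 := by
      intro b
      rw [← hxv y b]
      exact hη x y hyz b
    have hsub : ({0, x, y} : Finset V) ⊆ (univ.filter fun a : V => ∀ b, β v a b = 0) := by
      intro t ht
      simp only [mem_insert, mem_singleton] at ht
      simp only [mem_filter, mem_univ, true_and]
      rcases ht with rfl | rfl | rfl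
      · intro b; simp
      · exact hxr
      · exact hyr
    have h3 : ({0, x, y} : Finset V).card = 3 := by
      rw [card_eq_three]
      exact ⟨0, x, y, hx0.symm, hy0.symm, hyx.symm, rfl⟩
    have := card_le_card hsub
    omega

end main

end Pool.Agent.Lib.AbHyp8
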