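import Pool.Agent.Lib.AbHyp8.Defs
import Pool.Agent.Lib.AbHyp8.Core

set_option autoImplicit false

namespace Pool.Agent.Lib.AbHyp8

open Finset

variable {n : ℕ}

lemma vv (x : V n) : x + x = 0 := by
  funext i
  have : ∀ t : ZMod 2, t + t = 0 := by decide
  exact this _

lemma tt (t : ZMod 2) : t + t = 0 := by revert t; decide

lemma dot_add_left (a b c : V n) : dot (a + b) c = dot a c + dot b c := by
  simp [dot, add_mul, sum_add_distrib]

lemma dot_add_right (a b c : V n) : dot a (b + c) = dot a b + dot a c := by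
  simp [dot, mul_add, sum_add_distrib]

lemma dot_comm (a b : V n) : dot a b = dot b a := by
  simp [dot, mul_comm]

lemma dot_zero_left (a : V n) : dot 0 a = 0 := by simp [dot]

lemma dot_zero_right (a : V n) : dot a 0 = 0 := by simp [dot]

lemma dot_single (i : Fin n) (t : ZMod 2) (w : V n) : dot (Pi.single i t) w = t * w i := by
  unfold dot
  rw [sum_eq_single i]
  · simp
  · intro j _ hj; simp [Pi.single_eq_of_ne hj]
  · simp

lemma dot_smul_right (a b : V n) (t : ZMod 2) : dot a (t • b) = t * dot a b := by
  simp only [dot, Pi.smul_apply, smul_eq_mul, mul_sum]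
  apply sum_congr rfl
  intro i _; ring

/-- `v ↦ v · w` as an additive map -/
def dotHom (w : V n) : V n →+ ZMod 2 where
  toFun v := dot v w
  map_zero' := dot_zero_left w
  map_add' a b := dot_add_left a b w

lemma dot_all_zero (w : V n) (h : ∀ v, dot v w = 0) : w = 0 := by
  funext i
  have := h (Pi.single i 1)
  rw [dot_single, one_mul] at this
  exact this

/-- the annihilator of the annihilator of a vector -/
lemma perp_perp (w y : V n) (hw : w ≠ 0) (h : ∀ v, dot v w = 0 → dot v y = 0) :
    y = 0 ∨ y = w := by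
  obtain ⟨i, hi⟩ : ∃ i, w i ≠ 0 := by
    by_contra hcon
    push Not at hcon
    exact hw (funext hcon)
  have hi1 := zmod2_ne _ hi
  have hy : y = y i • w := by
    funext j
    have h1 := h (Pi.single j 1 + Pi.single i (w j)) (by
      rw [dot_add_left, dot_single, dot_single, hi1, mul_one, one_mul, tt])
    rw [dot_add_left, dot_single, dot_single, one_mul] at h1
    have : ∀ a b : ZMod 2, a + b = 0 → a = b := by decide
    rw [this _ _ h1, Pi.smul_apply, smul_eq_mul, mul_comm]
  rcases zmod2_cases (y i) with h0 | h0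
  · left; rw [hy, h0, zero_smul]
  · right; rw [hy, h0, one_smul]

lemma card_V : Fintype.card (V n) = 2 ^ n := by
  simp [V, ZMod.card]

/-- character sum -/
lemma sum_sg_dot (z : V n) : ∑ a : V n, sg (dot a z) = if z = 0 then (2 : ℤ) ^ n else 0 := by
  have h := sum_sg (dotHom z)
  have hz : (∀ x, dotHom z x = 0) ↔ z = 0 := by
    constructor
    · exact fun h => dot_all_zero z h
    · rintro rfl x; exact dot_zero_right x
  have h2 : ∑ a : V n, sg (dot a z) = ∑ a : V n, sg (dotHom z a) := rfl
  rw [h2, h]
  simp only [hz, card_V]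
  push_cast
  rfl

/-! derivatives -/

lemma D_comm (a b : V n) (f : V n → ZMod 2) : D a (D b f) = D b (D a f) := by
  funext x
  simp only [D]
  rw [add_right_comm x a b]
  ring

lemma D_self (a : V n) (f : V n → ZMod 2) (x : V n) : D a (D a f) x = 0 := by
  simp only [D]
  rw [add_assoc x, vv, add_zero]
  have : ∀ s t : ZMod 2, s + t + (t + s) = 0 := by decide
  exact this _ _

lemma D_zero (f : V n → ZMod 2) (x : V n) : D 0 f x = 0 := by
  simp [D, tt]

lemma D_add (a b : V n) (f : V n → ZMod 2) (x : V n) :
    D (a + b) f x = D a f x + D b f x + D a (D b f) x := by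
  simp only [D]
  have : x + (a + b) = x + a + b := by abel
  rw [this]
  have h : ∀ p q r s : ZMod 2, p + q = r + q + (s + q) + (p + r + (s + q)) := by decide
  exact h _ _ _ _

lemma D_fadd (a : V n) (f g : V n → ZMod 2) (x : V n) :
    D a (fun x => f x + g x) x = D a f x + D a g x := by
  simp only [D]; ring

lemma D_fadd' (a : V n) (f g : V n → ZMod 2) :
    D a (fun x => f x + g x) = fun x => D a f x + D a g x := funext (D_fadd a f g)

lemma D_const (a : V n) (c : ZMod 2) : D a (fun _ => c) = fun _ => 0 := by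
  funext x; simp [D, tt]

lemma D_dot (a l : V n) : D a (dot l) = fun _ => dot l a := by
  funext x
  simp only [D, dot_add_right]
  have : ∀ s t : ZMod 2, s + t + s = t := by decide
  exact this _ _

lemma D_zero_fun (a : V n) : D a (fun _ => (0 : ZMod 2)) = fun _ => 0 := D_const a 0

lemma D_eq (a : V n) (f : V n → ZMod 2) (x y : V n) (h : D (x + y) (D a f) x = 0) :
    D a f y = D a f x := by
  have : D (x + y) (D a f) x = D a f y + D a f x := by
    conv_lhs => rw [D]
    rw [← add_assoc, vv, zero_add]
  rw [this] at h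
  have h2 : ∀ s t : ZMod 2, s + t = 0 → s = t := by decide
  exact h2 _ _ h

lemma DegLeTwo.D_const {f : V n → ZMod 2} (h : DegLeTwo f) (a b x y : V n) :
    D a (D b f) x = D a (D b f) y := by
  apply D_eq
  exact h _ _ _ _

lemma DegLeTwo.deriv {f : V n → ZMod 2} (h : DegLeTwo f) (y : V n) : DegLeTwo (D y f) := by
  intro a b c x
  have := h b c y
  have h2 : D b (D c (D y f)) = fun _ => 0 := funext this
  rw [h2, D_zero_fun]

lemma DegLeTwo.add {f g : V n → ZMod 2} (hf : DegLeTwo f) (hg : DegLeTwo g) :
    DegLeTwo (fun x => f x + g x) := by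
  intro a b c x
  rw [D_fadd', D_fadd', D_fadd, hf, hg, add_zero]

lemma degLeTwo_dot (l : V n) : DegLeTwo (dot l) := by
  intro a b c x
  rw [D_dot, Pool.Agent.Lib.AbHyp8.D_const, D_zero_fun]

lemma degLeTwo_const (c : ZMod 2) : DegLeTwo (fun _ : V n => c) := by
  intro a b d x
  rw [Pool.Agent.Lib.AbHyp8.D_const, D_zero_fun, D_zero_fun]

end Pool.Agent.Lib.AbHyp8
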