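import Pool.Agent.Lib.AbHyp8.Hyper

set_option autoImplicit false

namespace Pool.Agent.Lib.AbHyp8

open Finset

variable {n : ℕ} {H : Type} [AddCommGroup H] [Fintype H] {β : H →+ V n →+ V n →+ ZMod 2}

open Classical in
/-- nonzero points of a plane -/
noncomputable def pts (T : AddSubgroup (V n)) : Finset (V n) := univ.filter fun x => x ∈ T ∧ x ≠ 0

lemma mem_pts (T : AddSubgroup (V n)) (x : V n) : x ∈ pts T ↔ x ∈ T ∧ x ≠ 0 := by
  classical
  unfold pts
  rw [mem_filter]
  simp only [mem_univ, true_and]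

lemma sum_pts {A : Type} [AddCommMonoid A] {T : AddSubgroup (V n)} {a b : V n} (h : IsPl T a b)
    (f : V n → A) : ∑ x ∈ pts T, f x = f a + (f b + f (a + b)) := by
  classical
  have h1 : a + b ≠ 0 := fun h' => h.2.2.1 (eq_of_add_zero a b h')
  have h2 : a + b ≠ a := fun h' => h.2.1 (by simpa using h')
  have h3 : a + b ≠ b := fun h' => h.1 (by simpa using h')
  have e : pts T = {a, b, a + b} := by
    ext x
    rw [mem_pts, h.2.2.2]
    simp only [mem_insert, mem_singleton]
    constructor
    · rintro ⟨h4, h5⟩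
      rcases h4 with h4 | h4
      · exact absurd h4 h5
      · exact h4
    · intro h4
      refine ⟨Or.inr h4, ?_⟩
      rcases h4 with rfl | rfl | rfl
      · exact h.1
      · exact h.2.1
      · exact h1
  rw [e, sum_insert, sum_pair (Ne.symm h3)]
  simp only [mem_insert, mem_singleton, not_or]
  exact ⟨h.2.2.1, fun h' => h2 h'.symm⟩

open Classical in
/-- points of the planes inside `ker k` -/
noncomputable def UU (β : H →+ V n →+ V n →+ ZMod 2) (k : V n) : Finset (V n) :=
  (SS β k).biUnion pts

lemma sum_UU (F : Fam β) (k : V n) {A : Type} [AddCommMonoid A] (f : V n → A) :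
    ∑ x ∈ UU β k, f x = ∑ T ∈ SS β k, ∑ x ∈ pts T, f x := by
  classical
  unfold UU
  rw [sum_biUnion]
  intro T hT T' hT' hne
  rw [mem_coe, mem_SS] at hT hT'
  rw [Function.onFun, disjoint_left]
  intro x h1 h2
  rw [mem_pts] at h1 h2
  exact hne (TT_disj F hT.1 hT'.1 h1.1 h2.1 h1.2)

lemma card_UU (F : Fam β) (k : V n) : (UU β k).card = 3 * (SS β k).card := by
  have h := sum_UU F k (fun _ => 1)
  rw [← card_eq_sum_ones] at h
  rw [h]
  have h2 : ∀ T ∈ SS β k, ∑ x ∈ pts T, 1 = 3 := by
    intro T hT
    rw [sum_pts (pp_spec F ((mem_SS k T).mp hT).1)]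
    rfl
  rw [sum_congr rfl h2, sum_const, smul_eq_mul, mul_comm]

lemma mem_UU (k x : V n) : x ∈ UU β k ↔ ∃ T ∈ SS β k, x ∈ T ∧ x ≠ 0 := by
  classical
  unfold UU
  rw [mem_biUnion]
  simp only [mem_pts]

lemma sum_sg_hom (S : AddSubgroup (V n)) (φ : V n →+ ZMod 2) (R : Prop) [Decidable R]
    (hR : R ↔ ∀ x ∈ S, φ x = 0) :
    ∑ s : S, sg (φ (s : V n)) = if R then (Nat.card S : ℤ) else 0 := by
  classical
  obtain ⟨l, hl⟩ := dot_repr φ
  have h := sum_sg_sub S l
  have h2 : ∑ s : S, sg (φ (s : V n)) = ∑ s : S, sg (dot l (s : V n)) :=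
    sum_congr rfl (fun s _ => by rw [hl])
  rw [h2, h]
  by_cases h3 : R
  · rw [if_pos h3, if_pos]
    intro x hx; rw [← hl]; exact hR.mp h3 x hx
  · rw [if_neg h3, if_neg]
    intro h4; apply h3; rw [hR]
    intro x hx; rw [hl]; exact h4 x hx

open Classical in
/-- number of null pairs in a hyperplane -/
lemma null_pairs (F : Fam β) (k : V n) :
    3 * Nat.card (KK k) + 6 * (SS β k).card ≤
      (∑ a : KK k, (univ.filter fun b : KK k => ∀ v, β v (a : V n) (b : V n) = 0).card) + 2 := by
  have h1 : ∀ a : KK k, 2 + (if (a : V n) ∈ UU β k then 2 else 0)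
        + (if (a : V n) = 0 then Nat.card (KK k) - 2 else 0) ≤
      (univ.filter fun b : KK k => ∀ v, β v (a : V n) (b : V n) = 0).card +
        (if (a : V n) = 0 then (if Nat.card (KK k) = 1 then 1 else 0) else 0) := by
    intro a
    by_cases ha : (a : V n) = 0
    · have e : (univ.filter fun b : KK k => ∀ v, β v (a : V n) (b : V n) = 0) = univ := by
        ext b
        simp only [mem_filter, mem_univ, true_and, iff_true]
        intro v; rw [ha, map_zero, AddMonoidHom.zero_apply]
      have hn : (a : V n) ∉ UU β k := by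
        rw [mem_UU]; rintro ⟨T, -, -, h⟩; exact h ha
      rw [e, card_univ, if_pos ha, if_pos ha, if_neg hn, Nat.card_eq_fintype_card]
      have : 0 < Fintype.card (KK k) := Fintype.card_pos
      split_ifs <;> omega
    · rw [if_neg ha, if_neg ha]
      by_cases hU : (a : V n) ∈ UU β k
      · rw [if_pos hU]
        obtain ⟨T, hT, haT, -⟩ := (mem_UU k _).mp hU
        rw [mem_SS] at hT
        have h4 : (univ.filter fun b : V n => b ∈ T).card = 4 := by
          have := (pp_spec F hT.1).card
          rw [Nat.card_eq_fintype_card, Fintype.card_subtype] at this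
          exact this
        have h5 : (univ.filter fun b : V n => b ∈ T).card ≤
            (univ.filter fun b : KK k => ∀ v, β v (a : V n) (b : V n) = 0).card := by
          apply card_le_card_of_injOn (fun b => if hb : b ∈ KK k then ⟨b, hb⟩ else 0)
          · intro b hb
            rw [mem_coe, mem_filter] at hb
            have hbK : b ∈ KK k := hT.2 b hb.2
            simp only [dif_pos hbK]
            rw [mem_coe, mem_filter]
            exact ⟨mem_univ _, fun v => TT_null F hT.1 haT hb.2 v⟩
          · intro b hb c hc h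
            rw [mem_coe, mem_filter] at hb hc
            have hbK : b ∈ KK k := hT.2 b hb.2
            have hcK : c ∈ KK k := hT.2 c hc.2
            simp only [dif_pos hbK, dif_pos hcK] at h
            exact congrArg Subtype.val h
        omega
      · rw [if_neg hU]
        have h5 : ({0, a} : Finset (KK k)) ⊆
            (univ.filter fun b : KK k => ∀ v, β v (a : V n) (b : V n) = 0) := by
          intro b hb
          simp only [mem_insert, mem_singleton] at hb
          rw [mem_filter]
          refine ⟨mem_univ _, ?_⟩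
          rcases hb with rfl | rfl
          · intro v; exact map_zero _
          · intro v; exact F.alt v _
        have h6 := card_le_card h5
        rw [card_pair (fun h => ha (by rw [← h]; rfl))] at h6
        omega
  have h2 := sum_le_sum (s := univ) (fun a _ => h1 a)
  rw [sum_add_distrib, sum_add_distrib, sum_add_distrib, sum_const, card_univ, smul_eq_mul,
    ← Nat.card_eq_fintype_card] at h2
  have e0 : ∀ c : ℕ, ∑ a : KK k, (if (a : V n) = 0 then c else 0) = c := by
    intro c
    rw [sum_eq_single (0 : KK k)]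
    · simp
    · intro b _ hb
      rw [if_neg]
      intro h; exact hb (Subtype.ext h)
    · intro h; exact absurd (mem_univ _) h
  rw [e0, e0] at h2
  have e1 : ∑ a : KK k, (if (a : V n) ∈ UU β k then 2 else 0) = 2 * (3 * (SS β k).card) := by
    rw [← card_UU F k, ← sum_filter, sum_const, smul_eq_mul, mul_comm]
    congr 1
    apply card_bij (fun (a : KK k) _ => (a : V n))
    · intro a ha; exact (mem_filter.mp ha).2
    · intro a _ b _ h; exact Subtype.ext h
    · intro x hx
      obtain ⟨T, hT, hxT, -⟩ := (mem_UU k x).mp hx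
      have hxK : x ∈ KK k := ((mem_SS k T).mp hT).2 x hxT
      exact ⟨⟨x, hxK⟩, mem_filter.mpr ⟨mem_univ _, hx⟩, rfl⟩
  rw [e1] at h2
  have hpos : 0 < Nat.card (KK k) := Nat.card_pos
  split_ifs at h2 <;> omega

/-- if `ker k` contains many planes, every form in `Gam` agrees there with a member of the
family -/
lemma agree (F : Fam β) (k : V n) (hk : k ≠ 0) (ht : 2 ^ n ≤ 8 * (SS β k).card)
    (hbig : Nat.card (KK k) * 2 ^ n + 64 < 32 * (3 * Nat.card (KK k) + 6 * (SS β k).card))
    (γ : altG n) (hγ : γ ∈ Gam β) :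
    ∃ χ : H, ∀ a ∈ KK k, ∀ b ∈ KK k, (γ : V n →+ V n →+ ZMod 2) a b = β χ a b := by
  classical
  by_contra hcon
  push Not at hcon
  let R : H → AddSubgroup (V n) := fun χ =>
    { carrier := {a | a ∈ KK k ∧ ∀ b ∈ KK k, (γ : V n →+ V n →+ ZMod 2) a b + β χ a b = 0}
      add_mem' := by
        rintro x y ⟨hx, hx'⟩ ⟨hy, hy'⟩
        refine ⟨(KK k).add_mem hx hy, fun b hb => ?_⟩
        have h1 := hx' b hb
        have h2 := hy' b hb
        simp only [map_add, AddMonoidHom.add_apply]
        have : ∀ p q r s : ZMod 2, p + q = 0 → r + s = 0 → p + r + (q + s) = 0 := by decide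
        exact this _ _ _ _ h1 h2
      zero_mem' := ⟨(KK k).zero_mem, fun b _ => by
        simp only [map_zero, AddMonoidHom.zero_apply, add_zero]⟩
      neg_mem' := by
        rintro x ⟨hx, hx'⟩
        have : -x = x := neg_eq_of_add_eq_zero_left (vv x)
        rw [this]; exact ⟨hx, hx'⟩ }
  have hRm : ∀ χ a, a ∈ R χ ↔ a ∈ KK k ∧ ∀ b ∈ KK k,
      (γ : V n →+ V n →+ ZMod 2) a b + β χ a b = 0 := fun _ _ => Iff.rfl
  have h32 : ∀ χ, 32 * Nat.card (R χ) ≤ 2 ^ n := by
    intro χ
    refine small_rad F k hk ht ((γ : V n →+ V n →+ ZMod 2) + β χ) ?_ ?_ ?_ ?_ (R χ)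
      (fun a ha => ((hRm χ a).mp ha).1) (fun a ha b hb => ((hRm χ a).mp ha).2 b hb)
    · intro a b
      simp only [AddMonoidHom.add_apply]
      rw [alt_symm γ a b, F.symm]
    · intro a
      simp only [AddMonoidHom.add_apply]
      have : (γ : V n →+ V n →+ ZMod 2) a a = 0 := γ.2 a
      rw [this, F.alt, add_zero]
    · intro T hT a ha b hb
      simp only [AddMonoidHom.add_apply]
      have hn : ∀ v, β v a b = 0 := fun v => TT_null F hT ha hb v
      rw [hγ a b hn, hn, add_zero]
    · obtain ⟨a, ha, b, hb, hab⟩ := hcon χ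
      refine ⟨a, ha, b, hb, ?_⟩
      simp only [AddMonoidHom.add_apply]
      have : ∀ p q : ZMod 2, p ≠ q → p + q ≠ 0 := by decide
      exact this _ _ hab
  -- double counting
  have c1 : ∑ χ : H, ∑ a : KK k, ∑ b : KK k,
      sg ((γ : V n →+ V n →+ ZMod 2) (a : V n) (b : V n) + β χ (a : V n) (b : V n))
      = ∑ χ : H, (Nat.card (KK k) : ℤ) * Nat.card (R χ) := by
    apply sum_congr rfl
    intro χ _
    have h1 : ∀ a : KK k, ∑ b : KK k,
        sg ((γ : V n →+ V n →+ ZMod 2) (a : V n) (b : V n) + β χ (a : V n) (b : V n))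
        = if (a : V n) ∈ R χ then (Nat.card (KK k) : ℤ) else 0 := by
      intro a
      exact sum_sg_hom (KK k) ((γ : V n →+ V n →+ ZMod 2) (a : V n) + β χ (a : V n))
        ((a : V n) ∈ R χ) (by
          rw [hRm]
          constructor
          · rintro ⟨-, h⟩; exact h
          · intro h; exact ⟨a.2, h⟩)
    simp only [h1]
    rw [← sum_filter, sum_const, nsmul_eq_mul, mul_comm]
    congr 2
    rw [Nat.card_eq_fintype_card, ← Fintype.card_subtype]
    apply Fintype.card_congr
    exact ⟨fun x => ⟨(x.1 : V n), x.2⟩, fun x => ⟨⟨x.1, ((hRm χ x.1).mp x.2).1⟩, x.2⟩,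
      fun x => rfl, fun x => rfl⟩
  have c2 : ∑ χ : H, ∑ a : KK k, ∑ b : KK k,
      sg ((γ : V n →+ V n →+ ZMod 2) (a : V n) (b : V n) + β χ (a : V n) (b : V n))
      = (Fintype.card H : ℤ) * (∑ a : KK k,
        (univ.filter fun b : KK k => ∀ v, β v (a : V n) (b : V n) = 0).card : ℕ) := by
    rw [sum_comm]
    push_cast
    rw [mul_sum]
    apply sum_congr rfl
    intro a _
    rw [sum_comm]
    have h1 : ∀ b : KK k, ∑ χ : H,
        sg ((γ : V n →+ V n →+ ZMod 2) (a : V n) (b : V n) + β χ (a : V n) (b : V n))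
        = if (∀ v, β v (a : V n) (b : V n) = 0) then (Fintype.card H : ℤ) else 0 := by
      intro b
      simp only [sg_add]
      rw [← mul_sum]
      have h2 := sum_sg (⟨⟨fun χ => β χ (a : V n) (b : V n), by simp⟩,
        by intro x y; simp⟩ : H →+ ZMod 2)
      have h3 : ∑ χ : H, sg (β χ (a : V n) (b : V n))
          = if (∀ v, β v (a : V n) (b : V n) = 0) then (Fintype.card H : ℤ) else 0 := h2
      rw [h3]
      split_ifs with h4
      · rw [hγ _ _ h4, sg_zero, one_mul]
      · rw [mul_zero]
    simp only [h1]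
    rw [← sum_filter, sum_const, nsmul_eq_mul, mul_comm]
  have c3 := c1.symm.trans c2
  have c4 : ∑ χ : H, (Nat.card (KK k) : ℤ) * Nat.card (R χ) * 32
      ≤ ∑ χ : H, (Nat.card (KK k) : ℤ) * 2 ^ n := by
    apply sum_le_sum
    intro χ _
    have h1 : (32 : ℤ) * Nat.card (R χ) ≤ 2 ^ n := by exact_mod_cast h32 χ
    have h2 : (0 : ℤ) ≤ Nat.card (KK k) := by positivity
    calc (Nat.card (KK k) : ℤ) * Nat.card (R χ) * 32
        = (Nat.card (KK k) : ℤ) * (32 * Nat.card (R χ)) := by ring
      _ ≤ _ := mul_le_mul_of_nonneg_left h1 h2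
  rw [← sum_mul, c3, sum_const, card_univ, nsmul_eq_mul] at c4
  have hH : (0 : ℤ) < Fintype.card H := by exact_mod_cast Fintype.card_pos
  have c5 : ((∑ a : KK k, (univ.filter fun b : KK k =>
      ∀ v, β v (a : V n) (b : V n) = 0).card : ℕ) : ℤ) * 32 ≤ (Nat.card (KK k) : ℤ) * 2 ^ n := by
    have : (Fintype.card H : ℤ) * (((∑ a : KK k, (univ.filter fun b : KK k =>
        ∀ v, β v (a : V n) (b : V n) = 0).card : ℕ) : ℤ) * 32)
        ≤ (Fintype.card H : ℤ) * ((Nat.card (KK k) : ℤ) * 2 ^ n) := by
      rw [← mul_assoc]; exact c4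
    exact le_of_mul_le_mul_left this hH
  have c6 : (∑ a : KK k, (univ.filter fun b : KK k =>
      ∀ v, β v (a : V n) (b : V n) = 0).card) * 32 ≤ Nat.card (KK k) * 2 ^ n := by
    exact_mod_cast c5
  have c7 := null_pairs F k
  omega

/-- order of `Gam` in this case -/
lemma gam_upper (F : Fam β) (k : V n) (hk : k ≠ 0) (ht : 2 ^ n ≤ 8 * (SS β k).card)
    (hbig : Nat.card (KK k) * 2 ^ n + 64 < 32 * (3 * Nat.card (KK k) + 6 * (SS β k).card)) :
    2 * Nat.card (Gam β) ≤ Fintype.card H * Nat.card (LL β k) := by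
  classical
  let Φ : (H × LL β k) → altG n := fun p => ⟨β p.1 + wedge k (p.2 : V n), fun a => by
    rw [AddMonoidHom.add_apply, AddMonoidHom.add_apply, F.alt, wedge_self, add_zero]⟩
  have h1 : ∀ g ∈ (univ : Finset (H × LL β k)).image Φ,
      2 ≤ (univ.filter fun p => Φ p = g).card := by
    intro g hg
    obtain ⟨p, -, rfl⟩ := mem_image.mp hg
    have hne : p ≠ (p.1, p.2 + ⟨k, self_mem_LL β k⟩) := by
      intro h
      have h2 := congrArg (fun q : H × LL β k => (q.2 : V n)) h
      simp only [AddSubgroup.coe_add] at h2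
      exact hk (by simpa using h2)
    have hsub : ({p, (p.1, p.2 + ⟨k, self_mem_LL β k⟩)} : Finset (H × LL β k)) ⊆
        univ.filter fun q => Φ q = Φ p := by
      intro q hq
      simp only [mem_insert, mem_singleton] at hq
      rw [mem_filter]
      refine ⟨mem_univ _, ?_⟩
      rcases hq with rfl | rfl
      · rfl
      · apply Subtype.ext
        change β p.1 + wedge k ((p.2 : V n) + k) = β p.1 + wedge k (p.2 : V n)
        congr 1
        apply AddMonoidHom.ext; intro a
        apply AddMonoidHom.ext; intro b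
        rw [wedge_apply, wedge_apply, dot_add_left, dot_add_left]
        have h3 : ∀ p q r s : ZMod 2, p * (q + r) + r * (s + p) = p * q + r * s := by decide
        exact h3 _ _ _ _
    have := card_le_card hsub
    rw [card_pair hne] at this
    exact this
  have h2 := mul_card_image_le_card (univ : Finset (H × LL β k)) 2 h1
  rw [card_univ, Fintype.card_prod, ← Nat.card_eq_fintype_card (α := LL β k)] at h2
  have h3 : Nat.card (Gam β) ≤ ((univ : Finset (H × LL β k)).image Φ).card := by
    have h6 : Nat.card (Gam β) = (univ.filter fun γ : altG n => γ ∈ Gam β).card := by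
      rw [Nat.card_eq_fintype_card, Fintype.card_subtype]
    rw [h6]
    apply card_le_card
    intro γ hγ
    have hγ' := (mem_filter.mp hγ).2
    obtain ⟨χ, hχ⟩ := agree F k hk ht hbig γ hγ'
    obtain ⟨l, hl⟩ := wedge_of_zero ((γ : V n →+ V n →+ ZMod 2) + β χ)
      (by
        intro a b
        simp only [AddMonoidHom.add_apply]
        rw [alt_symm γ a b, F.symm])
      (by
        intro a
        simp only [AddMonoidHom.add_apply]
        have : (γ : V n →+ V n →+ ZMod 2) a a = 0 := γ.2 a
        rw [this, F.alt, add_zero]) k hk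
      (by
        intro a b ha hb
        simp only [AddMonoidHom.add_apply]
        rw [hχ a ha b hb, tt])
    have hlL : l ∈ LL β k := by
      intro a b hab
      rw [← hl a b]
      simp only [AddMonoidHom.add_apply]
      rw [hγ' a b hab, hab, add_zero]
    rw [mem_image]
    refine ⟨(χ, ⟨l, hlL⟩), mem_univ _, ?_⟩
    apply Subtype.ext
    change β χ + wedge k l = (γ : V n →+ V n →+ ZMod 2)
    apply AddMonoidHom.ext; intro a
    apply AddMonoidHom.ext; intro b
    have h4 := hl a b
    simp only [AddMonoidHom.add_apply] at h4 ⊢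
    rw [← h4]
    have : ∀ p q : ZMod 2, p + (q + p) = q := by decide
    exact this _ _
  omega

/-- lower bound for the order of `Gam` -/
lemma gam_lower (F : Fam β) {η : V n → V n → V n → ZMod 2} (T : Tri η)
    (hη : ∀ a b, (∀ v, β v a b = 0) → ∀ c, η a b c = 0) :
    Fintype.card H * 2 ^ n ≤ Nat.card (rad3 T) * Nat.card (Gam β) := by
  classical
  let et : V n → (V n →+ V n →+ ZMod 2) := fun y =>
    AddMonoidHom.mk' (fun a => AddMonoidHom.mk' (fun b => η y a b) (fun b c => T.add3 y a b c))
      (fun a b => AddMonoidHom.ext fun c => T.add2 y a b c)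
  have het : ∀ y a b, et y a b = η y a b := fun _ _ _ => rfl
  let Φ : (H × V n) → Gam β := fun p => ⟨⟨β p.1 + et p.2, fun a => by
      rw [AddMonoidHom.add_apply, AddMonoidHom.add_apply, F.alt, het, T.alt2, add_zero]⟩, by
      intro a b hab
      change β p.1 a b + et p.2 a b = 0
      rw [hab, het, T.s1, T.s2, hη a b hab, add_zero]⟩
  have hfib : ∀ g ∈ (univ : Finset (H × V n)).image Φ,
      (univ.filter fun p => Φ p = g).card ≤ Nat.card (rad3 T) := by
    intro g hg
    obtain ⟨p₀, -, rfl⟩ := mem_image.mp hg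
    have hR : Nat.card (rad3 T) = (univ.filter fun x : V n => x ∈ rad3 T).card := by
      rw [Nat.card_eq_fintype_card, Fintype.card_subtype]
    rw [hR]
    have heq : ∀ p, Φ p = Φ p₀ → p.1 - p₀.1 = 0 ∧ p.2 + p₀.2 ∈ rad3 T := by
      intro p hp
      apply core2 β F.card F.rad T hη
      intro a b
      have h1 : β p.1 a b + η p.2 a b = β p₀.1 a b + η p₀.2 a b :=
        congrArg (fun γ : Gam β => ((γ : altG n) : V n →+ V n →+ ZMod 2) a b) hp
      rw [T.add, map_sub, AddMonoidHom.sub_apply, AddMonoidHom.sub_apply]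
      have : ∀ p q r s : ZMod 2, p + q = r + s → q + s = p - r := by decide
      exact this _ _ _ _ h1
    apply card_le_card_of_injOn (fun p => p.2 + p₀.2)
    · intro p hp
      rw [mem_coe, mem_filter]
      exact ⟨mem_univ _, (heq p (mem_filter.mp hp).2).2⟩
    · intro p hp q hq hpq
      have h1 := sub_eq_zero.mp (heq p (mem_filter.mp hp).2).1
      have h2 := sub_eq_zero.mp (heq q (mem_filter.mp hq).2).1
      exact Prod.ext (h1.trans h2.symm) (add_right_cancel hpq)
  have h1 := card_le_mul_card_image (univ : Finset (H × V n)) _ hfib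
  rw [card_univ, Fintype.card_prod, card_V] at h1
  have h2 : ((univ : Finset (H × V n)).image Φ).card ≤ Nat.card (Gam β) := by
    rw [Nat.card_eq_fintype_card]
    exact card_le_univ _
  exact h1.trans (Nat.mul_le_mul_left _ h2)

end Pool.Agent.Lib.AbHyp8
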