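import Pool.Agent.Lib.AbHyp8.Main

set_option autoImplicit false

namespace Pool.Agent.Lib.AbHyp8

open Finset

variable {n : ℕ}

/-- component plus derivative plus affine function -/
def par (G : V n → V n) (f' : V n → ZMod 2) (v y l : V n) (c : ZMod 2) : V n → ZMod 2 :=
  fun x => (comp v G x + D y f' x) + (dot l x + c)

lemma par_deg {G : V n → V n} {w : V n} (hq : ∀ v, dot v w = 0 → DegLeTwo (comp v G))
    {f' : V n → ZMod 2} (h3 : ∀ y, DegLeTwo (D y f')) (v y l : V n) (c : ZMod 2)
    (hv : dot v w = 0) : DegLeTwo (par G f' v y l c) :=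
  ((hq v hv).add (h3 y)).add ((degLeTwo_dot l).add (degLeTwo_const c))

lemma par_DD {G : V n → V n} {w : V n} (hq : ∀ v, dot v w = 0 → DegLeTwo (comp v G))
    {f' : V n → ZMod 2} (h3 : ∀ y, DegLeTwo (D y f')) (v y l : V n) (c : ZMod 2)
    (hv : dot v w = 0) (a b x : V n) :
    D a (D b (par G f' v y l c)) x = pol (comp v G) a b + tri f' a b y := by
  have e1 : D a (D b (fun x => dot l x + c)) x = 0 := by
    rw [D_fadd', D_fadd, D_dot, D_const, D_const, D_zero_fun, add_zero]
  have e2 : D a (D b (par G f' v y l c)) x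
      = D a (D b (fun x => comp v G x + D y f' x)) x + D a (D b (fun x => dot l x + c)) x := by
    unfold par
    rw [D_fadd', D_fadd]
  rw [e2, e1, add_zero, D_fadd', D_fadd, pol_const (hq v hv), tri_const h3]

lemma comp_add (v v' : V n) (G : V n → V n) : comp (v + v') G = fun x => comp v G x + comp v' G x := by
  funext x
  simp only [comp, dot_add_left]

lemma pol_comp_add (v v' : V n) (G : V n → V n) (a b : V n) :
    pol (comp (v + v') G) a b = pol (comp v G) a b + pol (comp v' G) a b := by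
  unfold pol
  rw [comp_add, D_fadd', D_fadd]

lemma fibre (G : V n → V n) (w : V n) (hw : w ≠ 0)
    (hq : ∀ v, dot v w = 0 → DegLeTwo (comp v G))
    (hr : ∀ v, v ≠ 0 → dot v w = 0 → Nat.card {a : V n // ∀ b, pol (comp v G) a b = 0} = 2)
    (f' : V n → ZMod 2) (h3 : ∀ y, DegLeTwo (D y f'))
    (hη : ∀ a b, (∀ v, dot v w = 0 → pol (comp v G) a b = 0) → ∀ c, tri f' a b c = 0)
    (v v' y y' l l' : V n) (c c' : ZMod 2) (hv : dot v w = 0) (hv' : dot v' w = 0)
    (h : par G f' v y l c = par G f' v' y' l' c') :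
    v = v' ∧ y + y' ∈ rad3 (tri_Tri h3) := by
  have T := tri_Tri h3
  have hvv : dot (v + v') w = 0 := by rw [dot_add_left, hv, hv', add_zero]
  have key : ∀ a b, tri f' (y + y') a b = pol (comp (v + v') G) a b := by
    intro a b
    have h1 := par_DD hq h3 v y l c hv a b 0
    have h2 := par_DD hq h3 v' y' l' c' hv' a b 0
    rw [h] at h1
    have h4 := h1.symm.trans h2
    have e : ∀ z, tri f' z a b = tri f' a b z := by
      intro z
      rw [T.s1, T.s2]
    rw [T.add, e, e, pol_comp_add]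
    have dec : ∀ p q r s : ZMod 2, p + q = r + s → q + s = p + r := by decide
    exact dec _ _ _ _ h4
  have h5 := kernel_zero G w hw hq hr f' h3 hη (y + y') (v + v') hvv key
  refine ⟨?_, h5.2⟩
  have := h5.1
  calc v = v + (v' + v') := by rw [vv, add_zero]
    _ = (v + v') + v' := by abel
    _ = v' := by rw [this, zero_add]

lemma affine_inj (l l' : V n) (c c' : ZMod 2) (h : ∀ x, dot l x + c = dot l' x + c') :
    l = l' ∧ c = c' := by
  have h0 := h 0
  rw [dot_zero_right, dot_zero_right, zero_add, zero_add] at h0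
  refine ⟨?_, h0⟩
  have h1 : l + l' = 0 := by
    apply dot_all_zero
    intro v
    have := h v
    rw [h0] at this
    have := add_right_cancel this
    rw [dot_comm, dot_add_left, this, tt]
  calc l = l + (l' + l') := by rw [vv, add_zero]
    _ = (l + l') + l' := by abel
    _ = l' := by rw [h1, zero_add]

/-- The family of functions of degree two which vanish on the planes of `G` is large. -/
theorem count_ge (G : V n → V n) (hG : IsAPN G) (w : V n) (hw : w ≠ 0)
    (hq : ∀ v, dot v w = 0 → DegLeTwo (comp v G))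
    (hr : ∀ v, v ≠ 0 → dot v w = 0 → Nat.card {a : V n // ∀ b, pol (comp v G) a b = 0} = 2)
    (f : V n → ZMod 2)
    (hf : ∀ a b, (∀ v, dot v w = 0 → pol (comp v G) a b = 0) →
      ∀ x, D a (D b f) x = D a (D b f) 0)
    (hd : ¬ DegLeTwo f) :
    2 ^ (2 * n + 5) ≤ Nat.card {g : V n → ZMod 2 // DegLeTwo g ∧
      ∀ a b, (∀ v, dot v w = 0 → pol (comp v G) a b = 0) → ∀ x, D a (D b g) x = 0} := by
  classical
  obtain ⟨f', -, hd', h3, hη⟩ := cubic_of G w f hf hd (fun _ => True) (fun _ _ _ => trivial) trivial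
  have h32 := index_ge G hG w hw hq (fun v h1 h2 => (hr v h1 h2).ge) f' hd' h3 hη
  let Φ : (hyp w × (V n × (V n × ZMod 2))) → (V n → ZMod 2) := fun p =>
    par G f' (p.1 : V n) p.2.1 p.2.2.1 p.2.2.2
  have hfib : ∀ g ∈ (univ : Finset (hyp w × (V n × (V n × ZMod 2)))).image Φ,
      (univ.filter fun p => Φ p = g).card ≤ Nat.card (rad3 (tri_Tri h3)) := by
    intro g hg
    obtain ⟨p₀, -, rfl⟩ := mem_image.mp hg
    have hR : Nat.card (rad3 (tri_Tri h3)) = (univ.filter fun x : V n => x ∈ rad3 (tri_Tri h3)).card := by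
      rw [Nat.card_eq_fintype_card, Fintype.card_subtype]
    rw [hR]
    apply card_le_card_of_injOn (fun p => p.2.1 + p₀.2.1)
    · intro p hp
      have hp' : Φ p = Φ p₀ := (mem_filter.mp hp).2
      have := (fibre G w hw hq hr f' h3 hη _ _ _ _ _ _ _ _ p.1.2 p₀.1.2 hp').2
      exact mem_filter.mpr ⟨mem_univ _, this⟩
    · rintro ⟨v, y, l, c⟩ hp ⟨v', y', l', c'⟩ hq' hpq
      have hp' : Φ (v, y, l, c) = Φ p₀ := (mem_filter.mp hp).2
      have hq'' : Φ (v', y', l', c') = Φ p₀ := (mem_filter.mp hq').2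
      have e1 := (fibre G w hw hq hr f' h3 hη _ _ _ _ _ _ _ _ v.2 p₀.1.2 hp').1
      have e2 := (fibre G w hw hq hr f' h3 hη _ _ _ _ _ _ _ _ v'.2 p₀.1.2 hq'').1
      have ev : v = v' := Subtype.ext (e1.trans e2.symm)
      have ey : y = y' := add_right_cancel hpq
      subst ev ey
      have e3 := affine_inj l l' c c' (by
        intro x
        have := congrFun (hp'.trans hq''.symm) x
        exact add_left_cancel this)
      rw [e3.1, e3.2]
  have h1 := card_le_mul_card_image univ _ hfib
  have h2 : (univ : Finset (hyp w × (V n × (V n × ZMod 2)))).card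
      = Fintype.card (hyp w) * (2 ^ n * (2 ^ n * 2)) := by
    rw [card_univ, Fintype.card_prod, Fintype.card_prod, Fintype.card_prod, card_V, ZMod.card]
  have h4 : 2 ^ n = 2 * Fintype.card (hyp w) := by
    rw [← card_V (n := n), card_hyp w hw, Nat.card_eq_fintype_card]
  have h5 : ((univ : Finset (hyp w × (V n × (V n × ZMod 2)))).image Φ).card
      ≤ Nat.card {g : V n → ZMod 2 // DegLeTwo g ∧
        ∀ a b, (∀ v, dot v w = 0 → pol (comp v G) a b = 0) → ∀ x, D a (D b g) x = 0} := by
    rw [Nat.card_eq_fintype_card, Fintype.card_subtype]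
    apply card_le_card
    intro g hg
    obtain ⟨p, -, rfl⟩ := mem_image.mp hg
    rw [mem_filter]
    refine ⟨mem_univ _, par_deg hq h3 _ _ _ _ p.1.2, ?_⟩
    intro a b hab x
    have e := par_DD hq h3 (p.1 : V n) p.2.1 p.2.2.1 p.2.2.2 p.1.2 a b x
    rw [hab _ p.1.2, hη a b hab, add_zero] at e
    exact e
  refine le_trans ?_ h5
  rw [h2] at h1
  have hpos : 0 < 2 ^ n := by positivity
  have h6 : 2 ^ n * 2 ^ (2 * n + 5) ≤ 2 ^ n *
      ((univ : Finset (hyp w × (V n × (V n × ZMod 2)))).image Φ).card := by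
    calc 2 ^ n * 2 ^ (2 * n + 5) = 32 * (2 ^ n * (2 ^ n * 2 ^ n)) := by
          rw [two_mul, pow_add, pow_add]; ring
      _ = 32 * (Fintype.card (hyp w) * (2 ^ n * (2 ^ n * 2))) := by
          congr 1
          conv_lhs => rw [h4]
          conv_rhs => rw [h4]
          ring
      _ ≤ 32 * (Nat.card (rad3 (tri_Tri h3)) *
            ((univ : Finset (hyp w × (V n × (V n × ZMod 2)))).image Φ).card) :=
          Nat.mul_le_mul_left _ h1
      _ = (32 * Nat.card (rad3 (tri_Tri h3))) *
            ((univ : Finset (hyp w × (V n × (V n × ZMod 2)))).image Φ).card := by ring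
      _ ≤ _ := Nat.mul_le_mul_right _ h32
  exact Nat.le_of_mul_le_mul_left h6 hpos

end Pool.Agent.Lib.AbHyp8
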