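import Mathlib

set_option autoImplicit false

namespace Pool.Agent.Lib.AbHyp8

/-- `F_2^n` -/
abbrev V (n : ℕ) := Fin n → ZMod 2

/-- the standard inner product `v · w` -/
def dot {n : ℕ} (v w : V n) : ZMod 2 := ∑ i, v i * w i

/-- the component function `x ↦ v · G(x)` -/
def comp {n : ℕ} (v : V n) (G : V n → V n) (x : V n) : ZMod 2 := dot v (G x)

/-- `G` is APN: `G(x+a) + G(x) = b` has at most two solutions for `a ≠ 0` -/
def IsAPN {n : ℕ} (G : V n → V n) : Prop :=
  ∀ a : V n, a ≠ 0 → ∀ b : V n, Nat.card {x : V n // G (x + a) + G x = b} ≤ 2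

/-- the Walsh transform `W(a, v) = ∑ (-1)^(v·G(x) + a·x)` -/
def walsh {n : ℕ} (G : V n → V n) (a v : V n) : ℤ :=
  ∑ x : V n, if dot v (G x) + dot a x = 0 then (1 : ℤ) else -1

/-- `G` is almost bent -/
def IsAB {n : ℕ} (G : V n → V n) : Prop :=
  ∀ v : V n, v ≠ 0 → ∀ a : V n, walsh G a v = 0 ∨ walsh G a v = 2 ^ ((n + 1) / 2) ∨
    walsh G a v = - 2 ^ ((n + 1) / 2)

/-- derivative of a Boolean function -/
def D {n : ℕ} (a : V n) (f : V n → ZMod 2) (x : V n) : ZMod 2 := f (x + a) + f x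

/-- degree at most two: all third order derivatives vanish -/
def DegLeTwo {n : ℕ} (f : V n → ZMod 2) : Prop := ∀ a b c x : V n, D a (D b (D c f)) x = 0

end Pool.Agent.Lib.AbHyp8
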