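import Pool.Agent.Lib.AbHyp8.Quad

set_option autoImplicit false

namespace Pool.Agent.Lib.AbHyp8

open Finset

variable {n : ℕ}

/-- `x ↦ l · x` -/
def dotHom' (l : V n) : V n →+ ZMod 2 where
  toFun x := dot l x
  map_zero' := dot_zero_right l
  map_add' a b := dot_add_right l a b

/-- annihilator -/
def ann (S : AddSubgroup (V n)) : AddSubgroup (V n) where
  carrier := {l | ∀ x ∈ S, dot l x = 0}
  add_mem' := by
    intro l m hl hm x hx
    rw [dot_add_left, hl x hx, hm x hx, add_zero]
  zero_mem' := fun x _ => dot_zero_left x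
  neg_mem' := by
    intro l hl x hx
    have : -l = l := neg_eq_of_add_eq_zero_left (vv l)
    rw [this]; exact hl x hx

lemma mem_ann (S : AddSubgroup (V n)) (l : V n) : l ∈ ann S ↔ ∀ x ∈ S, dot l x = 0 := Iff.rfl

noncomputable instance sgFintype (S : AddSubgroup (V n)) : Fintype S := Fintype.ofFinite _

open Classical in
lemma sum_sg_sub (S : AddSubgroup (V n)) (l : V n) :
    ∑ s : S, sg (dot l (s : V n)) = if (∀ x ∈ S, dot l x = 0) then (Nat.card S : ℤ) else 0 := by
  have h := sum_sg (A := S) (AddMonoidHom.mk' (fun s => dot l (s : V n)) (fun s t => by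
    rw [AddSubgroup.coe_add, dot_add_right]))
  have h' : ∑ s : S, sg (dot l (s : V n)) = if (∀ x : S, (AddMonoidHom.mk'
      (fun s : S => dot l (s : V n)) (fun s t => by
    rw [AddSubgroup.coe_add, dot_add_right])) x = 0) then (Fintype.card S : ℤ) else 0 := by
    rw [← h]; rfl
  rw [h', Nat.card_eq_fintype_card]
  by_cases hx : ∀ x ∈ S, dot l x = 0
  · rw [if_pos hx, if_pos]
    intro x; exact hx x x.2
  · rw [if_neg hx, if_neg]
    intro h; apply hx
    intro x hx; exact h ⟨x, hx⟩

lemma card_ann2 (S S' : AddSubgroup (V n)) :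
    Nat.card (ann S ⊓ ann S' : AddSubgroup (V n)) * (Nat.card S * Nat.card S')
      = 2 ^ n * Nat.card (S ⊓ S' : AddSubgroup (V n)) := by
  classical
  have h1 : ∑ k : V n, (∑ s : S, sg (dot k (s : V n))) * (∑ s' : S', sg (dot k (s' : V n)))
      = (Nat.card (ann S ⊓ ann S' : AddSubgroup (V n)) : ℤ) * (Nat.card S * Nat.card S') := by
    have h : ∀ k : V n, (∑ s : S, sg (dot k (s : V n))) * (∑ s' : S', sg (dot k (s' : V n)))
        = if k ∈ (ann S ⊓ ann S' : AddSubgroup (V n)) then ((Nat.card S : ℤ) * Nat.card S')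
          else 0 := by
      intro k
      rw [sum_sg_sub, sum_sg_sub]
      by_cases h1 : ∀ x ∈ S, dot k x = 0
      · by_cases h2 : ∀ x ∈ S', dot k x = 0
        · rw [if_pos h1, if_pos h2, if_pos (AddSubgroup.mem_inf.mpr ⟨(mem_ann S k).mpr h1, (mem_ann S' k).mpr h2⟩)]
        · rw [if_neg h2, mul_zero, if_neg]
          intro h; exact h2 (AddSubgroup.mem_inf.mp h).2
      · rw [if_neg h1, zero_mul, if_neg]
        intro h; exact h1 (AddSubgroup.mem_inf.mp h).1
    simp only [h]
    have hc : Nat.card (ann S ⊓ ann S' : AddSubgroup (V n))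
        = (univ.filter fun k : V n => k ∈ (ann S ⊓ ann S' : AddSubgroup (V n))).card := by
      rw [Nat.card_eq_fintype_card, Fintype.card_subtype]
    rw [← sum_filter, sum_const, nsmul_eq_mul, hc]
  have h2 : ∑ k : V n, (∑ s : S, sg (dot k (s : V n))) * (∑ s' : S', sg (dot k (s' : V n)))
      = 2 ^ n * (Nat.card (S ⊓ S' : AddSubgroup (V n)) : ℤ) := by
    simp only [sum_mul_sum]
    rw [sum_comm]
    have h : ∀ s : S, ∑ k : V n, ∑ s' : S', sg (dot k (s : V n)) * sg (dot k (s' : V n))
        = if (s : V n) ∈ S' then (2 : ℤ) ^ n else 0 := by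
      intro s
      rw [sum_comm]
      have h3 : ∀ s' : S', ∑ k : V n, sg (dot k (s : V n)) * sg (dot k (s' : V n))
          = if (s : V n) = s' then (2 : ℤ) ^ n else 0 := by
        intro s'
        simp only [← sg_add, ← dot_add_right]
        rw [sum_sg_dot]
        have e : (s : V n) + (s' : V n) = 0 ↔ (s : V n) = s' := by
          constructor
          · intro h
            calc (s : V n) = (s : V n) + ((s' : V n) + s') := by rw [vv, add_zero]
              _ = ((s : V n) + s') + s' := by abel
              _ = s' := by rw [h, zero_add]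
          · intro h; rw [h, vv]
        simp only [e]
      simp only [h3]
      by_cases hs : (s : V n) ∈ S'
      · rw [if_pos hs, sum_eq_single (⟨(s : V n), hs⟩ : S')]
        · simp
        · intro t _ ht
          rw [if_neg]
          intro h; apply ht; exact Subtype.ext h.symm
        · intro h; exact absurd (mem_univ _) h
      · rw [if_neg hs]
        apply sum_eq_zero
        intro t _
        rw [if_neg]
        intro h; apply hs; rw [h]; exact t.2
    simp only [h]
    rw [← sum_filter, sum_const, nsmul_eq_mul, mul_comm]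
    congr 2
    rw [Nat.card_eq_fintype_card, ← Fintype.card_subtype]
    apply Fintype.card_congr
    exact ⟨fun x => ⟨(x.1 : V n), x.1.2, x.2⟩, fun x => ⟨⟨x.1, x.2.1⟩, x.2.2⟩,
      fun x => rfl, fun x => rfl⟩
  have := h1.symm.trans h2
  exact_mod_cast this

lemma card_ann (S : AddSubgroup (V n)) : Nat.card S * Nat.card (ann S) = 2 ^ n := by
  have h := card_ann2 S S
  rw [inf_idem, inf_idem] at h
  have hp : 0 < Nat.card S := Nat.card_pos
  apply Nat.eq_of_mul_eq_mul_right hp
  calc Nat.card S * Nat.card (ann S) * Nat.card S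
      = Nat.card (ann S) * (Nat.card S * Nat.card S) := by ring
    _ = _ := h

/-- separation -/
lemma sep (S : AddSubgroup (V n)) (x : V n) (hx : x ∉ S) : ∃ l ∈ ann S, dot l x = 1 := by
  classical
  by_contra hcon
  push Not at hcon
  have h0 : ∀ l ∈ ann S, dot l x = 0 := by
    intro l hl
    rcases zmod2_cases (dot l x) with h | h
    · exact h
    · exact absurd h (hcon l hl)
  let S' := S ⊔ AddSubgroup.zmultiples x
  have h1 : ann S ≤ ann S' := by
    intro l hl
    have h2 : S' ≤ (dotHom' l).ker := by
      apply sup_le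
      · intro y hy; exact hl y hy
      · rw [AddSubgroup.zmultiples_le]
        exact h0 l hl
    intro y hy
    exact h2 hy
  have h3 : S < S' := by
    refine lt_of_le_of_ne le_sup_left ?_
    intro h
    apply hx
    rw [h]
    exact (le_sup_right : AddSubgroup.zmultiples x ≤ S') (AddSubgroup.mem_zmultiples x)
  have h4 : Nat.card S < Nat.card S' := by
    apply Set.ncard_lt_ncard (s := (S : Set (V n))) (t := (S' : Set (V n))) h3
  have h5 : Nat.card (ann S) ≤ Nat.card (ann S') :=
    Nat.card_le_card_of_injective (Subtype.map id (fun l hl => h1 hl))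
      (Subtype.map_injective _ Function.injective_id)
  have h6 := card_ann S
  have h7 := card_ann S'
  have h8 : 0 < Nat.card (ann S') := Nat.card_pos
  have h9 : Nat.card S * Nat.card (ann S) < Nat.card S' * Nat.card (ann S') := by
    calc Nat.card S * Nat.card (ann S) ≤ Nat.card S * Nat.card (ann S') :=
          Nat.mul_le_mul_left _ h5
      _ < _ := Nat.mul_lt_mul_of_pos_right h4 h8
  omega

end Pool.Agent.Lib.AbHyp8
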