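import Pool.Agent.Lib.AbHyp8.Main

set_option autoImplicit false

namespace Pool.Agent.Lib.AbHyp8

open Finset

variable {n : ℕ}

/-- Walsh sum of a Boolean function -/
def WW (f : V n → ZMod 2) (a : V n) : ℤ := ∑ x, sg (f x + dot a x)

lemma walsh_eq (G : V n → V n) (a v : V n) : walsh G a v = WW (comp v G) a := rfl

/-- the radical of a function of degree two -/
def radf (f : V n → ZMod 2) (hf : DegLeTwo f) : AddSubgroup (V n) where
  carrier := {a | ∀ b, pol f a b = 0}
  add_mem' := by
    intro x y hx hy b
    rw [pol_add hf, hx b, hy b, add_zero]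
  zero_mem' := fun b => pol_zero f b
  neg_mem' := by
    intro x hx b
    have : -x = x := neg_eq_of_add_eq_zero_left (vv x)
    rw [this]; exact hx b

noncomputable instance radFintype (f : V n → ZMod 2) (hf : DegLeTwo f) : Fintype (radf f hf) :=
  Fintype.ofFinite _

lemma mem_radf (f : V n → ZMod 2) (hf : DegLeTwo f) (a : V n) :
    a ∈ radf f hf ↔ ∀ b, pol f a b = 0 := Iff.rfl

/-- the linear function on the radical -/
def radHom (f : V n → ZMod 2) (hf : DegLeTwo f) (a : V n) : radf f hf →+ ZMod 2 :=
  AddMonoidHom.mk' (fun z => f z + f 0 + dot a z) (by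
    intro z z'
    have h1 := quad_shift hf (z : V n) (z' : V n)
    have h2 : pol f (z : V n) (z' : V n) = 0 := z.2 _
    rw [h2, add_zero] at h1
    rw [AddSubgroup.coe_add, dot_add_right]
    have dec : ∀ p q r s t u : ZMod 2, p + q = r + s →
        p + s + (t + u) = q + s + t + (r + s + u) := by decide
    exact dec _ _ _ _ _ _ h1)

lemma sum_sg_pol (f : V n → ZMod 2) (hf : DegLeTwo f) (z : V n) :
    ∑ x : V n, sg (pol f x z) = if (∀ b, pol f z b = 0) then (2 : ℤ) ^ n else 0 := by
  classical
  have h := sum_sg (AddMonoidHom.mk' (fun x => pol f z x) (fun x y => pol_add2 hf z x y))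
  have h2 : ∑ x : V n, sg (pol f x z)
      = ∑ x : V n, sg ((AddMonoidHom.mk' (fun x => pol f z x) (fun x y => pol_add2 hf z x y)) x) := by
    apply sum_congr rfl
    intro x _
    rw [pol_symm]; rfl
  rw [h2, h, card_V]
  have e : (∀ x, (AddMonoidHom.mk' (fun x => pol f z x) (fun x y => pol_add2 hf z x y)) x = 0)
      ↔ (∀ b, pol f z b = 0) := Iff.rfl
  simp only [e]
  push_cast
  rfl

lemma WW_sq (f : V n → ZMod 2) (hf : DegLeTwo f) (a : V n) :
    (WW f a) ^ 2 = 2 ^ n * ∑ z : radf f hf, sg (radHom f hf a z) := by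
  classical
  have h1 : (WW f a) ^ 2 = ∑ x : V n, ∑ z : V n, sg (f (x + z) + f x + dot a z) := by
    rw [sq, WW, sum_mul_sum]
    apply sum_congr rfl
    intro x _
    rw [← Fintype.sum_equiv (Equiv.addLeft x) (fun z => sg (f x + dot a x) *
      sg (f (x + z) + dot a (x + z))) (fun y => sg (f x + dot a x) * sg (f y + dot a y))
      (fun z => rfl)]
    apply sum_congr rfl
    intro z _
    rw [← sg_add, dot_add_right]
    congr 1
    have dec : ∀ p q r s : ZMod 2, p + q + (r + (q + s)) = r + p + s := by decide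
    exact dec _ _ _ _
  rw [h1, sum_comm]
  have h2 : ∀ z : V n, ∑ x : V n, sg (f (x + z) + f x + dot a z)
      = if (∀ b, pol f z b = 0) then 2 ^ n * sg (f z + f 0 + dot a z) else 0 := by
    intro z
    have h3 : ∀ x : V n, sg (f (x + z) + f x + dot a z)
        = sg (f z + f 0 + dot a z) * sg (pol f x z) := by
      intro x
      rw [← sg_add, quad_shift hf]
      congr 1
      ring
    simp only [h3]
    rw [← mul_sum, sum_sg_pol f hf]
    split_ifs
    · ring
    · ring
  simp only [h2]
  rw [← sum_filter, mul_sum]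
  symm
  apply sum_bij (fun (z : radf f hf) _ => (z : V n))
  · intro z _
    rw [mem_filter]
    exact ⟨mem_univ _, z.2⟩
  · intro z _ z' _ h
    exact Subtype.ext h
  · intro z hz
    exact ⟨⟨z, (mem_filter.mp hz).2⟩, mem_univ _, rfl⟩
  · intro z _
    rfl

lemma WW_cases (f : V n → ZMod 2) (hf : DegLeTwo f) (a : V n) :
    (WW f a) ^ 2 = 0 ∨ (WW f a) ^ 2 = 2 ^ n * (Nat.card (radf f hf) : ℤ) := by
  rw [WW_sq f hf, sum_sg, Nat.card_eq_fintype_card]
  split_ifs
  · right; rfl
  · left; rw [mul_zero]

lemma WW_ne (f : V n → ZMod 2) : ∃ a, WW f a ≠ 0 := by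
  by_contra hcon
  push Not at hcon
  have h1 : ∑ a : V n, WW f a = 2 ^ n * sg (f 0) := by
    unfold WW
    rw [sum_comm]
    have h2 : ∀ x : V n, ∑ a : V n, sg (f x + dot a x) = if x = 0 then 2 ^ n * sg (f 0) else 0 := by
      intro x
      simp only [sg_add]
      rw [← mul_sum, sum_sg_dot]
      split_ifs with h
      · rw [h]; ring
      · ring
    simp only [h2]
    rw [sum_ite_eq' univ (0 : V n)]
    simp
  rw [sum_congr rfl (fun a _ => hcon a), sum_const_zero] at h1
  have h3 : sg (f 0) = 1 ∨ sg (f 0) = -1 := by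
    unfold sg
    split_ifs
    · left; rfl
    · right; rfl
  have h4 : (2 : ℤ) ^ n ≠ 0 := by positivity
  rcases h3 with h | h
  · rw [h, mul_one] at h1; exact h4 h1.symm
  · rw [h] at h1
    apply h4
    linarith

lemma WW_exists (f : V n → ZMod 2) (hf : DegLeTwo f) :
    ∃ a, WW f a ≠ 0 ∧ (WW f a) ^ 2 = 2 ^ n * (Nat.card (radf f hf) : ℤ) := by
  obtain ⟨a, ha⟩ := WW_ne f
  rcases WW_cases f hf a with h | h
  · exact absurd (pow_eq_zero_iff (two_ne_zero)|>.mp h) ha
  · exact ⟨a, ha, h⟩

/-- `n` odd: the radical is not trivial -/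
lemma rad_ge_two (hn : Odd n) (f : V n → ZMod 2) (hf : DegLeTwo f) :
    2 ≤ Nat.card {a : V n // ∀ b, pol f a b = 0} := by
  change 2 ≤ Nat.card (radf f hf)
  have hpos : 0 < Nat.card (radf f hf) := Nat.card_pos
  by_contra hlt
  have h1 : Nat.card (radf f hf) = 1 := by omega
  obtain ⟨a, ha, h⟩ := WW_exists f hf
  rw [h1, Nat.cast_one, mul_one] at h
  have h2 : (WW f a).natAbs ^ 2 = 2 ^ n := by
    have := congrArg Int.natAbs h
    rw [Int.natAbs_pow, Int.natAbs_pow] at this
    exact this
  have h3 : (WW f a).natAbs ≠ 0 := Int.natAbs_ne_zero.mpr ha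
  have h4 := congrArg (padicValNat 2) h2
  rw [padicValNat.pow, padicValNat.prime_pow] at h4
  obtain ⟨k, hk⟩ := hn
  omega

/-- components of almost bent functions -/
lemma rad_eq_two_of_AB (hn : Odd n) (f : V n → ZMod 2) (hf : DegLeTwo f)
    (h : ∀ a, WW f a = 0 ∨ WW f a = 2 ^ ((n + 1) / 2) ∨ WW f a = - 2 ^ ((n + 1) / 2)) :
    Nat.card {a : V n // ∀ b, pol f a b = 0} = 2 := by
  change Nat.card (radf f hf) = 2
  obtain ⟨a, ha, h1⟩ := WW_exists f hf
  have h2 : (WW f a) ^ 2 = 2 ^ (n + 1) := by
    have e : ((2 : ℤ) ^ ((n + 1) / 2)) ^ 2 = 2 ^ (n + 1) := by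
      rw [← pow_mul]
      congr 1
      obtain ⟨k, hk⟩ := hn
      omega
    rcases h a with h | h | h
    · exact absurd h ha
    · rw [h, e]
    · rw [h, neg_sq, e]
  rw [h2, pow_succ] at h1
  have h3 : (2 : ℤ) = (Nat.card (radf f hf) : ℤ) :=
    mul_left_cancel₀ (by positivity : (2 : ℤ) ^ n ≠ 0) h1
  exact_mod_cast h3.symm

/-- all radicals have order two -/
lemma rad_two {V H : Type} [AddCommGroup V] [AddCommGroup H] [Fintype V] [Fintype H]
    [DecidableEq V] [DecidableEq H] (β : H →+ V →+ V →+ ZMod 2)
    (hcard : Fintype.card V = Fintype.card H)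
    (hN : ∀ a : V, a ≠ 0 → (NN β a).card ≤ 2)
    (hrad : ∀ v : H, v ≠ 0 → 2 ≤ (univ.filter fun a : V => ∀ b, β v a b = 0).card)
    (v₀ : H) (hv₀ : v₀ ≠ 0) : (univ.filter fun a : V => ∀ b, β v₀ a b = 0).card = 2 := by
  have hM : ∀ a, (NN β a).card = (MM β a).card := by
    intro a
    have h := nm β a
    rw [hcard, mul_comm] at h
    exact Nat.eq_of_mul_eq_mul_left Fintype.card_pos h
  have he : ∀ v : H, ((univ.erase (0 : V)).filter fun a => ∀ b, β v a b = 0)
      = (univ.filter fun a : V => ∀ b, β v a b = 0).erase 0 := by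
    intro v
    ext a; simp [and_comm]
  by_contra hne
  have h3 : 2 < (univ.filter fun a : V => ∀ b, β v₀ a b = 0).card :=
    lt_of_le_of_ne (hrad v₀ hv₀) (Ne.symm hne)
  have h1 : Fintype.card H - 1 <
      ∑ v ∈ univ.erase (0 : H), ((univ.erase (0 : V)).filter fun a => ∀ b, β v a b = 0).card := by
    calc Fintype.card H - 1 = ∑ v ∈ univ.erase (0 : H), 1 := by
          simp [Finset.card_erase_of_mem]
      _ < _ := by
        apply sum_lt_sum
        · intro v hv
          have hv0 : v ≠ 0 := (Finset.mem_erase.mp hv).1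
          have h := hrad v hv0
          rw [he, Finset.card_erase_of_mem (by simp)]
          omega
        · refine ⟨v₀, Finset.mem_erase.mpr ⟨hv₀, mem_univ _⟩, ?_⟩
          rw [he, Finset.card_erase_of_mem (by simp)]
          omega
  have h2 : ∑ v ∈ univ.erase (0 : H), ((univ.erase (0 : V)).filter fun a => ∀ b, β v a b = 0).card
      = ∑ a ∈ univ.erase (0 : V), ((univ.erase (0 : H)).filter fun v => ∀ b, β v a b = 0).card := by
    simp only [card_filter]
    rw [sum_comm]
  have h4 : ∑ a ∈ univ.erase (0 : V),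
      ((univ.erase (0 : H)).filter fun v => ∀ b, β v a b = 0).card
        ≤ ∑ a ∈ univ.erase (0 : V), 1 := by
    apply sum_le_sum
    intro a ha
    have ha0 : a ≠ 0 := (Finset.mem_erase.mp ha).1
    have he' : ((univ.erase (0 : H)).filter fun v => ∀ b, β v a b = 0) = (MM β a).erase 0 := by
      ext v; simp [MM, and_comm]
    rw [he', Finset.card_erase_of_mem (by simp [MM])]
    have := hN a ha0
    rw [hM] at this
    omega
  have h5 : ∑ a ∈ univ.erase (0 : V), 1 = Fintype.card H - 1 := by
    rw [← hcard]
    simp [Finset.card_erase_of_mem]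
  rw [h5, ← h2] at h4
  omega

/-- APN in terms of second derivatives -/
lemma apn_iff (G : V n → V n) :
    IsAPN G ↔ ∀ a b x, a ≠ 0 → DDG G a b x = 0 → b = 0 ∨ b = a := by
  classical
  constructor
  · intro hG a b x ha h
    by_contra hcon
    push Not at hcon
    obtain ⟨hb0, hba⟩ := hcon
    have h1 := hG a ha (G (x + a) + G x)
    rw [Nat.card_eq_fintype_card, Fintype.card_subtype] at h1
    have hsub : ({x, x + a, x + b} : Finset (V n)) ⊆
        univ.filter fun y => G (y + a) + G y = G (x + a) + G x := by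
      intro y hy
      simp only [mem_insert, mem_singleton] at hy
      rw [mem_filter]
      refine ⟨mem_univ _, ?_⟩
      rcases hy with rfl | rfl | rfl
      · rfl
      · rw [add_assoc, vv, add_zero, add_comm]
      · have h2 : G (x + b + a) + G (x + b) + (G (x + a) + G x) = 0 := by
          have : DDG G a b x = G (x + b + a) + G (x + b) + (G (x + a) + G x) := by
            unfold DDG
            rw [add_right_comm x a b]
            abel
          rw [← this, h]
        calc G (x + b + a) + G (x + b)
            = (G (x + b + a) + G (x + b) + (G (x + a) + G x)) + (G (x + a) + G x) := by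
              rw [add_assoc _ (G (x + a) + G x), vv, add_zero]
          _ = _ := by rw [h2, zero_add]
    have h3 := card_le_card hsub
    have h4 : ({x, x + a, x + b} : Finset (V n)).card = 3 := by
      rw [card_eq_three]
      refine ⟨x, x + a, x + b, ?_, ?_, ?_, rfl⟩
      · intro e; exact ha (by simpa using e.symm)
      · intro e; exact hb0 (by simpa using e.symm)
      · intro e; exact hba (add_left_cancel e).symm
    omega
  · intro h a ha c
    rw [Nat.card_eq_fintype_card, Fintype.card_subtype]
    by_cases hne : (univ.filter fun y => G (y + a) + G y = c).Nonempty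
    · obtain ⟨x, hx⟩ := hne
      have hx' := (mem_filter.mp hx).2
      have hsub : (univ.filter fun y => G (y + a) + G y = c) ⊆ ({x, x + a} : Finset (V n)) := by
        intro y hy
        have hy' := (mem_filter.mp hy).2
        have e : y = x + (x + y) := by rw [← add_assoc, vv, zero_add]
        have h1 : DDG G a (x + y) x = 0 := by
          unfold DDG
          rw [← e, add_right_comm x a, ← e]
          calc G (y + a) + G (x + a) + (G y + G x) = (G (y + a) + G y) + (G (x + a) + G x) := by abel
            _ = 0 := by rw [hx', hy', vv]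
        rw [mem_insert, mem_singleton]
        rcases h a (x + y) x ha h1 with h2 | h2
        · left; rw [e, h2, add_zero]
        · right; rw [e, h2]
      exact (card_le_card hsub).trans card_le_two
    · rw [not_nonempty_iff_eq_empty] at hne
      rw [hne]; simp

/-- quadratic APN functions, `n` odd: all radicals have order two -/
lemma rad_eq_two_of_APN (hn : Odd n) (F : V n → V n) (hF : IsAPN F)
    (hq : ∀ v, DegLeTwo (comp v F)) (v : V n) (hv : v ≠ 0) :
    Nat.card {a : V n // ∀ b, pol (comp v F) a b = 0} = 2 := by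
  classical
  have hq' : ∀ v, dot v (0 : V n) = 0 → DegLeTwo (comp v F) := fun v _ => hq v
  have hcard : Fintype.card (V n) = Fintype.card (hyp (0 : V n)) := by
    rw [← Nat.card_eq_fintype_card, ← Nat.card_eq_fintype_card]
    exact (Nat.card_congr (Equiv.subtypeUnivEquiv (fun x => dot_zero_right x))).symm
  have h := rad_two (V := V n) (H := hyp (0 : V n)) (fam F 0 hq') hcard
    (by
      intro a ha
      have hsub : NN (fam F 0 hq') a ⊆ ({0, a} : Finset (V n)) := by
        intro b hb
        have hb' := (mem_filter.mp hb).2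
        have h1 : DDG F a b 0 = 0 := by
          apply dot_all_zero
          intro v
          rw [dot_DDG]
          exact hb' ⟨v, dot_zero_right v⟩
        rw [mem_insert, mem_singleton]
        exact (apn_iff F).mp hF a b 0 ha h1
      exact (card_le_card hsub).trans card_le_two)
    (by
      intro v hv
      have := rad_ge_two hn (comp (v : V n) F) (hq v)
      rw [Nat.card_eq_fintype_card, Fintype.card_subtype] at this
      exact this)
    ⟨v, dot_zero_right v⟩ (fun h => hv (congrArg Subtype.val h))
  rw [Nat.card_eq_fintype_card, Fintype.card_subtype]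
  exact h

end Pool.Agent.Lib.AbHyp8
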