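import Pool.Agent.Lib.AbHyp8.Count
import Pool.Agent.Lib.AbHyp8.Quad

set_option autoImplicit false

namespace Pool.Agent.Lib.AbHyp8

open Finset

variable {n : ℕ}

/-- on the planes of `G` the second derivatives of all components are constant -/
lemma hf_of_apn (G : V n → V n) (hG : IsAPN G) (w : V n) (hw : w ≠ 0)
    (hq : ∀ v, dot v w = 0 → DegLeTwo (comp v G)) (v₀ : V n) :
    ∀ a b, (∀ v, dot v w = 0 → pol (comp v G) a b = 0) →
      ∀ x, D a (D b (comp v₀ G)) x = D a (D b (comp v₀ G)) 0 := by
  intro a b hab x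
  by_cases ha : a = 0
  · rw [ha, D_zero, D_zero]
  by_cases hb : b = 0
  · rw [hb, D_comm, D_zero, D_zero]
  by_cases hba : b = a
  · rw [hba, D_self, D_self]
  have h : ∀ x, DDG G a b x = w := by
    intro x
    rcases DDG_cases G w hw hq a b hab x with h | h
    · rcases (apn_iff G).mp hG a b x ha h with h | h
      · exact absurd h hb
      · exact absurd h hba
    · exact h
  rw [← dot_DDG, ← dot_DDG, h, h]

/-- one more component suffices -/
lemma all_of_one (G : V n → V n) (w : V n) (hq : ∀ v, dot v w = 0 → DegLeTwo (comp v G))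
    (v₀ : V n) (hv₀ : dot v₀ w = 1) (h : DegLeTwo (comp v₀ G)) (v : V n) :
    DegLeTwo (comp v G) := by
  rcases zmod2_cases (dot v w) with h0 | h0
  · exact hq v h0
  · have h1 : dot (v + v₀) w = 0 := by rw [dot_add_left, h0, hv₀, tt]
    have h2 : comp v G = fun x => comp (v + v₀) G x + comp v₀ G x := by
      funext x
      rw [comp_add]
      simp only
      rw [add_assoc, tt, add_zero]
    rw [h2]
    exact (hq _ h1).add h

lemma DDG_add (G : V n → V n) (g : V n → ZMod 2) (w a b x : V n) :
    DDG (fun x => G x + g x • w) a b x = DDG G a b x + (D a (D b g) x) • w := by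
  simp only [DDG, D, add_smul]
  abel

/-- functions vanishing on the planes give APN functions -/
lemma apn_of_null (G : V n → V n) (hG : IsAPN G) (w : V n)
    (hq : ∀ v, dot v w = 0 → DegLeTwo (comp v G)) (g : V n → ZMod 2)
    (hg : ∀ a b, (∀ v, dot v w = 0 → pol (comp v G) a b = 0) → ∀ x, D a (D b g) x = 0) :
    IsAPN (fun x => G x + g x • w) := by
  rw [apn_iff]
  intro a b x ha h
  rw [DDG_add] at h
  have hab : ∀ v, dot v w = 0 → pol (comp v G) a b = 0 := by
    intro v hv
    have h1 : dot v (DDG G a b x + (D a (D b g) x) • w) = 0 := by rw [h, dot_zero_right]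
    rw [dot_add_right, dot_smul_right, hv, mul_zero, add_zero, dot_DDG, pol_const (hq v hv)] at h1
    exact h1
  rw [hg a b hab x, zero_smul, add_zero] at h
  exact (apn_iff G).mp hG a b x ha h

/-- APN functions are not affine -/
lemma not_affine (hn : 2 ≤ n) (G : V n → V n) (hG : IsAPN G) :
    ∃ v a b x, D a (D b (comp v G)) x ≠ 0 := by
  by_contra hcon
  push Not at hcon
  have h : ∀ a b x, DDG G a b x = 0 := by
    intro a b x
    apply dot_all_zero
    intro v
    rw [dot_DDG]
    exact hcon v a b x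
  let e0 : V n := Pi.single (⟨0, by omega⟩ : Fin n) 1
  let e1 : V n := Pi.single (⟨1, by omega⟩ : Fin n) 1
  have h0 : e0 ≠ 0 := by
    intro h
    have := congrFun h (⟨0, by omega⟩ : Fin n)
    simp [e0] at this
  have h1 : e1 ≠ 0 := by
    intro h
    have := congrFun h (⟨1, by omega⟩ : Fin n)
    simp [e1] at this
  have h2 : e1 ≠ e0 := by
    intro h
    have := congrFun h (⟨1, by omega⟩ : Fin n)
    simp [e0, e1] at this
  rcases (apn_iff G).mp hG e0 e1 0 h0 (h _ _ _) with h | h
  · exact h1 h
  · exact h2 h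

/-- Part one: few linear forms. -/
theorem part_one (hn : Odd n) (G : V n → V n) (hG : IsAPN G) (w : V n) (hw : w ≠ 0)
    (hq : ∀ v, dot v w = 0 → DegLeTwo (comp v G)) (v₀ : V n) (hv₀ : dot v₀ w = 1)
    (S : AddSubgroup (V n)) (hS : 2 ^ n ≤ 16 * Nat.card S) (g : V n → ZMod 2)
    (hg : DegLeTwo g) (hfg : ∀ s ∈ S, ∀ x, comp v₀ G (x + s) + g (x + s) = comp v₀ G x + g x)
    (v : V n) : DegLeTwo (comp v G) := by
  apply all_of_one G w hq v₀ hv₀
  exact few_forms G hG w hw hq (fun v _ h0 => rad_ge_two hn _ (hq v h0)) (comp v₀ G)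
    (hf_of_apn G hG w hw hq v₀) S hS g hg hfg

lemma comp_shift (G : V n → V n) (f : V n → ZMod 2) (w v : V n) (hv : dot v w = 0) :
    comp v (fun x => G x + f x • w) = comp v G := by
  funext x
  simp only [comp]
  rw [dot_add_right, dot_smul_right, hv, mul_zero, add_zero]

/-- Part two: counting. -/
theorem part_two (G : V n → V n) (hG : IsAPN G) (w : V n) (hw : w ≠ 0)
    (hq : ∀ v, dot v w = 0 → DegLeTwo (comp v G))
    (hr : ∀ v, v ≠ 0 → dot v w = 0 → Nat.card {a : V n // ∀ b, pol (comp v G) a b = 0} = 2)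
    (v : V n) (hd : ¬ DegLeTwo (comp v G)) :
    2 ^ (2 * n + 5) ≤ Nat.card {g : V n → ZMod 2 // DegLeTwo g ∧ ∀ f : V n → ZMod 2,
      IsAPN (fun x => G x + f x • w) → IsAPN (fun x => G x + (f x + g x) • w)} := by
  classical
  have h := count_ge G hG w hw hq hr (comp v G) (hf_of_apn G hG w hw hq v) hd
  refine h.trans ?_
  exact Nat.card_le_card_of_injective
    (Subtype.map id (fun g hg => ⟨hg.1, fun f hf => by
      have hs : ∀ v, dot v w = 0 → comp v (fun x => G x + f x • w) = comp v G :=
        fun v hv => comp_shift G f w v hv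
      have h1 := apn_of_null (fun x => G x + f x • w) hf w
        (fun v hv => by rw [hs v hv]; exact hq v hv) g
        (fun a b hab => hg.2 a b (fun v hv => by rw [← hs v hv]; exact hab v hv))
      have h2 : (fun x => G x + (f x + g x) • w) = fun x => (G x + f x • w) + g x • w := by
        funext x
        rw [add_smul, add_assoc]
      rw [id_eq, h2]
      exact h1⟩))
    (Subtype.map_injective _ Function.injective_id)

/-- the radicals for almost bent functions -/
lemma hr_of_AB (hn : Odd n) (G : V n → V n) (hAB : IsAB G) (w : V n)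
    (hq : ∀ v, dot v w = 0 → DegLeTwo (comp v G)) :
    ∀ v, v ≠ 0 → dot v w = 0 → Nat.card {a : V n // ∀ b, pol (comp v G) a b = 0} = 2 := by
  intro v hv hvw
  exact rad_eq_two_of_AB hn _ (hq v hvw) (fun a => hAB v hv a)

/-- the radicals for switchings of quadratic APN functions -/
lemma hr_of_switch (hn : Odd n) (G F : V n → V n) (f : V n → ZMod 2) (w : V n)
    (hF : IsAPN F) (hFq : ∀ v, DegLeTwo (comp v F)) (hGF : ∀ x, G x = F x + f x • w) :
    ∀ v, v ≠ 0 → dot v w = 0 → Nat.card {a : V n // ∀ b, pol (comp v G) a b = 0} = 2 := by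
  intro v hv hvw
  have h : comp v G = comp v F := by
    have e : G = fun x => F x + f x • w := funext hGF
    rw [e]
    exact comp_shift F f w v hvw
  rw [h]
  exact rad_eq_two_of_APN hn F hF hFq v hv

end Pool.Agent.Lib.AbHyp8
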