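import Pool.Agent.Lib.AbHyp8.Coset

set_option autoImplicit false

namespace Pool.Agent.Lib.AbHyp8

open Finset

section

variable {V : Type} [AddCommGroup V] [Module (ZMod 2) V] {η : V → V → V → ZMod 2}

lemma addself (z : V) : z + z = 0 := by
  rw [← two_smul (ZMod 2) z]
  have : (2 : ZMod 2) = 0 := by decide
  rw [this, zero_smul]

/-- four cosets fill everything when the index is four -/
lemma cosets_all [Finite V] (V1 : Submodule (ZMod 2) V) (d e : V) (hd : d ∉ V1) (he : e ∉ V1)
    (hde : d + e ∉ V1) (hc : Nat.card V = 4 * Nat.card V1) (x : V) :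
    ∃ z ∈ V1, ∃ r s : ZMod 2, x = z + (r • d + s • e) := by
  let ψ : V1 × (ZMod 2 × ZMod 2) → V := fun p => (p.1 : V) + (p.2.1 • d + p.2.2 • e)
  have hψ : Function.Injective ψ := by
    rintro ⟨x, r, s⟩ ⟨y, r', s'⟩ h
    have hxx : ∀ z : V, z + z = 0 := addself
    have h' : (x : V) + (r • d + s • e) = (y : V) + (r' • d + s' • e) := h
    have hm : (r + r') • d + (s + s') • e ∈ V1 := by
      have : (r + r') • d + (s + s') • e = (x : V) + (y : V) := by
        have h2 : (x : V) + (y : V) = (x : V) + ((x : V) + (r • d + s • e) + (r' • d + s' • e)) := by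
          rw [h', add_assoc (y : V), hxx, add_zero]
        rw [h2, add_assoc (x : V), ← add_assoc (x : V), hxx, zero_add, add_smul, add_smul]
        abel
      rw [this]
      exact V1.add_mem x.2 y.2
    have hr : r + r' = 0 ∧ s + s' = 0 := by
      rcases zmod2_cases (r + r') with h1 | h1 <;> rcases zmod2_cases (s + s') with h2 | h2
      · exact ⟨h1, h2⟩
      · rw [h1, h2, zero_smul, zero_add, one_smul] at hm; exact absurd hm he
      · rw [h1, h2, zero_smul, add_zero, one_smul] at hm; exact absurd hm hd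
      · rw [h1, h2, one_smul, one_smul] at hm; exact absurd hm hde
    have e1 : r = r' := by
      have : ∀ a b : ZMod 2, a + b = 0 → a = b := by decide
      exact this _ _ hr.1
    have e2 : s = s' := by
      have : ∀ a b : ZMod 2, a + b = 0 → a = b := by decide
      exact this _ _ hr.2
    subst e1 e2
    have : (x : V) = y := add_right_cancel h'
    rw [Subtype.ext this]
  have hcard : Nat.card (V1 × (ZMod 2 × ZMod 2)) = Nat.card V := by
    rw [Nat.card_prod, Nat.card_prod, Nat.card_zmod, hc]; ring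
  have hb := (Nat.bijective_iff_injective_and_card ψ).mpr ⟨hψ, hcard⟩
  obtain ⟨⟨z, r, s⟩, hz⟩ := hb.2 x
  exact ⟨z, z.2, r, s, hz.symm⟩

/-- null pairs of the form with one decomposable value -/
lemma null3' (T : Tri η) (a b c : V) (h1 : η a b c = 1) (x y : V)
    (hx : ∃ z ∈ rad3 T, ∃ r s t : ZMod 2, x = z + (r • a + (s • b + t • c)))
    (hy : ∃ z ∈ rad3 T, ∃ r s t : ZMod 2, y = z + (r • a + (s • b + t • c)))
    (h0a : η x y a = 0) (h0b : η x y b = 0) (h0c : η x y c = 0) :
    x ∈ rad3 T ∨ y ∈ rad3 T ∨ x + y ∈ rad3 T := by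
  obtain ⟨z, hz, r, s, t, rfl⟩ := hx
  obtain ⟨z', hz', r', s', t', rfl⟩ := hy
  have hz1 : ∀ p q, η z p q = 0 := (mem_rad3 T z).mp hz
  have hz2 : ∀ p q, η p z' q = 0 := fun p q => by rw [T.s1]; exact (mem_rad3 T z').mp hz' p q
  have hbac : η b a c = 1 := by rw [T.s1]; exact h1
  have hacb : η a c b = 1 := by rw [T.s2]; exact h1
  have hbca : η b c a = 1 := by rw [T.s2]; exact hbac
  have hcab : η c a b = 1 := by rw [T.s1]; exact hacb
  have hcba : η c b a = 1 := by rw [T.s2]; exact hcab
  have key : ∀ w, η (z + (r • a + (s • b + t • c))) (z' + (r' • a + (s' • b + t' • c))) w = 0 →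
      η (r • a + (s • b + t • c)) (r' • a + (s' • b + t' • c)) w = 0 := by
    intro w this
    rw [T.add, hz1, zero_add, T.add2, hz2, zero_add] at this
    exact this
  have ka := key a h0a
  have kb := key b h0b
  have kc := key c h0c
  simp only [T.add, T.add2, T.smul1, T.smul2, T.alt, T.alt2, T.alt3, hbca, hcba, hacb, hcab,
    h1, hbac, mul_zero, mul_one, add_zero, zero_add] at ka kb kc
  have dec : ∀ r s t r' s' t' : ZMod 2, s * t' + t * s' = 0 →
      (r * t' + t * r') = 0 → (r * s' + s * r') = 0 →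
      (r = 0 ∧ s = 0 ∧ t = 0) ∨ (r' = 0 ∧ s' = 0 ∧ t' = 0) ∨
        (r + r' = 0 ∧ s + s' = 0 ∧ t + t' = 0) := by decide
  rcases dec r s t r' s' t' ka kb kc with ⟨h2, h3, h4⟩ | ⟨h2, h3, h4⟩ | ⟨h2, h3, h4⟩
  · left; subst h2 h3 h4; simpa using hz
  · right; left; subst h2 h3 h4; simpa using hz'
  · right; right
    have e : z + (r • a + (s • b + t • c)) + (z' + (r' • a + (s' • b + t' • c)))
        = (z + z') + ((r + r') • a + ((s + s') • b + (t + t') • c)) := by
      rw [add_smul, add_smul, add_smul]; abel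
    rw [e, h2, h3, h4]
    simpa using (rad3 T).add_mem hz hz'

/-- correcting a vector -/
lemma correct (T : Tri η) (a b c : V) (h1 : η a b c = 1)
    (V1 : Submodule (ZMod 2) V) (ha : a ∈ V1) (hb : b ∈ V1) (hc : c ∈ V1)
    (hgen : ∀ x ∈ V1, ∃ z ∈ rad3 T, ∃ r s t : ZMod 2, x = z + (r • a + (s • b + t • c)))
    (d : V) : ∃ e, e + d ∈ V1 ∧ ∀ x ∈ V1, ∀ y ∈ V1, η e x y = 0 := by
  have t2 : ∀ q : ZMod 2, q + q = 0 := by decide
  have hbac : η b a c = 1 := by rw [T.s1]; exact h1
  have hacb : η a c b = 1 := by rw [T.s2]; exact h1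
  have hcab : η c a b = 1 := by rw [T.s1]; exact hacb
  obtain ⟨e, he⟩ : ∃ e, e = d + (η d b c • a + (η d a c • b + η d a b • c)) := ⟨_, rfl⟩
  have hed : e + d ∈ V1 := by
    have : e + d = η d b c • a + (η d a c • b + η d a b • c) := by
      rw [he, add_comm d, add_assoc, addself, add_zero]
    rw [this]
    exact V1.add_mem (V1.smul_mem _ ha) (V1.add_mem (V1.smul_mem _ hb) (V1.smul_mem _ hc))
  refine ⟨e, hed, ?_⟩
  have e1 : η e b c = 0 := by
    rw [he, T.add, T.add, T.add, T.smul1, T.smul1, T.smul1, h1, T.alt, T.alt3, mul_one, mul_zero,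
      mul_zero, add_zero, add_zero, t2]
  have e2 : η e a c = 0 := by
    rw [he, T.add, T.add, T.add, T.smul1, T.smul1, T.smul1, hbac, T.alt, T.alt3, mul_one,
      mul_zero, mul_zero, add_zero, zero_add, t2]
  have e3 : η e a b = 0 := by
    rw [he, T.add, T.add, T.add, T.smul1, T.smul1, T.smul1, hcab, T.alt, T.alt3, mul_one,
      mul_zero, mul_zero, zero_add, zero_add, t2]
  have e1' : η e c b = 0 := by rw [T.s2]; exact e1
  have e2' : η e c a = 0 := by rw [T.s2]; exact e2
  have e3' : η e b a = 0 := by rw [T.s2]; exact e3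
  intro x hx y hy
  obtain ⟨z, hz, r, s, t, rfl⟩ := hgen x hx
  obtain ⟨z', hz', r', s', t', rfl⟩ := hgen y hy
  have hz2 : ∀ p q, η p z q = 0 := fun p q => by rw [T.s1]; exact (mem_rad3 T z).mp hz p q
  have hz3 : ∀ p q, η p q z' = 0 := fun p q => by
    rw [T.s2, T.s1]; exact (mem_rad3 T z').mp hz' p q
  simp only [T.add2, T.add3, T.smul2, T.smul3, T.alt2, hz2, hz3, e1, e2, e3, e1',
    e2', e3', mul_zero, add_zero]

/-- Alternating trilinear forms whose radical has index 32: there is a functional `lam` such that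
a null pair `(x, y)` with `lam x = 1`, `lam y = 0` has `y` in the radical. -/
theorem five [Finite V] (T : Tri η) (h32 : Nat.card V = 32 * Nat.card (rad3 T))
    (hη1 : ∃ a b c, η a b c ≠ 0) :
    ∃ d e : V, (∃ x, η d e x ≠ 0) ∧
      ∀ x y, (∀ z, η x y z = 0) → η d e x = 1 → η d e y = 0 → y ∈ rad3 T := by
  obtain ⟨a, b, c, habc⟩ := hη1
  have h1 := zmod2_ne _ habc
  obtain ⟨V1, hcard, hle, ha, hb, hc, hgen⟩ := three_gen T a b c h1
  have hpos : 0 < Nat.card (rad3 T) := Nat.card_pos
  have htop : ∃ d, d ∉ V1 := by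
    by_contra hcon
    push Not at hcon
    have h2 : Nat.card V1 = Nat.card V :=
      Nat.card_congr (Equiv.subtypeUnivEquiv (fun x => hcon x))
    omega
  obtain ⟨d0, hd0⟩ := htop
  have hnall : ¬ ∀ x, x ∈ V1 ∨ x + d0 ∈ V1 := fun h =>
    (four_gen T a b c h1 V1 hle ha hb hc hgen d0 hd0 h).elim
  push Not at hnall
  obtain ⟨e0, he0, hed0⟩ := hnall
  obtain ⟨d, hdd, hd2⟩ := correct T a b c h1 V1 ha hb hc hgen d0
  obtain ⟨e, hee, he2⟩ := correct T a b c h1 V1 ha hb hc hgen e0
  have hd : d ∉ V1 := by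
    intro h; apply hd0
    have : d0 = d + (d + d0) := by rw [← add_assoc, addself, zero_add]
    rw [this]; exact V1.add_mem h hdd
  have he : e ∉ V1 := by
    intro h; apply he0
    have : e0 = e + (e + e0) := by rw [← add_assoc, addself, zero_add]
    rw [this]; exact V1.add_mem h hee
  have hde : d + e ∉ V1 := by
    intro h; apply hed0
    have : e0 + d0 = (d + e) + ((d + d0) + (e + e0)) := by
      calc e0 + d0 = (d + d) + (e + e) + (e0 + d0) := by
            rw [addself, addself, zero_add, zero_add]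
        _ = _ := by abel
    rw [this]; exact V1.add_mem h (V1.add_mem hdd hee)
  have hall := cosets_all V1 d e hd he hde (by omega)
  -- values with `d` and `e`
  have hsym : ∀ x y z, η x y z = η y z x := fun x y z => by rw [T.s1, T.s2]
  refine ⟨d, e, ?_, ?_⟩
  · by_contra hcon
    push Not at hcon
    apply hd
    apply hle
    rw [mem_rad3]
    intro p q
    obtain ⟨p', hp', r, s, rfl⟩ := hall p
    obtain ⟨q', hq', r', s', rfl⟩ := hall q
    have c1 : ∀ x, η d x e = 0 := fun x => by rw [T.s2]; exact hcon x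
    simp only [T.add2, T.add3, T.smul2, T.smul3, T.alt, T.alt2, T.alt3, hcon, c1,
      hd2 p' hp' q' hq', mul_zero, add_zero]
  · intro x y h0 hx hy
    obtain ⟨x', hx', r, s, rfl⟩ := hall x
    obtain ⟨y', hy', r', s', rfl⟩ := hall y
    have kx : η d e x' = 1 := by
      have := hx
      rw [T.add3, T.add3, T.smul3, T.smul3, T.alt3, T.alt2, mul_zero, mul_zero, add_zero,
        add_zero] at this
      exact this
    have ky : η d e y' = 0 := by
      have := hy
      rw [T.add3, T.add3, T.smul3, T.smul3, T.alt3, T.alt2, mul_zero, mul_zero, add_zero,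
        add_zero] at this
      exact this
    have x'y'd : η x' y' d = 0 := by
      rw [← hsym]; exact hd2 x' hx' y' hy'
    have x'y'e : η x' y' e = 0 := by
      rw [← hsym]; exact he2 x' hx' y' hy'
    have x'ed : η x' e d = 1 := by rw [hsym, T.s1]; exact kx
    have x'de : η x' d e = 1 := by rw [hsym]; exact kx
    have dy'e : η d y' e = 0 := by rw [T.s2]; exact ky
    have ey'd : η e y' d = 0 := by rw [← hsym]; exact ky
    have k1 := h0 d
    have k2 := h0 e
    simp only [T.add, T.add2, T.smul1, T.smul2, T.alt, T.alt2, T.alt3, x'y'd, x'ed, ey'd,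
      mul_zero, mul_one, add_zero, zero_add] at k1
    simp only [T.add, T.add2, T.smul1, T.smul2, T.alt, T.alt2, T.alt3, x'y'e, x'de, dy'e,
      mul_zero, mul_one, add_zero, zero_add] at k2
    subst k1
    subst k2
    simp only [zero_smul, add_zero] at h0 hy ⊢
    -- now `y = y'` lies in `V1`
    have k3 : ∀ z ∈ V1, η x' y' z = 0 := by
      intro z hz
      have h := h0 z
      have hdz : η d y' z = 0 := hd2 y' hy' z hz
      have hez : η e y' z = 0 := he2 y' hy' z hz
      rw [T.add, T.add, T.smul1, T.smul1, hdz, hez, mul_zero, mul_zero, add_zero, add_zero] at h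
      exact h
    rcases null3' T a b c h1 x' y' (hgen x' hx') (hgen y' hy') (k3 a ha) (k3 b hb) (k3 c hc) with
      h | h | h
    · exfalso
      rw [mem_rad3] at h
      rw [hsym, hsym] at kx
      rw [h] at kx
      exact absurd kx (by decide)
    · exact h
    · exfalso
      rw [mem_rad3] at h
      have h2 := h d e
      have y'de : η y' d e = 0 := by rw [hsym]; exact ky
      rw [T.add, x'de, y'de] at h2
      exact absurd h2 (by decide)

end

end Pool.Agent.Lib.AbHyp8
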