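import Pool.Agent.Lib.AbHyp8.Ineq

set_option autoImplicit false

namespace Pool.Agent.Lib.AbHyp8

open Finset

variable {n : ℕ}

/-- half of a subgroup -/
lemma half (S : AddSubgroup (V n)) (φ : V n →+ ZMod 2) (p : V n) (hp : p ∈ S) (h1 : φ p = 1) :
    2 * Nat.card (S ⊓ φ.ker : AddSubgroup (V n)) = Nat.card S := by
  classical
  have h := sum_sg (A := S) (φ.comp S.subtype)
  rw [if_neg (by
    intro h0
    have := h0 ⟨p, hp⟩
    change φ p = 0 at this
    rw [h1] at this
    exact absurd this (by decide))] at h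
  have h2 : ∀ s : S, sg ((φ.comp S.subtype) s) = 2 * (if φ (s : V n) = 0 then (1 : ℤ) else 0) - 1 := by
    intro s
    change sg (φ (s : V n)) = _
    unfold sg
    split_ifs <;> norm_num
  simp only [h2] at h
  rw [sum_sub_distrib, ← mul_sum, sum_boole, sum_const, nsmul_eq_mul, mul_one, card_univ] at h
  have h3 : (univ.filter fun s : S => φ (s : V n) = 0).card
      = Nat.card (S ⊓ φ.ker : AddSubgroup (V n)) := by
    rw [Nat.card_eq_fintype_card, ← Fintype.card_subtype]
    apply Fintype.card_congr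
    exact ⟨fun x => ⟨(x.1 : V n), x.1.2, x.2⟩, fun x => ⟨⟨x.1, x.2.1⟩, x.2.2⟩,
      fun x => rfl, fun x => rfl⟩
  rw [h3] at h
  rw [Nat.card_eq_fintype_card (α := S)]
  have : (2 : ℤ) * Nat.card (S ⊓ φ.ker : AddSubgroup (V n)) = Fintype.card S := by linarith
  exact_mod_cast this

/-- representation of functionals -/
lemma dot_repr (φ : V n →+ ZMod 2) : ∃ l : V n, ∀ x, φ x = dot l x := by
  refine ⟨fun i => φ (Pi.single i 1), ?_⟩
  intro x
  have h : φ + dotHom' (fun i => φ (Pi.single i 1)) = 0 := by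
    apply hom_zero
    intro i
    change φ (Pi.single i 1) + dot (fun i => φ (Pi.single i 1)) (Pi.single i 1) = 0
    rw [dot_comm, dot_single, one_mul, tt]
  have h1 : φ x + dot (fun i => φ (Pi.single i 1)) x = 0 := by
    have := congrArg (fun ψ : V n →+ ZMod 2 => ψ x) h
    exact this
  have : ∀ a b : ZMod 2, a + b = 0 → a = b := by decide
  exact this _ _ h1

lemma exists_dot_one (k : V n) (hk : k ≠ 0) : ∃ c, dot k c = 1 := by
  by_contra hcon
  push Not at hcon
  apply hk
  apply dot_all_zero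
  intro v
  rw [dot_comm]
  rcases zmod2_cases (dot k v) with h | h
  · exact h
  · exact absurd h (hcon v)

/-- a form vanishing on a hyperplane is a wedge -/
lemma wedge_of_zero (δ : V n →+ V n →+ ZMod 2) (hs : ∀ a b, δ a b = δ b a) (ha : ∀ a, δ a a = 0)
    (k : V n) (hk : k ≠ 0) (h0 : ∀ a b, dot k a = 0 → dot k b = 0 → δ a b = 0) :
    ∃ l, ∀ a b, δ a b = wedge k l a b := by
  obtain ⟨c, hc⟩ := exists_dot_one k hk
  obtain ⟨l, hl⟩ := dot_repr (δ c)
  refine ⟨l, ?_⟩
  intro a b
  have key : ∀ x, ∃ x', dot k x' = 0 ∧ x = x' + dot k x • c := by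
    intro x
    refine ⟨x + dot k x • c, ?_, ?_⟩
    · rw [dot_add_right, dot_smul_right, hc, mul_one, tt]
    · rw [add_assoc, vv, add_zero]
  obtain ⟨a', ha', haa⟩ := key a
  obtain ⟨b', hb', hbb⟩ := key b
  rw [wedge_apply, ← hl, ← hl]
  obtain ⟨r, hr⟩ : ∃ r, r = dot k a := ⟨_, rfl⟩
  obtain ⟨s, hs'⟩ : ∃ s, s = dot k b := ⟨_, rfl⟩
  rw [← hr, ← hs']
  rw [← hr] at haa
  rw [← hs'] at hbb
  rw [haa, hbb]
  have e0 := h0 a' b' ha' hb'
  have e1 := hs a' c
  have e2 := ha c
  rcases zmod2_cases r with h1 | h1 <;> rcases zmod2_cases s with h2 | h2 <;>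
    simp only [h1, h2, zero_smul, one_smul, add_zero, map_add, AddMonoidHom.add_apply, e0, e1,
      e2, zero_mul, one_mul, zero_add]

section

variable {H : Type} [AddCommGroup H] [Fintype H] {β : H →+ V n →+ V n →+ ZMod 2}

/-- the hyperplane `ker k` -/
def KK (k : V n) : AddSubgroup (V n) := (dotHom' k).ker

lemma mem_KK (k x : V n) : x ∈ KK k ↔ dot k x = 0 := Iff.rfl

lemma card_KK (k : V n) (hk : k ≠ 0) : 2 * Nat.card (KK k) = 2 ^ n := by
  obtain ⟨c, hc⟩ := exists_dot_one k hk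
  have h := half (⊤ : AddSubgroup (V n)) (dotHom' k) c (AddSubgroup.mem_top c) hc
  rw [top_inf_eq, AddSubgroup.card_top, Nat.card_eq_fintype_card (α := V n), card_V] at h
  exact h

/-- a nonzero form on a hyperplane, vanishing on at least `2^(n-3)` planes, has small radical -/
lemma small_rad (F : Fam β) (k : V n) (hk : k ≠ 0) (ht : 2 ^ n ≤ 8 * (SS β k).card)
    (δ : V n →+ V n →+ ZMod 2) (hs : ∀ a b, δ a b = δ b a) (ha : ∀ a, δ a a = 0)
    (hT : ∀ T ∈ TT β, ∀ a ∈ T, ∀ b ∈ T, δ a b = 0)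
    (hne : ∃ a ∈ KK k, ∃ b ∈ KK k, δ a b ≠ 0) (R : AddSubgroup (V n)) (hR : R ≤ KK k)
    (hRr : ∀ a ∈ R, ∀ b ∈ KK k, δ a b = 0) : 32 * Nat.card R ≤ 2 ^ n := by
  classical
  obtain ⟨p, hp, q, hq, hpq⟩ := hne
  have hpq1 := zmod2_ne _ hpq
  have hK := card_KK k hk
  have h1 := half (KK k) (δ q) p hp (by rw [hs]; exact hpq1)
  have h2 := half (KK k ⊓ (δ q).ker) (δ p) q ⟨hq, ha q⟩ hpq1
  obtain ⟨K', hK'⟩ : ∃ K' : AddSubgroup (V n), K' = KK k ⊓ (δ q).ker ⊓ (δ p).ker := ⟨_, rfl⟩
  rw [← hK'] at h2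
  have hmem : ∀ x, x ∈ K' ↔ (x ∈ KK k ∧ δ q x = 0) ∧ δ p x = 0 := by
    intro x; rw [hK']; exact Iff.rfl
  by_cases h0 : ∀ a ∈ K', ∀ b ∈ K', δ a b = 0
  · -- every plane inside the hyperplane meets `K'`
    exfalso
    have hmeet : ∀ T ∈ SS β k, ∃ x ∈ T, x ≠ 0 ∧ x ∈ K' := by
      intro T hT'
      rw [mem_SS] at hT'
      have hq' := pp_spec F hT'.1
      obtain ⟨a, b, hab⟩ : ∃ a b, IsPl T a b := ⟨_, _, hq'⟩
      have haK : a ∈ KK k := hT'.2 a hab.left
      have hbK : b ∈ KK k := hT'.2 b hab.right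
      have hd := hT T hT'.1 a hab.left b hab.right
      have hab0 : a + b ≠ 0 := fun h => hab.2.2.1 (eq_of_add_zero _ _ h)
      by_contra hcon
      push Not at hcon
      have c1 := hcon a hab.left hab.1
      have c2 := hcon b hab.right hab.2.1
      have c3 := hcon (a + b) (T.add_mem hab.left hab.right) hab0
      rw [hmem] at c1 c2 c3
      -- coordinates
      have a1 : ¬ (δ q a = 0 ∧ δ p a = 0) := fun h => c1 ⟨⟨haK, h.1⟩, h.2⟩
      have b1 : ¬ (δ q b = 0 ∧ δ p b = 0) := fun h => c2 ⟨⟨hbK, h.1⟩, h.2⟩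
      have ab1 : ¬ (δ q a + δ q b = 0 ∧ δ p a + δ p b = 0) := fun h =>
        c3 ⟨⟨(KK k).add_mem haK hbK, by rw [map_add]; exact h.1⟩, by rw [map_add]; exact h.2⟩
      have dec : ∀ s t s' t' : ZMod 2, ¬ (s = 0 ∧ t = 0) → ¬ (s' = 0 ∧ t' = 0) →
          ¬ (s + s' = 0 ∧ t + t' = 0) → s * t' + s' * t = 1 := by decide
      have e := dec _ _ _ _ a1 b1 ab1
      -- decomposition `x = x' + (δ q x) p + (δ p x) q`
      have hdec : ∀ x ∈ KK k, x + δ q x • p + δ p x • q ∈ K' := by
        intro x hx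
        have s1 : ∀ t : ZMod 2, ∀ y ∈ KK k, t • y ∈ KK k := by
          intro t y hy
          rw [mem_KK, dot_smul_right, (mem_KK k y).mp hy, mul_zero]
        have s2 : ∀ (t : ZMod 2) (z y : V n), δ z (t • y) = t * δ z y := by
          intro t z y
          rcases zmod2_cases t with rfl | rfl
          · rw [zero_smul, map_zero, zero_mul]
          · rw [one_smul, one_mul]
        rw [hmem]
        refine ⟨⟨(KK k).add_mem ((KK k).add_mem hx (s1 _ _ hp)) (s1 _ _ hq), ?_⟩, ?_⟩
        · rw [map_add, map_add, s2, s2, ha q, hs q p, hpq1, mul_one, mul_zero, add_zero, tt]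
        · rw [map_add, map_add, s2, s2, ha p, hpq1, mul_one, mul_zero, add_zero, tt]
      have h5 := h0 _ (hdec a haK) _ (hdec b hbK)
      have s2 : ∀ (t : ZMod 2) (z y : V n), δ z (t • y) = t * δ z y := by
        intro t z y
        rcases zmod2_cases t with rfl | rfl
        · rw [zero_smul, map_zero, zero_mul]
        · rw [one_smul, one_mul]
      have s3 : ∀ (t : ZMod 2) (z y : V n), δ (t • z) y = t * δ z y := by
        intro t z y
        rcases zmod2_cases t with rfl | rfl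
        · rw [zero_smul, map_zero, AddMonoidHom.zero_apply, zero_mul]
        · rw [one_smul, one_mul]
      simp only [map_add, AddMonoidHom.add_apply, s2, s3, hd, ha p, ha q, hs q p, hpq1,
        hs a p, hs a q] at h5
      rw [← e] at hpq1
      generalize δ q a = x1 at *
      generalize δ p a = x2 at *
      generalize δ q b = x3 at *
      generalize δ p b = x4 at *
      revert h5 e
      clear * -
      revert x1 x2 x3 x4
      decide
    have hle : (SS β k).card ≤ ((univ.filter fun x : V n => x ∈ K').erase 0).card := by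
      have hch : ∀ T : AddSubgroup (V n), ∃ x : V n, T ∈ SS β k → x ∈ T ∧ x ≠ 0 ∧ x ∈ K' := by
        intro T
        by_cases hT' : T ∈ SS β k
        · obtain ⟨x, h1, h2, h3⟩ := hmeet T hT'
          exact ⟨x, fun _ => ⟨h1, h2, h3⟩⟩
        · exact ⟨0, fun h => absurd h hT'⟩
      choose g hg using hch
      apply card_le_card_of_injOn g
      · intro T hT'
        have := hg T hT'
        rw [mem_coe, mem_erase, mem_filter]
        exact ⟨this.2.1, mem_univ _, this.2.2⟩
      · intro T hT' T' hT'' h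
        have h1 := hg T hT'
        have h2 := hg T' hT''
        rw [← h] at h2
        exact TT_disj F ((mem_SS k T).mp hT').1 ((mem_SS k T').mp hT'').1 h1.1 h2.1 h1.2.1
    rw [card_erase_of_mem (by simp [K'.zero_mem])] at hle
    have h6 : Nat.card K' = (univ.filter fun y : V n => y ∈ K').card := by
      rw [Nat.card_eq_fintype_card, Fintype.card_subtype]
    have h7 : 0 < Nat.card K' := Nat.card_pos
    omega
  · push Not at h0
    obtain ⟨p', hp', q', hq', hpq'⟩ := h0
    have hpq1' := zmod2_ne _ hpq'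
    have h3 := half K' (δ q') p' hp' (by rw [hs]; exact hpq1')
    have h4 := half (K' ⊓ (δ q').ker) (δ p') q' ⟨hq', ha q'⟩ hpq1'
    have hle : R ≤ K' ⊓ (δ q').ker ⊓ (δ p').ker := by
      intro x hx
      have hp'K := ((hmem p').mp hp').1.1
      have hq'K := ((hmem q').mp hq').1.1
      refine ⟨⟨(hmem x).mpr ⟨⟨hR hx, ?_⟩, ?_⟩, ?_⟩, ?_⟩
      · rw [hs]; exact hRr x hx q hq
      · rw [hs]; exact hRr x hx p hp
      · change δ q' x = 0
        rw [hs]; exact hRr x hx q' hq'K
      · change δ p' x = 0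
        rw [hs]; exact hRr x hx p' hp'K
    have h5 : Nat.card R ≤ Nat.card (K' ⊓ (δ q').ker ⊓ (δ p').ker : AddSubgroup (V n)) :=
      Nat.card_le_card_of_injective (Subtype.map id (fun l hl => hle hl))
        (Subtype.map_injective _ Function.injective_id)
    omega

end

end Pool.Agent.Lib.AbHyp8
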