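import Pool.Agent.Lib.AbHyp8.Sidon

set_option autoImplicit false

namespace Pool.Agent.Lib.AbHyp8

open Finset

variable {n : ℕ}

lemma alt_symm (γ : altG n) (a b : V n) :
    (γ : V n →+ V n →+ ZMod 2) a b = (γ : V n →+ V n →+ ZMod 2) b a := by
  have h : (γ : V n →+ V n →+ ZMod 2) (a + b) (a + b) = 0 := γ.2 (a + b)
  have ha : (γ : V n →+ V n →+ ZMod 2) a a = 0 := γ.2 a
  have hb : (γ : V n →+ V n →+ ZMod 2) b b = 0 := γ.2 b
  simp only [map_add, AddMonoidHom.add_apply, ha, hb] at h
  have : ∀ p q : ZMod 2, 0 + p + (q + 0) = 0 → p = q := by decide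
  first
    | exact this _ _ h
    | exact (this _ _ h).symm

lemma hom_zero {A : Type} [AddCommGroup A] (φ : V n →+ A) (h : ∀ i, φ (Pi.single i 1) = 0) :
    φ = 0 := by
  apply AddMonoidHom.functions_ext
  intro i x
  rcases zmod2_cases x with rfl | rfl
  · rw [Pi.single_zero, map_zero, map_zero]
  · rw [h i]; rfl

/-- coordinates of alternating forms -/
def altCoord (n : ℕ) : altG n →+ ({p : Fin n × Fin n // p.1 < p.2} → ZMod 2) :=
  AddMonoidHom.mk' (fun γ p => (γ : V n →+ V n →+ ZMod 2) (Pi.single p.1.1 1) (Pi.single p.1.2 1))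
    (fun _ _ => rfl)

lemma altCoord_inj : Function.Injective (altCoord n) := by
  rw [injective_iff_map_eq_zero]
  intro γ h
  have h1 : ∀ i j : Fin n, (γ : V n →+ V n →+ ZMod 2) (Pi.single i 1) (Pi.single j 1) = 0 := by
    intro i j
    rcases lt_trichotomy i j with hij | hij | hij
    · exact congrFun h ⟨(i, j), hij⟩
    · rw [hij]; exact γ.2 _
    · rw [alt_symm]
      exact congrFun h ⟨(j, i), hij⟩
  apply Subtype.ext
  apply hom_zero
  intro i
  apply hom_zero
  intro j
  exact h1 i j

lemma card_altG : Fintype.card (altG n) ≤ 2 ^ Fintype.card {p : Fin n × Fin n // p.1 < p.2} := by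
  classical
  have h := Fintype.card_le_of_injective _ (altCoord_inj (n := n))
  rw [Fintype.card_fun, ZMod.card] at h
  exact h

variable {H : Type} [AddCommGroup H] [Fintype H] (β : H →+ V n →+ V n →+ ZMod 2)

/-- forms vanishing on the null pairs -/
def Gam : AddSubgroup (altG n) where
  carrier := {γ | ∀ a b, (∀ v, β v a b = 0) → (γ : V n →+ V n →+ ZMod 2) a b = 0}
  add_mem' := by
    intro γ δ hγ hδ a b hab
    change (γ : V n →+ V n →+ ZMod 2) a b + (δ : V n →+ V n →+ ZMod 2) a b = 0
    rw [hγ a b hab, hδ a b hab, add_zero]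
  zero_mem' := fun _ _ _ => rfl
  neg_mem' := by
    intro γ hγ a b hab
    change -((γ : V n →+ V n →+ ZMod 2) a b) = 0
    rw [hγ a b hab, neg_zero]

noncomputable instance gamFintype : Fintype (Gam β) := Fintype.ofFinite _

/-- the partners of `k` -/
def LL (k : V n) : AddSubgroup (V n) where
  carrier := {l | ∀ a b, (∀ v, β v a b = 0) → wedge k l a b = 0}
  add_mem' := by
    intro l m hl hm a b hab
    have h1 := hl a b hab
    have h2 := hm a b hab
    rw [wedge_apply] at h1 h2 ⊢
    rw [dot_add_left, dot_add_left]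
    have : ∀ p q r s t u : ZMod 2, p * q + r * s = 0 → p * t + r * u = 0 →
        p * (q + t) + r * (s + u) = 0 := by decide
    exact this _ _ _ _ _ _ h1 h2
  zero_mem' := by
    intro a b _
    rw [wedge_apply, dot_zero_left, dot_zero_left, mul_zero, mul_zero, add_zero]
  neg_mem' := by
    intro l hl
    have : -l = l := neg_eq_of_add_eq_zero_left (vv l)
    rw [this]; exact hl

lemma mem_LL (k l : V n) : l ∈ LL β k ↔ ∀ a b, (∀ v, β v a b = 0) → wedge k l a b = 0 := Iff.rfl

lemma self_mem_LL (k : V n) : k ∈ LL β k := by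
  intro a b _
  rw [wedge_apply]
  have : ∀ s t : ZMod 2, s * t + t * s = 0 := by decide
  exact this _ _

variable {β}

lemma ev_Gam (F : Fam β) (γ : altG n) (hγ : γ ∈ Gam β) (T : AddSubgroup (V n)) (hT : T ∈ TT β) :
    ev (γ : V n →+ V n →+ ZMod 2) T = 0 := by
  have h := pp_spec F hT
  exact hγ _ _ (fun v => TT_null F hT h.left h.right v)

lemma ev_LL (F : Fam β) (k l : V n) (hl : l ∈ LL β k) (T : AddSubgroup (V n)) (hT : T ∈ TT β) :
    dot l (tauT k T) = 0 := by
  have h := pp_spec F hT
  rw [← ev_wedge]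
  exact hl _ _ (fun v => TT_null F hT h.left h.right v)

open Classical in
/-- the planes inside `ker k` -/
noncomputable def SS (β : H →+ V n →+ V n →+ ZMod 2) (k : V n) : Finset (AddSubgroup (V n)) :=
  (TT β).filter fun T => k ∈ ann T

lemma mem_SS (k : V n) (T : AddSubgroup (V n)) : T ∈ SS β k ↔ T ∈ TT β ∧ k ∈ ann T := by
  classical
  unfold SS
  rw [mem_filter]

/-- bound for the partners of `k` by the planes outside `ker k` -/
lemma vk_bound (F : Fam β) (k : V n) :
    Nat.card (LL β k) * ((TT β).card - (SS β k).card + 1) ≤ 2 ^ n := by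
  classical
  obtain ⟨X, hX⟩ : ∃ X, X = (TT β).filter fun T => k ∉ ann T := ⟨_, rfl⟩
  have h1 : (SS β k).card + X.card = (TT β).card := by
    rw [hX]
    unfold SS
    exact card_filter_add_card_filter_not _
  have h2 : X.card + 1 ≤ Nat.card (ann (LL β k)) := by
    have h3 : X.card ≤ ((univ.filter fun y : V n => y ∈ ann (LL β k)).erase 0).card := by
      apply card_le_card_of_injOn (fun T => tauT k T)
      · intro T hT
        rw [mem_coe, hX, mem_filter] at hT
        rw [mem_coe, mem_erase, mem_filter]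
        refine ⟨tauT_ne F hT.1 k hT.2, mem_univ _, ?_⟩
        intro l hl
        rw [dot_comm]
        exact ev_LL F k l hl T hT.1
      · intro T hT T' hT' h
        rw [mem_coe, hX, mem_filter] at hT hT'
        have h4 := tauT_mem F hT.1 k
        have h5 := tauT_mem F hT'.1 k
        have h' : tauT k T = tauT k T' := h
        rw [← h'] at h5
        exact TT_disj F hT.1 hT'.1 h4 h5 (tauT_ne F hT.1 k hT.2)
    rw [card_erase_of_mem (by simp [(ann (LL β k)).zero_mem])] at h3
    have h6 : Nat.card (ann (LL β k)) = (univ.filter fun y : V n => y ∈ ann (LL β k)).card := by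
      rw [Nat.card_eq_fintype_card, Fintype.card_subtype]
    have h7 : 0 < Nat.card (ann (LL β k)) := Nat.card_pos
    omega
  have h8 := card_ann (LL β k)
  calc Nat.card (LL β k) * ((TT β).card - (SS β k).card + 1)
      ≤ Nat.card (LL β k) * Nat.card (ann (LL β k)) := Nat.mul_le_mul_left _ (by omega)
    _ = 2 ^ n := h8

/-- the Sidon bound on a hyperplane -/
lemma sid_bound (F : Fam β) (k : V n) :
    Nat.card (Gam β) * 2 ^ n * (1 + (SS β k).card + (SS β k).card.choose 2)
      ≤ Nat.card (LL β k) * Fintype.card (altG n) := by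
  classical
  let Φ : (Gam β × V n) → altG n := fun p =>
    (p.1 : altG n) + ⟨wedge k p.2, fun a => wedge_self k p.2 a⟩
  have hfib : ∀ g ∈ (univ : Finset (Gam β × V n)).image Φ,
      (univ.filter fun p => Φ p = g).card ≤ Nat.card (LL β k) := by
    intro g hg
    obtain ⟨p₀, -, rfl⟩ := mem_image.mp hg
    have hR : Nat.card (LL β k) = (univ.filter fun x : V n => x ∈ LL β k).card := by
      rw [Nat.card_eq_fintype_card, Fintype.card_subtype]
    rw [hR]
    have heq : ∀ p, Φ p = Φ p₀ → ∀ a b, (p.1.1 : V n →+ V n →+ ZMod 2) a b + wedge k p.2 a b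
        = (p₀.1.1 : V n →+ V n →+ ZMod 2) a b + wedge k p₀.2 a b := by
      intro p hp a b
      have := congrArg (fun γ : altG n => (γ : V n →+ V n →+ ZMod 2) a b) hp
      exact this
    apply card_le_card_of_injOn (fun p => p.2 + p₀.2)
    · intro p hp
      have hp' : Φ p = Φ p₀ := (mem_filter.mp hp).2
      rw [mem_coe, mem_filter]
      refine ⟨mem_univ _, ?_⟩
      intro a b hab
      have h1 := heq p hp' a b
      rw [p.1.2 a b hab, p₀.1.2 a b hab, zero_add, zero_add] at h1
      rw [wedge_apply] at h1 ⊢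
      rw [wedge_apply] at h1
      rw [dot_add_left, dot_add_left]
      have : ∀ p q r s t u : ZMod 2, p * q + r * s = p * t + r * u →
          p * (q + t) + r * (s + u) = 0 := by decide
      exact this _ _ _ _ _ _ h1
    · intro p hp q hq hpq
      have hp' : Φ p = Φ p₀ := (mem_filter.mp hp).2
      have hq' : Φ q = Φ p₀ := (mem_filter.mp hq).2
      have e : p.2 = q.2 := add_right_cancel hpq
      have h1 : Φ p = Φ q := hp'.trans hq'.symm
      have h2 : (p.1 : altG n) = q.1 := by
        have h3 : (p.1 : altG n) + ⟨wedge k p.2, fun a => wedge_self k p.2 a⟩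
            = (q.1 : altG n) + ⟨wedge k q.2, fun a => wedge_self k q.2 a⟩ := h1
        rw [e] at h3
        exact add_right_cancel h3
      exact Prod.ext (Subtype.ext h2) e
  have h1 := card_le_mul_card_image univ _ hfib
  have h2 : (univ : Finset (Gam β × V n)).card = Nat.card (Gam β) * 2 ^ n := by
    rw [card_univ, Fintype.card_prod, card_V, Nat.card_eq_fintype_card]
  have h3 := delta_ineq F (SS β k) (fun T hT => ((mem_SS k T).mp hT).1)
    ((univ : Finset (Gam β × V n)).image Φ) (by
      intro γ hγ T hT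
      obtain ⟨p, -, rfl⟩ := mem_image.mp hγ
      have hT' := (mem_SS k T).mp hT
      change ev (p.1.1 : V n →+ V n →+ ZMod 2) T + ev (wedge k p.2) T = 0
      rw [ev_Gam F p.1.1 p.1.2 T hT'.1, ev_wedge, tauT_ann k F hT'.1 hT'.2, dot_zero_right,
        add_zero])
  rw [card_P2] at h3
  rw [h2] at h1
  calc Nat.card (Gam β) * 2 ^ n * (1 + (SS β k).card + (SS β k).card.choose 2)
      ≤ (Nat.card (LL β k) * ((univ : Finset (Gam β × V n)).image Φ).card)
          * (1 + (SS β k).card + (SS β k).card.choose 2) := Nat.mul_le_mul_right _ h1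
    _ = Nat.card (LL β k) * (((univ : Finset (Gam β × V n)).image Φ).card
          * (1 + (SS β k).card + (SS β k).card.choose 2)) := by ring
    _ ≤ _ := Nat.mul_le_mul_left _ h3

/-- the Sidon bound for all planes -/
lemma sid_bound_all (F : Fam β) :
    Nat.card (Gam β) * (1 + (TT β).card + (TT β).card.choose 2) ≤ Fintype.card (altG n) := by
  classical
  have h3 := delta_ineq F (TT β) (fun T hT => hT)
    (univ.filter fun γ : altG n => γ ∈ Gam β) (by
      intro γ hγ T hT
      exact ev_Gam F γ (mem_filter.mp hγ).2 T hT)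
  rw [card_P2] at h3
  have h6 : Nat.card (Gam β) = (univ.filter fun γ : altG n => γ ∈ Gam β).card := by
    rw [Nat.card_eq_fintype_card, Fintype.card_subtype]
  rw [h6]
  exact h3

/-- first moment of the number of planes in a hyperplane -/
lemma moment1 (F : Fam β) : 4 * ∑ k : V n, (SS β k).card = (TT β).card * 2 ^ n := by
  classical
  have h1 : ∑ k : V n, (SS β k).card = ∑ T ∈ TT β, Nat.card (ann T) := by
    unfold SS
    simp only [card_filter]
    rw [sum_comm]
    apply sum_congr rfl
    intro T _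
    rw [Nat.card_eq_fintype_card, Fintype.card_subtype, card_filter]
  rw [h1, mul_sum]
  have h2 : ∀ T ∈ TT β, 4 * Nat.card (ann T) = 2 ^ n := by
    intro T hT
    rw [← (pp_spec F hT).card]
    exact card_ann T
  rw [sum_congr rfl h2, sum_const, smul_eq_mul]

/-- second moment -/
lemma moment2 (F : Fam β) : 16 * ∑ k : V n, (SS β k).card ^ 2
    = (TT β).card * (4 * 2 ^ n) + (TT β).card * ((TT β).card - 1) * 2 ^ n := by
  classical
  have h1 : ∑ k : V n, (SS β k).card ^ 2
      = ∑ T ∈ TT β, ∑ T' ∈ TT β, Nat.card (ann T ⊓ ann T' : AddSubgroup (V n)) := by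
    unfold SS
    have : ∀ k : V n, ((TT β).filter fun T => k ∈ ann T).card ^ 2
        = ∑ T ∈ TT β, ∑ T' ∈ TT β, if k ∈ (ann T ⊓ ann T' : AddSubgroup (V n)) then 1 else 0 := by
      intro k
      rw [sq, card_filter, sum_mul_sum]
      apply sum_congr rfl
      intro T _
      apply sum_congr rfl
      intro T' _
      by_cases h1 : k ∈ ann T
      · by_cases h2 : k ∈ ann T'
        · rw [if_pos h1, if_pos h2, if_pos (AddSubgroup.mem_inf.mpr ⟨h1, h2⟩), mul_one]
        · rw [if_neg h2, mul_zero, if_neg]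
          intro h; exact h2 (AddSubgroup.mem_inf.mp h).2
      · rw [if_neg h1, zero_mul, if_neg]
        intro h; exact h1 (AddSubgroup.mem_inf.mp h).1
    simp only [this]
    rw [sum_comm]
    apply sum_congr rfl
    intro T _
    rw [sum_comm]
    apply sum_congr rfl
    intro T' _
    rw [Nat.card_eq_fintype_card, Fintype.card_subtype, card_filter]
  rw [h1, mul_sum]
  have h2 : ∀ T ∈ TT β, 16 * ∑ T' ∈ TT β, Nat.card (ann T ⊓ ann T' : AddSubgroup (V n))
      = 4 * 2 ^ n + ((TT β).card - 1) * 2 ^ n := by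
    intro T hT
    rw [mul_sum, ← add_sum_erase _ _ hT]
    congr 1
    · rw [inf_idem]
      have h3 := card_ann T
      rw [(pp_spec F hT).card] at h3
      omega
    · have h4 : ∀ T' ∈ (TT β).erase T, 16 * Nat.card (ann T ⊓ ann T' : AddSubgroup (V n))
          = 2 ^ n := by
        intro T' hT'
        have hT'' := (mem_erase.mp hT')
        have h5 := card_ann2 T T'
        have h6 : (T ⊓ T' : AddSubgroup (V n)) = ⊥ := by
          rw [eq_bot_iff]
          intro x hx
          rw [AddSubgroup.mem_bot]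
          by_contra hx0
          exact hT''.1 (TT_disj F hT hT''.2 hx.1 hx.2 hx0).symm
        rw [h6, (pp_spec F hT).card, (pp_spec F hT''.2).card, AddSubgroup.card_bot] at h5
        omega
      rw [sum_congr rfl h4, sum_const, smul_eq_mul, card_erase_of_mem hT]
  rw [sum_congr rfl h2, sum_const, smul_eq_mul]
  ring

/-- pairs spanning a form of rank two in `Gam` -/
lemma pairs_ineq (F : Fam β) :
    0 ≤ ∑ k ∈ (univ : Finset (V n)).erase 0,
      ((Nat.card (LL β k) : ℤ) - 2) * (3 * ((SS β k).card : ℤ) - (TT β).card) := by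
  classical
  obtain ⟨P, hP⟩ : ∃ P, P = (univ : Finset (V n × V n)).filter fun p =>
    p.1 ≠ 0 ∧ p.2 ≠ 0 ∧ p.1 ≠ p.2 ∧ p.2 ∈ LL β p.1 := ⟨_, rfl⟩
  have hmem : ∀ p : V n × V n, p ∈ P ↔ (p.1 ≠ 0 ∧ p.2 ≠ 0 ∧ p.1 ≠ p.2 ∧ p.2 ∈ LL β p.1) := by
    intro p
    rw [hP, mem_filter]
    simp only [mem_univ, true_and]
  -- rotation
  have hrot : ∀ p : V n × V n, p ∈ P → (p.2, p.1 + p.2) ∈ P := by
    intro p hp
    rw [hmem] at hp ⊢
    obtain ⟨h1, h2, h3, h4⟩ := hp
    refine ⟨h2, fun h => h3 (eq_of_add_zero _ _ h), fun h => h1 (by simpa using h), ?_⟩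
    intro a b hab
    have h5 := h4 a b hab
    rw [wedge_apply] at h5 ⊢
    rw [dot_add_left, dot_add_left]
    have : ∀ p q r s : ZMod 2, p * q + r * s = 0 → s * (r + q) + q * (p + s) = 0 := by decide
    exact this _ _ _ _ h5
  have hinj : Function.Injective (fun p : V n × V n => (p.2, p.1 + p.2)) := by
    rintro ⟨a, b⟩ ⟨c, d⟩ h
    simp only [Prod.mk.injEq] at h
    obtain ⟨rfl, h2⟩ := h
    rw [add_right_cancel h2]
  have hsum : ∀ f : V n × V n → ℤ, ∑ p ∈ P, f (p.2, p.1 + p.2) = ∑ p ∈ P, f p := by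
    intro f
    have h1 : P.image (fun p : V n × V n => (p.2, p.1 + p.2)) = P := by
      apply eq_of_subset_of_card_le
      · intro q hq
        obtain ⟨p, hp, rfl⟩ := mem_image.mp hq
        exact hrot p hp
      · rw [card_image_of_injective _ hinj]
    conv_rhs => rw [← h1]
    rw [sum_image (fun x _ y _ h => hinj h)]
  have e1 : ∑ p ∈ P, ((SS β p.2).card : ℤ) = ∑ p ∈ P, ((SS β p.1).card : ℤ) :=
    hsum (fun p => ((SS β p.1).card : ℤ))
  have e2 : ∑ p ∈ P, ((SS β (p.1 + p.2)).card : ℤ) = ∑ p ∈ P, ((SS β p.2).card : ℤ) :=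
    hsum (fun p => ((SS β p.2).card : ℤ))
  have h3 : ∀ p ∈ P, ((TT β).card : ℤ) ≤
      ((SS β p.1).card : ℤ) + (SS β p.2).card + (SS β (p.1 + p.2)).card := by
    intro p hp
    rw [hmem] at hp
    have hsub : TT β ⊆ (SS β p.1 ∪ SS β p.2) ∪ SS β (p.1 + p.2) := by
      intro T hT
      rw [mem_union, mem_union, mem_SS, mem_SS, mem_SS]
      have hq := pp_spec F hT
      have hw : wedge p.1 p.2 (pp T).1 (pp T).2 = 0 :=
        hp.2.2.2 _ _ (fun v => TT_null F hT hq.left hq.right v)
      rw [wedge_apply] at hw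
      have key : ∀ k : V n, dot k (pp T).1 = 0 → dot k (pp T).2 = 0 → k ∈ ann T := by
        intro k h1 h2 x hx
        rcases (hq.2.2.2 x).mp hx with h | h | h | h
        · rw [h, dot_zero_right]
        · rw [h, h1]
        · rw [h, h2]
        · rw [h, dot_add_right, h1, h2, add_zero]
      have dec : ∀ p q r s : ZMod 2, p * q + r * s = 0 → (p = 0 ∧ r = 0) ∨ (s = 0 ∧ q = 0) ∨
          (p + s = 0 ∧ r + q = 0) := by decide
      rcases dec _ _ _ _ hw with h | h | h
      · left; left; exact ⟨hT, key _ h.1 h.2⟩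
      · left; right; exact ⟨hT, key _ h.1 h.2⟩
      · right
        refine ⟨hT, key _ ?_ ?_⟩
        · rw [dot_add_left]; exact h.1
        · rw [dot_add_left]; exact h.2
    have h1 := card_le_card hsub
    have h2 := card_union_le (SS β p.1 ∪ SS β p.2) (SS β (p.1 + p.2))
    have h4 := card_union_le (SS β p.1) (SS β p.2)
    have : (TT β).card ≤ (SS β p.1).card + (SS β p.2).card + (SS β (p.1 + p.2)).card := by omega
    exact_mod_cast this
  have h4 : 0 ≤ ∑ p ∈ P, (3 * ((SS β p.1).card : ℤ) - (TT β).card) := by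
    have h5 := sum_le_sum h3
    rw [sum_add_distrib, sum_add_distrib, e2, e1, sum_const, nsmul_eq_mul] at h5
    rw [sum_sub_distrib, ← mul_sum, sum_const, nsmul_eq_mul]
    linarith
  -- fibre over `k`
  have h6 : ∑ p ∈ P, (3 * ((SS β p.1).card : ℤ) - (TT β).card)
      = ∑ k ∈ (univ : Finset (V n)).erase 0,
        ((Nat.card (LL β k) : ℤ) - 2) * (3 * ((SS β k).card : ℤ) - (TT β).card) := by
    rw [hP, sum_filter, ← univ_product_univ, sum_product]
    rw [← add_sum_erase _ _ (mem_univ (0 : V n))]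
    have h7 : ∑ l : V n, (if ((0 : V n), l).1 ≠ 0 ∧ ((0 : V n), l).2 ≠ 0 ∧
        ((0 : V n), l).1 ≠ ((0 : V n), l).2 ∧ ((0 : V n), l).2 ∈ LL β ((0 : V n), l).1 then
        (3 * ((SS β ((0 : V n), l).1).card : ℤ) - (TT β).card) else 0) = 0 := by
      apply sum_eq_zero
      intro l _
      rw [if_neg]
      rintro ⟨h, -⟩; exact h rfl
    rw [h7, zero_add]
    apply sum_congr rfl
    intro k hk
    have hk0 : k ≠ 0 := (mem_erase.mp hk).1
    rw [← sum_filter]
    have h11 : ∀ l ∈ (univ.filter fun l : V n => (k, l).1 ≠ 0 ∧ (k, l).2 ≠ 0 ∧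
        (k, l).1 ≠ (k, l).2 ∧ (k, l).2 ∈ LL β (k, l).1),
        (3 * ((SS β (k, l).1).card : ℤ) - (TT β).card) = 3 * ((SS β k).card : ℤ) - (TT β).card :=
      fun _ _ => rfl
    rw [sum_congr rfl h11, sum_const, nsmul_eq_mul]
    congr 1
    have h8 : (univ.filter fun l : V n => (k, l).1 ≠ 0 ∧ (k, l).2 ≠ 0 ∧ (k, l).1 ≠ (k, l).2 ∧
        (k, l).2 ∈ LL β (k, l).1)
        = ((univ.filter fun l : V n => l ∈ LL β k).erase 0).erase k := by
      ext l
      simp only [mem_filter, mem_erase, mem_univ, true_and]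
      constructor
      · rintro ⟨-, h2, h3, h4⟩
        exact ⟨Ne.symm h3, h2, h4⟩
      · rintro ⟨h3, h2, h4⟩
        exact ⟨hk0, h2, Ne.symm h3, h4⟩
    rw [h8, card_erase_of_mem, card_erase_of_mem]
    · have h9 : Nat.card (LL β k) = (univ.filter fun l : V n => l ∈ LL β k).card := by
        rw [Nat.card_eq_fintype_card, Fintype.card_subtype]
      have h10 : 2 ≤ (univ.filter fun l : V n => l ∈ LL β k).card := by
        have hs : ({0, k} : Finset (V n)) ⊆ univ.filter fun l : V n => l ∈ LL β k := by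
          intro l hl
          simp only [mem_insert, mem_singleton] at hl
          rw [mem_filter]
          refine ⟨mem_univ _, ?_⟩
          rcases hl with rfl | rfl
          · exact (LL β k).zero_mem
          · exact self_mem_LL β l
        have := card_le_card hs
        rw [card_pair (Ne.symm hk0)] at this
        exact this
      rw [h9]
      omega
    · simp [(LL β k).zero_mem]
    · simp [hk0, self_mem_LL β k]
  rw [← h6]
  exact h4

end Pool.Agent.Lib.AbHyp8
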