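import Pool.Agent.Lib.AbHyp8.Reduce

set_option autoImplicit false

namespace Pool.Agent.Lib.AbHyp8

open Finset

variable {n : ℕ}

/-- the second derivative of the vectorial function -/
def DDG (G : V n → V n) (a b x : V n) : V n := G (x + a + b) + G (x + a) + (G (x + b) + G x)

lemma dot_DDG (G : V n → V n) (v a b x : V n) :
    dot v (DDG G a b x) = D a (D b (comp v G)) x := by
  simp only [DDG, D, comp, dot_add_right]

lemma DDG_cases (G : V n → V n) (w : V n) (hw : w ≠ 0)
    (hq : ∀ v, dot v w = 0 → DegLeTwo (comp v G)) (a b : V n)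
    (hab : ∀ v, dot v w = 0 → pol (comp v G) a b = 0) (x : V n) :
    DDG G a b x = 0 ∨ DDG G a b x = w := by
  apply perp_perp w _ hw
  intro v hv
  rw [dot_DDG, pol_const (hq v hv), hab v hv]

/-- the kernel of `a` has at most four elements -/
lemma hN_of_apn (G : V n → V n) (hG : IsAPN G) (w : V n) (hw : w ≠ 0)
    (hq : ∀ v, dot v w = 0 → DegLeTwo (comp v G)) (a : V n) (ha : a ≠ 0) :
    (NN (fam G w hq) a).card ≤ 4 := by
  classical
  have hsub : NN (fam G w hq) a ⊆ (univ.filter fun b : V n => G (b + a) + G b = G (0 + a) + G 0) ∪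
      (univ.filter fun b : V n => G (b + a) + G b = G (0 + a) + G 0 + w) := by
    intro b hb
    have hb' := (Finset.mem_filter.mp hb).2
    have hab : ∀ v, dot v w = 0 → pol (comp v G) a b = 0 := fun v hv => hb' ⟨v, hv⟩
    have h := DDG_cases G w hw hq a b hab 0
    simp only [mem_union, mem_filter, mem_univ, true_and]
    have e : G (b + a) + G b = G (0 + a) + G 0 + DDG G a b 0 := by
      simp only [DDG, zero_add]
      rw [add_comm b a]
      have hx := vv (G a)
      have hy := vv (G 0)
      calc G (a + b) + G b = G (a + b) + G b + (G a + G a) + (G 0 + G 0) := by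
            rw [hx, hy, add_zero, add_zero]
        _ = _ := by abel
    rcases h with h | h
    · left; rw [e, h, add_zero]
    · right; rw [e, h]
  have h1 := card_le_card hsub
  have h2 := card_union_le (univ.filter fun b : V n => G (b + a) + G b = G (0 + a) + G 0)
    (univ.filter fun b : V n => G (b + a) + G b = G (0 + a) + G 0 + w)
  have h3 : ∀ c, (univ.filter fun b : V n => G (b + a) + G b = c).card ≤ 2 := by
    intro c
    have := hG a ha c
    rw [Nat.card_eq_fintype_card, Fintype.card_subtype] at this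
    exact this
  have h4 := h3 (G (0 + a) + G 0)
  have h5 := h3 (G (0 + a) + G 0 + w)
  omega

/-- reduction to a function of degree three -/
lemma cubic_of (G : V n → V n) (w : V n) (f : V n → ZMod 2)
    (hf : ∀ a b, (∀ v, dot v w = 0 → pol (comp v G) a b = 0) →
      ∀ x, D a (D b f) x = D a (D b f) 0)
    (hd : ¬ DegLeTwo f) (C : (V n → ZMod 2) → Prop) (hC : ∀ f y, C f → C (D y f)) (hCf : C f) :
    ∃ f' : V n → ZMod 2, C f' ∧ ¬ DegLeTwo f' ∧ (∀ y, DegLeTwo (D y f')) ∧
      (∀ a b, (∀ v, dot v w = 0 → pol (comp v G) a b = 0) → ∀ c, tri f' a b c = 0) := by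
  obtain ⟨f', ⟨hf1, hf2⟩, hd', h3⟩ := reduce
    (fun f => C f ∧ ∀ a b, (∀ v, dot v w = 0 → pol (comp v G) a b = 0) →
      ∀ x, D a (D b f) x = D a (D b f) 0)
    (by
      rintro f y ⟨h1, h2⟩
      refine ⟨hC f y h1, ?_⟩
      intro a b hab
      have key : ∀ x, D a (D b (D y f)) x = 0 := by
        intro x
        rw [D_comm b y, D_comm a y]
        simp only [D] at h2 ⊢
        rw [h2 a b hab x, h2 a b hab (x + y), tt]
      intro x
      rw [key, key])
    _ f le_rfl ⟨hCf, hf⟩ hd
  refine ⟨f', hf1, hd', h3, ?_⟩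
  intro a b hab c
  simp only [tri]
  rw [D_comm b c, D_comm a c]
  have h := hf2 a b hab
  conv_lhs => rw [D]
  rw [h (0 + c), tt]

/-- the radical of the cubic form has index at least 32 -/
lemma index_ge (G : V n → V n) (hG : IsAPN G) (w : V n) (hw : w ≠ 0)
    (hq : ∀ v, dot v w = 0 → DegLeTwo (comp v G))
    (hr : ∀ v, v ≠ 0 → dot v w = 0 → 2 ≤ Nat.card {a : V n // ∀ b, pol (comp v G) a b = 0})
    (f' : V n → ZMod 2) (hd' : ¬ DegLeTwo f') (h3 : ∀ y, DegLeTwo (D y f'))
    (hη : ∀ a b, (∀ v, dot v w = 0 → pol (comp v G) a b = 0) → ∀ c, tri f' a b c = 0) :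
    32 * Nat.card (rad3 (tri_Tri h3)) ≤ 2 ^ n := by
  classical
  have h := core1 (V := V n) (H := hyp w) (fam G w hq)
    (by rw [card_hyp w hw, Nat.card_eq_fintype_card])
    (fun v a b => pol_symm _ a b) (fun v a => pol_self _ a)
    (by
      intro v hv
      have := hr v (fun h => hv (Subtype.ext h)) v.2
      rw [Nat.card_eq_fintype_card, Fintype.card_subtype] at this
      exact this)
    (fun a ha => hN_of_apn G hG w hw hq a ha)
    (tri_Tri h3)
    (fun a b hab c => hη a b (fun v hv => hab ⟨v, hv⟩) c)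
    (tri_ne h3 hd')
  rw [Nat.card_eq_fintype_card (α := V n), card_V] at h
  exact h

/-- no contraction of the cubic form is a component form -/
lemma kernel_zero (G : V n → V n) (w : V n) (hw : w ≠ 0)
    (hq : ∀ v, dot v w = 0 → DegLeTwo (comp v G))
    (hr : ∀ v, v ≠ 0 → dot v w = 0 → Nat.card {a : V n // ∀ b, pol (comp v G) a b = 0} = 2)
    (f' : V n → ZMod 2) (h3 : ∀ y, DegLeTwo (D y f'))
    (hη : ∀ a b, (∀ v, dot v w = 0 → pol (comp v G) a b = 0) → ∀ c, tri f' a b c = 0)
    (x v : V n) (hv : dot v w = 0) (hx : ∀ a b, tri f' x a b = pol (comp v G) a b) :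
    v = 0 ∧ x ∈ rad3 (tri_Tri h3) := by
  classical
  have h := core2 (V := V n) (H := hyp w) (fam G w hq)
    (by rw [card_hyp w hw, Nat.card_eq_fintype_card])
    (by
      intro v hv
      have := hr v (fun h => hv (Subtype.ext h)) v.2
      rw [Nat.card_eq_fintype_card, Fintype.card_subtype] at this
      exact this)
    (tri_Tri h3)
    (fun a b hab c => hη a b (fun v hv => hab ⟨v, hv⟩) c) x ⟨v, hv⟩ hx
  exact ⟨congrArg Subtype.val h.1, h.2⟩

/-- first consequence: functions of few linear forms -/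
theorem few_forms (G : V n → V n) (hG : IsAPN G) (w : V n) (hw : w ≠ 0)
    (hq : ∀ v, dot v w = 0 → DegLeTwo (comp v G))
    (hr : ∀ v, v ≠ 0 → dot v w = 0 → 2 ≤ Nat.card {a : V n // ∀ b, pol (comp v G) a b = 0})
    (f : V n → ZMod 2)
    (hf : ∀ a b, (∀ v, dot v w = 0 → pol (comp v G) a b = 0) →
      ∀ x, D a (D b f) x = D a (D b f) 0)
    (S : AddSubgroup (V n)) (hS : 2 ^ n ≤ 16 * Nat.card S)
    (g : V n → ZMod 2) (hg : DegLeTwo g)
    (hfg : ∀ s ∈ S, ∀ x, f (x + s) + g (x + s) = f x + g x) : DegLeTwo f := by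
  by_contra hd
  obtain ⟨f', ⟨g', hg', hS'⟩, hd', h3, hη⟩ := cubic_of G w f hf hd
    (fun f => ∃ g, DegLeTwo g ∧ ∀ s ∈ S, ∀ x, f (x + s) + g (x + s) = f x + g x)
    (by
      rintro f y ⟨g, h1, h2⟩
      refine ⟨D y g, h1.deriv y, ?_⟩
      intro s hs x
      have e1 := h2 s hs x
      have e2 := h2 s hs (x + y)
      simp only [D]
      rw [add_right_comm x s y]
      calc f (x + y + s) + f (x + s) + (g (x + y + s) + g (x + s))
          = (f (x + y + s) + g (x + y + s)) + (f (x + s) + g (x + s)) := by ring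
        _ = (f (x + y) + g (x + y)) + (f x + g x) := by rw [e1, e2]
        _ = _ := by ring)
    ⟨g, hg, hfg⟩
  have h32 := index_ge G hG w hw hq hr f' hd' h3 hη
  have hsub : ∀ s ∈ S, s ∈ rad3 (tri_Tri h3) := by
    intro s hs
    rw [mem_rad3]
    intro a b
    have h0 : D s (fun x => f' x + g' x) = fun _ => 0 := by
      funext x
      simp only [D]
      rw [hS' s hs x, tt]
    have h1 : D a (D b (D s (fun x => f' x + g' x))) 0 = 0 := by
      rw [h0, D_zero_fun, D_zero_fun]
    rw [D_fadd', D_fadd', D_fadd, hg', add_zero] at h1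
    simp only [tri]
    rw [D_comm b s, ← D_comm s a] at h1
    exact h1
  have hle : Nat.card S ≤ Nat.card (rad3 (tri_Tri h3)) := by
    apply Nat.card_le_card_of_injective (fun s : S => (⟨s, hsub s s.2⟩ : rad3 (tri_Tri h3)))
    intro s t hst
    have := congrArg Subtype.val hst
    exact Subtype.ext this
  have hpos : 0 < Nat.card S := Nat.card_pos
  omega

end Pool.Agent.Lib.AbHyp8
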