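import Pool.Agent.Lib.AbHyp8.Parity
import Pool.Agent.Lib.AbHyp8.Final

set_option autoImplicit false

namespace Pool.Agent.Lib.AbHyp8

open Finset

lemma pairs5 : Fintype.card {p : Fin 5 × Fin 5 // p.1 < p.2} = 10 := by decide

lemma pairs7 : Fintype.card {p : Fin 7 × Fin 7 // p.1 < p.2} = 21 := by decide

lemma tableF : ∀ t : Fin 20, ∀ i : Fin 8, (1 ≤ i.val ∧ 1 + t.val + t.val.choose 2 ≤ 4 * 2 ^ i.val ∧
    2 ^ i.val * (21 - t.val + 1) ≤ 128) →
    (t.val ≤ 7 ∧ (2 ^ i.val = 2 → t.val ≤ 3)) := by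
  decide

lemma table (t : ℕ) (ht : t < 20) (i : ℕ) (hi : i < 8) (h1 : 1 ≤ i)
    (h2 : 1 + t + t.choose 2 ≤ 4 * 2 ^ i) (h3 : 2 ^ i * (21 - t + 1) ≤ 128) :
    t ≤ 7 ∧ (2 ^ i = 2 → t ≤ 3) :=
  tableF ⟨t, ht⟩ ⟨i, hi⟩ ⟨h1, h2, h3⟩

variable {n : ℕ} {H : Type} [AddCommGroup H] [Fintype H] {β : H →+ V n →+ V n →+ ZMod 2}

lemma SS_zero : SS β 0 = TT β := by
  classical
  ext T
  rw [mem_SS]
  exact ⟨fun h => h.1, fun h => ⟨h, (ann T).zero_mem⟩⟩

lemma SS_le (k : V n) : (SS β k).card ≤ (TT β).card :=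
  card_le_card (fun T hT => ((mem_SS k T).mp hT).1)

lemma LL_ge_two (k : V n) (hk : k ≠ 0) : Nat.card (LL β k) ≠ 1 := by
  intro h
  rw [AddSubgroup.card_eq_one] at h
  have h2 := self_mem_LL β k
  rw [h, AddSubgroup.mem_bot] at h2
  exact hk h2

omit [Fintype H] in
lemma LL_pow (k : V n) : ∃ i, i ≤ n ∧ Nat.card (LL β k) = 2 ^ i := by
  have h := AddSubgroup.card_addSubgroup_dvd_card (LL β k)
  rw [Nat.card_eq_fintype_card (α := V n), card_V] at h
  exact (Nat.dvd_prime_pow Nat.prime_two).mp h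

/-- the planes outside a hyperplane, radical of index 32 -/
lemma outside (F : Fam β) {η : V n → V n → V n → ZMod 2} (T : Tri η)
    (hη : ∀ a b, (∀ v, β v a b = 0) → ∀ c, η a b c = 0)
    (h32 : Nat.card (V n) = 32 * Nat.card (rad3 T)) (hη1 : ∃ a b c, η a b c ≠ 0) :
    ∃ k : V n, k ≠ 0 ∧ (TT β).card - (SS β k).card + 1 ≤ Nat.card (rad3 T) := by
  classical
  obtain ⟨d, e, ⟨x0, hx0⟩, hmain⟩ := five T h32 hη1
  obtain ⟨k, hk⟩ := dot_repr (AddMonoidHom.mk' (fun x => η d e x) (fun x y => T.add3 d e x y))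
  have hk' : ∀ x, η d e x = dot k x := hk
  have hk0 : k ≠ 0 := by
    rintro rfl
    apply hx0
    rw [hk', dot_zero_left]
  refine ⟨k, hk0, ?_⟩
  obtain ⟨X, hX⟩ : ∃ X, X = (TT β).filter fun T => k ∉ ann T := ⟨_, rfl⟩
  have h1 : (SS β k).card + X.card = (TT β).card := by
    rw [hX]
    unfold SS
    exact card_filter_add_card_filter_not _
  have h3 : X.card ≤ ((univ.filter fun y : V n => y ∈ rad3 T).erase 0).card := by
    apply card_le_card_of_injOn (fun T => tauT k T)
    · intro S hS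
      rw [mem_coe, hX, mem_filter] at hS
      rw [mem_coe, mem_erase, mem_filter]
      refine ⟨tauT_ne F hS.1 k hS.2, mem_univ _, ?_⟩
      obtain ⟨x, hx, hx1⟩ : ∃ x ∈ S, dot k x = 1 := by
        by_contra hcon
        push Not at hcon
        apply hS.2
        intro x hx
        rcases zmod2_cases (dot k x) with h | h
        · exact h
        · exact absurd h (hcon x hx)
      refine hmain x (tauT k S) ?_ (by rw [hk', hx1]) (by rw [hk', dot_tauT])
      exact hη x _ (fun v => TT_null F hS.1 hx (tauT_mem F hS.1 k) v)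
    · intro S hS S' hS' h
      rw [mem_coe, hX, mem_filter] at hS hS'
      have h4 := tauT_mem F hS.1 k
      have h5 := tauT_mem F hS'.1 k
      have h' : tauT k S = tauT k S' := h
      rw [← h'] at h5
      exact TT_disj F hS.1 hS'.1 h4 h5 (tauT_ne F hS.1 k hS.2)
  rw [card_erase_of_mem (by simp [(rad3 T).zero_mem])] at h3
  have h6 : Nat.card (rad3 T) = (univ.filter fun y : V n => y ∈ rad3 T).card := by
    rw [Nat.card_eq_fintype_card, Fintype.card_subtype]
  have h7 : 0 < Nat.card (rad3 T) := Nat.card_pos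
  omega

/-- the counting contradiction in dimension seven -/
lemma seven_count {β : H →+ V 7 →+ V 7 →+ ZMod 2} (F : Fam β) (hTT : (TT β).card = 21)
    (hG : 4096 ≤ Nat.card (Gam β))
    (hpar : ∀ k : V 7, k ≠ 0 → (SS β k).card ≠ 21 ∧ (SS β k).card ≠ 20) : False := by
  classical
  have halt : Fintype.card (altG 7) ≤ 2 ^ 21 := by
    have h := card_altG (n := 7)
    rw [pairs7] at h
    exact h
  -- facts for every nonzero `k`
  have hfact : ∀ k : V 7, k ≠ 0 → (SS β k).card ≤ 7 ∧ (Nat.card (LL β k) = 2 → (SS β k).card ≤ 3) ∧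
      2 ≤ Nat.card (LL β k) := by
    intro k hk
    obtain ⟨i, hi, hs⟩ := LL_pow (β := β) k
    have hs1 := LL_ge_two (β := β) k hk
    have hi1 : 1 ≤ i := by
      by_contra h
      have : i = 0 := by omega
      rw [this, pow_zero] at hs
      exact hs1 hs
    have h1 := vk_bound F k
    have h2 := sid_bound F k
    have hle := SS_le (β := β) k
    have hp := hpar k hk
    rw [hTT] at h1 hle
    obtain ⟨t, ht⟩ : ∃ t, t = (SS β k).card := ⟨_, rfl⟩
    rw [← ht] at h1 h2 hle hp ⊢
    rw [hs] at h1 h2 ⊢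
    have h3 : 1 + t + t.choose 2 ≤ 4 * 2 ^ i := by
      have h4 : 4096 * 2 ^ 7 * (1 + t + t.choose 2) ≤ 2 ^ i * 2 ^ 21 := by
        calc 4096 * 2 ^ 7 * (1 + t + t.choose 2)
            ≤ Nat.card (Gam β) * 2 ^ 7 * (1 + t + t.choose 2) := by gcongr
          _ ≤ 2 ^ i * Fintype.card (altG 7) := h2
          _ ≤ _ := Nat.mul_le_mul_left _ halt
      omega
    have h5 := table t (by omega) i (by omega) hi1 h3 (by omega)
    refine ⟨h5.1, h5.2, ?_⟩
    calc 2 = 2 ^ 1 := by norm_num
      _ ≤ 2 ^ i := Nat.pow_le_pow_right (by norm_num) hi1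
  -- the inequality for pairs
  have h1 := pairs_ineq F
  rw [hTT] at h1
  have hnp : ∀ k ∈ (univ : Finset (V 7)).erase 0,
      ((Nat.card (LL β k) : ℤ) - 2) * (3 * ((SS β k).card : ℤ) - (21 : ℕ)) ≤ 0 := by
    intro k hk
    obtain ⟨f1, -, f4⟩ := hfact k (mem_erase.mp hk).1
    apply mul_nonpos_of_nonneg_of_nonpos
    · have : (2 : ℤ) ≤ Nat.card (LL β k) := by exact_mod_cast f4
      linarith
    · have : ((SS β k).card : ℤ) ≤ 7 := by exact_mod_cast f1
      push_cast
      linarith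
  have h2 : ∑ k ∈ (univ : Finset (V 7)).erase 0,
      ((Nat.card (LL β k) : ℤ) - 2) * (3 * ((SS β k).card : ℤ) - (21 : ℕ)) = 0 :=
    le_antisymm (sum_nonpos hnp) h1
  have h3 := (sum_eq_zero_iff_of_nonpos hnp).mp h2
  have h4 : ∀ k ∈ (univ : Finset (V 7)).erase 0,
      (0 : ℤ) ≤ ((SS β k).card : ℤ) ^ 2 - 10 * (SS β k).card + 21 := by
    intro k hk
    obtain ⟨f1, f2, f4⟩ := hfact k (mem_erase.mp hk).1
    have f5 := h3 k hk
    have f6 : (SS β k).card = 7 ∨ (SS β k).card ≤ 3 := by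
      rcases mul_eq_zero.mp f5 with h | h
      · right
        apply f2
        have : (Nat.card (LL β k) : ℤ) = 2 := by linarith
        exact_mod_cast this
      · left
        have : (3 : ℤ) * ((SS β k).card : ℤ) = 21 := by push_cast at h; linarith
        have h' : 3 * (SS β k).card = 21 := by exact_mod_cast this
        omega
    rcases f6 with h | h
    · rw [h]; norm_num
    · have : ((SS β k).card : ℤ) ≤ 3 := by exact_mod_cast h
      nlinarith
  have h5 := sum_nonneg h4
  rw [sum_add_distrib, sum_sub_distrib, ← mul_sum, sum_const, card_erase_of_mem (mem_univ _),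
    card_univ, card_V] at h5
  have m1 := moment1 F
  have m2 := moment2 F
  rw [hTT] at m1 m2
  rw [← add_sum_erase _ _ (mem_univ (0 : V 7)), SS_zero, hTT] at m1 m2
  have m1' : ∑ k ∈ (univ : Finset (V 7)).erase 0, (SS β k).card = 651 := by omega
  have m2' : ∑ k ∈ (univ : Finset (V 7)).erase 0, (SS β k).card ^ 2 = 3591 := by omega
  have m1z : ∑ k ∈ (univ : Finset (V 7)).erase 0, ((SS β k).card : ℤ) = 651 := by
    exact_mod_cast m1'
  have m2z : ∑ k ∈ (univ : Finset (V 7)).erase 0, ((SS β k).card : ℤ) ^ 2 = 3591 := by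
    exact_mod_cast m2'
  rw [m1z, m2z] at h5
  norm_num at h5

/-- Dimension at least nine. -/
theorem nine (hn : Odd n) (G : V n → V n) (hG : IsAPN G) (w : V n) (hw : w ≠ 0)
    (hq : ∀ v, dot v w = 0 → DegLeTwo (comp v G))
    (hr : ∀ v, v ≠ 0 → dot v w = 0 → Nat.card {a : V n // ∀ b, pol (comp v G) a b = 0} = 2)
    (v : V n) (hd : ¬ DegLeTwo (comp v G)) : 9 ≤ n := by
  classical
  obtain ⟨f', -, hd', h3, hη⟩ := cubic_of G w (comp v G) (hf_of_apn G hG w hw hq v) hd
    (fun _ => True) (fun _ _ _ => trivial) trivial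
  have h32 := index_ge G hG w hw hq (fun v h1 h2 => (hr v h1 h2).ge) f' hd' h3 hη
  have F := fam_Fam G hG w hw hq hr
  have hη' : ∀ a b, (∀ v, fam G w hq v a b = 0) → ∀ c, tri f' a b c = 0 :=
    fun a b hab c => hη a b (fun v hv => hab ⟨v, hv⟩) c
  have hgl := gam_lower F (tri_Tri h3) hη'
  have hc := F.card
  have hz := zcard_eq F
  have ht := card_TT F
  have hpos : 0 < Nat.card (rad3 (tri_Tri h3)) := Nat.card_pos
  rw [card_V] at hc
  by_contra hlt
  have hcases : n = 1 ∨ n = 3 ∨ n = 5 ∨ n = 7 := by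
    obtain ⟨m, hm⟩ := hn
    omega
  rcases hcases with rfl | rfl | rfl | rfl
  · have h1 : (2 : ℕ) ^ 1 = 2 := rfl
    omega
  · have h1 : (2 : ℕ) ^ 3 = 8 := rfl
    omega
  · have hH : Fintype.card (hyp w) = 16 := by omega
    have hTT : (TT (fam G w hq)).card = 5 := by omega
    have hrad : Nat.card (rad3 (tri_Tri h3)) = 1 := by omega
    rw [hrad, hH, one_mul] at hgl
    have hs := sid_bound_all F
    rw [hTT] at hs
    have halt : Fintype.card (altG 5) ≤ 2 ^ 10 := by
      have h := card_altG (n := 5)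
      rw [pairs5] at h
      exact h
    have hch : Nat.choose 5 2 = 10 := by decide
    rw [hch] at hs
    omega
  · have hH : Fintype.card (hyp w) = 64 := by omega
    have hTT : (TT (fam G w hq)).card = 21 := by omega
    have hpar : ∀ k : V 7, k ≠ 0 → (SS (fam G w hq) k).card ≠ 21 ∧
        (SS (fam G w hq) k).card ≠ 20 := by
      intro k hk
      have h := parity (by norm_num) G hG w hw hq F k hk 10 (by norm_num)
      constructor
      · intro h1; exact h.1 ⟨h1, by norm_num⟩
      · intro h1; exact h.2 ⟨h1, by norm_num⟩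
    -- the order of the radical
    obtain ⟨i, hi, hrad⟩ : ∃ i, i ≤ 7 ∧ Nat.card (rad3 (tri_Tri h3)) = 2 ^ i := by
      have h := AddSubgroup.card_addSubgroup_dvd_card (rad3 (tri_Tri h3)).toAddSubgroup
      rw [Nat.card_eq_fintype_card (α := V 7), card_V] at h
      exact (Nat.dvd_prime_pow Nat.prime_two).mp h
    rw [hH] at hgl
    by_cases h4 : Nat.card (rad3 (tri_Tri h3)) = 4
    · obtain ⟨k, hk, hk2⟩ := outside F (tri_Tri h3) hη'
        (by rw [h4, Nat.card_eq_fintype_card (α := V 7), card_V]; norm_num) (tri_ne h3 hd')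
      rw [h4] at hk2 hgl
      rw [hTT] at hk2
      have hle := SS_le (β := fam G w hq) k
      rw [hTT] at hle
      have hKK := card_KK k hk
      have hup := gam_upper F k hk (by omega) (by omega)
      rw [hH] at hup
      have hvk := vk_bound F k
      rw [hTT] at hvk
      have hp := hpar k hk
      have h18 : 18 ≤ (SS (fam G w hq) k).card := by omega
      have h64 : 64 ≤ Nat.card (LL (fam G w hq) k) := by omega
      have h19 : (SS (fam G w hq) k).card = 18 ∨ (SS (fam G w hq) k).card = 19 := by omega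
      rcases h19 with h | h
      · rw [h] at hvk; omega
      · rw [h] at hvk; omega
    · have h2 : Nat.card (rad3 (tri_Tri h3)) ≤ 2 := by
        rw [hrad] at h4 h32 ⊢
        have hi2 : i ≤ 2 := by
          by_contra h
          have : 2 ^ 3 ≤ 2 ^ i := Nat.pow_le_pow_right (by norm_num) (by omega)
          omega
        interval_cases i
        · norm_num
        · norm_num
        · norm_num at h4
      have h5 : 4096 ≤ Nat.card (Gam (fam G w hq)) := by
        have : Nat.card (rad3 (tri_Tri h3)) * Nat.card (Gam (fam G w hq))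
            ≤ 2 * Nat.card (Gam (fam G w hq)) := Nat.mul_le_mul_right _ h2
        omega
      exact seven_count F hTT h5 hpar

end Pool.Agent.Lib.AbHyp8
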