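import Pool.Agent.Lib.AbHyp8.Five

set_option autoImplicit false

namespace Pool.Agent.Lib.AbHyp8

open Finset

variable {n : ℕ}

lemma fam_Fam (G : V n → V n) (hG : IsAPN G) (w : V n) (hw : w ≠ 0)
    (hq : ∀ v, dot v w = 0 → DegLeTwo (comp v G))
    (hr : ∀ v, v ≠ 0 → dot v w = 0 → Nat.card {a : V n // ∀ b, pol (comp v G) a b = 0} = 2) :
    Fam (fam G w hq) where
  symm := fun v a b => pol_symm _ a b
  alt := fun v a => pol_self _ a
  card := by rw [card_hyp w hw, Nat.card_eq_fintype_card]
  rad := by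
    intro v hv
    have := hr v (fun h => hv (Subtype.ext h)) v.2
    rw [Nat.card_eq_fintype_card, Fintype.card_subtype] at this
    exact this
  N4 := fun a ha => hN_of_apn G hG w hw hq a ha

lemma dd_plane (G : V n → V n) (hG : IsAPN G) (w : V n) (hw : w ≠ 0)
    (hq : ∀ v, dot v w = 0 → DegLeTwo (comp v G)) (F : Fam (fam G w hq))
    {T : AddSubgroup (V n)} (hT : T ∈ TT (fam G w hq)) {a b : V n} (hab : IsPl T a b) (y : V n) :
    DDG G a b y = w := by
  have h0 : ∀ v, dot v w = 0 → pol (comp v G) a b = 0 := fun v hv =>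
    TT_null F hT hab.left hab.right ⟨v, hv⟩
  rcases DDG_cases G w hw hq a b h0 y with h | h
  · rcases (apn_iff G).mp hG a b y hab.1 h with h | h
    · exact absurd h hab.2.1
    · exact absurd h.symm hab.2.2.1
  · exact h

lemma half_sum {A : Type} [AddCommGroup A] (S : Finset (V n)) (c l : V n) (hl : dot l c = 1)
    (hS : ∀ x ∈ S, x + c ∈ S) (f : V n → A) :
    ∑ x ∈ S, f x = ∑ x ∈ S.filter (fun x => dot l x = 0), (f x + f (x + c)) := by
  classical
  rw [← sum_filter_add_sum_filter_not S (fun x => dot l x = 0) f, sum_add_distrib]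
  congr 1
  apply sum_nbij' (fun x => x + c) (fun x => x + c)
  · intro x hx
    rw [mem_filter] at hx ⊢
    refine ⟨hS x hx.1, ?_⟩
    rw [dot_add_right, hl, zmod2_ne _ hx.2]; decide
  · intro x hx
    rw [mem_filter] at hx ⊢
    refine ⟨hS x hx.1, ?_⟩
    rw [dot_add_right, hl, hx.2]; decide
  · intro x _
    rw [add_assoc, vv, add_zero]
  · intro x _
    rw [add_assoc, vv, add_zero]
  · intro x _
    rw [add_assoc, vv, add_zero]

lemma sum_hyper (hn : 4 ≤ n) (G : V n → V n) (hG : IsAPN G) (w : V n) (hw : w ≠ 0)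
    (hq : ∀ v, dot v w = 0 → DegLeTwo (comp v G)) (F : Fam (fam G w hq)) (k : V n)
    {T : AddSubgroup (V n)} (hT : T ∈ SS (fam G w hq) k) (y : V n) :
    ∑ x ∈ univ.filter (fun x : V n => dot k x = 0), G (y + x) = 0 := by
  classical
  rw [mem_SS] at hT
  obtain ⟨a, b, hab⟩ : ∃ a b, IsPl T a b := ⟨_, _, pp_spec F hT.1⟩
  have hka := hT.2 a hab.left
  have hkb := hT.2 b hab.right
  -- functionals
  obtain ⟨l1, hl1b, hl1a⟩ := sep (AddSubgroup.zmultiples b) a (by
    intro h
    rcases zmul_cases b a h with h | h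
    · exact hab.1 h
    · exact hab.2.2.1 h)
  have hl1b' : dot l1 b = 0 := hl1b b (AddSubgroup.mem_zmultiples b)
  obtain ⟨l2, -, hl2b⟩ := sep (⊥ : AddSubgroup (V n)) b (fun h => hab.2.1 (by simpa using h))
  -- a vector killed by the three functionals
  obtain ⟨c, hc0, hck, hc1, hc2⟩ : ∃ c : V n, c ≠ 0 ∧ dot k c = 0 ∧ dot l1 c = 0 ∧ dot l2 c = 0 := by
    have hlt : Fintype.card (ZMod 2 × (ZMod 2 × ZMod 2)) < Fintype.card (V n) := by
      rw [Fintype.card_prod, Fintype.card_prod, ZMod.card, card_V]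
      calc 2 * (2 * 2) < 2 ^ 4 := by norm_num
        _ ≤ 2 ^ n := Nat.pow_le_pow_right (by norm_num) hn
    obtain ⟨x, x', hne, heq⟩ := Fintype.exists_ne_map_eq_of_card_lt
      (fun x : V n => (dot k x, (dot l1 x, dot l2 x))) hlt
    simp only [Prod.mk.injEq] at heq
    refine ⟨x + x', fun h => hne (eq_of_add_zero _ _ h), ?_, ?_, ?_⟩
    · rw [dot_add_right, heq.1, tt]
    · rw [dot_add_right, heq.2.1, tt]
    · rw [dot_add_right, heq.2.2, tt]
  obtain ⟨l3, -, hl3⟩ := sep (⊥ : AddSubgroup (V n)) c (fun h => hc0 (by simpa using h))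
  rw [half_sum _ a l1 hl1a (by
    intro x hx
    rw [mem_filter] at hx ⊢
    exact ⟨mem_univ _, by rw [dot_add_right, hx.2, hka, add_zero]⟩)]
  rw [half_sum _ b l2 hl2b (by
    intro x hx
    simp only [mem_filter, mem_univ, true_and] at hx ⊢
    exact ⟨by rw [dot_add_right, hx.1, hkb, add_zero],
      by rw [dot_add_right, hx.2, hl1b', add_zero]⟩)]
  rw [half_sum _ c l3 hl3 (by
    intro x hx
    simp only [mem_filter, mem_univ, true_and] at hx ⊢
    exact ⟨⟨by rw [dot_add_right, hx.1.1, hck, add_zero],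
      by rw [dot_add_right, hx.1.2, hc1, add_zero]⟩, by rw [dot_add_right, hx.2, hc2, add_zero]⟩)]
  apply sum_eq_zero
  intro x _
  have key : ∀ z : V n, G (y + z) + G (y + (z + a)) + (G (y + (z + b)) + G (y + (z + b + a))) = w := by
    intro z
    have h := dd_plane G hG w hw hq F hT.1 hab (y + z)
    unfold DDG at h
    rw [← h]
    have e1 : y + (z + a) = y + z + a := by abel
    have e2 : y + (z + b) = y + z + b := by abel
    have e3 : y + (z + b + a) = y + z + a + b := by abel
    rw [e1, e2, e3]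
    abel
  rw [key, key, vv]

lemma two_mul_smul (m : ℕ) (z : V n) : (2 * m) • z = 0 := by
  rw [mul_comm, mul_smul, two_smul, vv, smul_zero]

/-- relation of all values of `G` on a coset of `ker k` -/
lemma relation (hn : 4 ≤ n) (G : V n → V n) (hG : IsAPN G) (w : V n) (hw : w ≠ 0)
    (hq : ∀ v, dot v w = 0 → DegLeTwo (comp v G)) (F : Fam (fam G w hq)) (k : V n) (hk : k ≠ 0)
    (hne : 0 < (SS (fam G w hq) k).card) :
    ∃ R : Finset (V n), R.card + 3 * (SS (fam G w hq) k).card + 1 = 2 ^ (n - 1) ∧ 0 ∉ R ∧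
      ∀ y, G y + ((SS (fam G w hq) k).card • (w + G y) + ∑ x ∈ R, G (y + x)) = 0 := by
  classical
  obtain ⟨T, hT⟩ := card_pos.mp hne
  obtain ⟨K0, hK0⟩ : ∃ K0, K0 = univ.filter (fun x : V n => dot k x = 0) := ⟨_, rfl⟩
  have hsub : UU (fam G w hq) k ⊆ K0.erase 0 := by
    intro x hx
    obtain ⟨T, hT, hxT, hx0⟩ := (mem_UU k x).mp hx
    rw [mem_erase, hK0, mem_filter]
    exact ⟨hx0, mem_univ _, ((mem_SS k T).mp hT).2 x hxT⟩
  have h0K : (0 : V n) ∈ K0 := by
    rw [hK0, mem_filter]; exact ⟨mem_univ _, dot_zero_right k⟩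
  have hcK : K0.card = 2 ^ (n - 1) := by
    have h := card_KK k hk
    have h2 : Nat.card (KK k) = K0.card := by
      rw [Nat.card_eq_fintype_card, Fintype.card_subtype, hK0]
      exact congrArg Finset.card (filter_congr (fun x _ => mem_KK k x))
    rw [h2] at h
    have h3 : 2 ^ n = 2 * 2 ^ (n - 1) := by
      rw [← pow_succ', Nat.sub_add_cancel (by omega)]
    omega
  refine ⟨(K0.erase 0) \ UU (fam G w hq) k, ?_, ?_, ?_⟩
  · have h1 := card_sdiff_add_card_eq_card hsub
    rw [card_UU F k, card_erase_of_mem h0K] at h1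
    have : 0 < K0.card := card_pos.mpr ⟨0, h0K⟩
    omega
  · rw [mem_sdiff, mem_erase]
    rintro ⟨⟨h, -⟩, -⟩; exact h rfl
  · intro y
    have h1 := sum_hyper hn G hG w hw hq F k hT y
    rw [← hK0, ← add_sum_erase _ _ h0K, add_zero, ← sum_sdiff hsub, sum_UU F k] at h1
    have h2 : ∀ T ∈ SS (fam G w hq) k, ∑ x ∈ pts T, G (y + x) = w + G y := by
      intro T hT
      have hT' := (mem_SS k T).mp hT
      have hp := pp_spec F hT'.1
      rw [sum_pts hp (fun x => G (y + x))]
      have h := dd_plane G hG w hw hq F hT'.1 hp y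
      unfold DDG at h
      have e3 : y + ((pp T).1 + (pp T).2) = y + (pp T).1 + (pp T).2 := by abel
      rw [e3]
      calc G (y + (pp T).1) + (G (y + (pp T).2) + G (y + (pp T).1 + (pp T).2))
          = (G (y + (pp T).1 + (pp T).2) + G (y + (pp T).1) + (G (y + (pp T).2) + G y)) + G y := by
            have := vv (G y)
            calc G (y + (pp T).1) + (G (y + (pp T).2) + G (y + (pp T).1 + (pp T).2))
                = G (y + (pp T).1) + (G (y + (pp T).2) + G (y + (pp T).1 + (pp T).2))
                  + (G y + G y) := by rw [this, add_zero]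
              _ = _ := by abel
        _ = w + G y := by rw [h]
    rw [sum_congr rfl h2, sum_const] at h1
    refine Eq.trans ?_ h1
    abel

/-- no hyperplane contains all planes, or all planes but one -/
theorem parity (hn : 4 ≤ n) (G : V n → V n) (hG : IsAPN G) (w : V n) (hw : w ≠ 0)
    (hq : ∀ v, dot v w = 0 → DegLeTwo (comp v G)) (F : Fam (fam G w hq)) (k : V n) (hk : k ≠ 0)
    (m : ℕ) (hm : 0 < m) :
    ¬ ((SS (fam G w hq) k).card = 2 * m + 1 ∧ 3 * (2 * m + 1) + 1 = 2 ^ (n - 1)) ∧
    ¬ ((SS (fam G w hq) k).card = 2 * m ∧ 3 * (2 * m) + 4 = 2 ^ (n - 1)) := by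
  classical
  constructor
  · rintro ⟨h1, h2⟩
    obtain ⟨R, hR, -, hrel⟩ := relation hn G hG w hw hq F k hk (by omega)
    have hR0 : R = ∅ := card_eq_zero.mp (by omega)
    have h := hrel 0
    rw [h1, add_smul, two_mul_smul, one_smul, zero_add, hR0, sum_empty, add_zero] at h
    apply hw
    calc w = G 0 + (w + G 0) := by
          have := vv (G 0)
          calc w = w + (G 0 + G 0) := by rw [this, add_zero]
            _ = _ := by abel
      _ = 0 := h
  · rintro ⟨h1, h2⟩
    obtain ⟨R, hR, hR0, hrel⟩ := relation hn G hG w hw hq F k hk (by omega)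
    have hR3 : R.card = 3 := by omega
    obtain ⟨q1, q2, q3, h12, h13, h23, rfl⟩ := card_eq_three.mp hR3
    simp only [mem_insert, mem_singleton, not_or] at hR0
    have hrel' : ∀ y, G y + (G (y + q1) + (G (y + q2) + G (y + q3))) = 0 := by
      intro y
      have h := hrel y
      rw [h1, two_mul_smul, zero_add, sum_insert (by simp [h12, h13]), sum_pair h23] at h
      exact h
    -- the sum of the three vectors is in all radicals
    have hrad : ∀ v, dot v w = 0 → ∀ z, pol (comp v G) (q1 + q2 + q3) z = 0 := by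
      intro v hv z
      have hd := hq v hv
      have e1 : comp v G 0 + (comp v G q1 + (comp v G q2 + comp v G q3)) = 0 := by
        have h := congrArg (dot v) (hrel' 0)
        rw [dot_add_right, dot_add_right, dot_add_right, dot_zero_right, zero_add, zero_add,
          zero_add] at h
        exact h
      have e2 : comp v G z + (comp v G (z + q1) + (comp v G (z + q2) + comp v G (z + q3))) = 0 := by
        have h := congrArg (dot v) (hrel' z)
        rw [dot_add_right, dot_add_right, dot_add_right, dot_zero_right] at h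
        exact h
      have s1 := quad_shift hd z q1
      have s2 := quad_shift hd z q2
      have s3 := quad_shift hd z q3
      rw [pol_add hd, pol_add hd, pol_symm _ q1, pol_symm _ q2, pol_symm _ q3]
      generalize comp v G z = u0 at *
      generalize comp v G (z + q1) = u1 at *
      generalize comp v G (z + q2) = u2 at *
      generalize comp v G (z + q3) = u3 at *
      generalize comp v G q1 = t1 at *
      generalize comp v G q2 = t2 at *
      generalize comp v G q3 = t3 at *
      generalize comp v G 0 = t0 at *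
      generalize pol (comp v G) z q1 = p1 at *
      generalize pol (comp v G) z q2 = p2 at *
      generalize pol (comp v G) z q3 = p3 at *
      have f1 : p1 = u1 + u0 + t1 + t0 := by
        have : ∀ u1 u0 t1 t0 p1 : ZMod 2, u1 + u0 = t1 + t0 + p1 → p1 = u1 + u0 + t1 + t0 := by
          decide
        exact this _ _ _ _ _ s1
      have f2 : p2 = u2 + u0 + t2 + t0 := by
        have : ∀ u1 u0 t1 t0 p1 : ZMod 2, u1 + u0 = t1 + t0 + p1 → p1 = u1 + u0 + t1 + t0 := by
          decide
        exact this _ _ _ _ _ s2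
      have f3 : p3 = u3 + u0 + t3 + t0 := by
        have : ∀ u1 u0 t1 t0 p1 : ZMod 2, u1 + u0 = t1 + t0 + p1 → p1 = u1 + u0 + t1 + t0 := by
          decide
        exact this _ _ _ _ _ s3
      rw [f1, f2, f3]
      have e : u1 + u0 + t1 + t0 + (u2 + u0 + t2 + t0) + (u3 + u0 + t3 + t0)
          = (u0 + (u1 + (u2 + u3))) + (t0 + (t1 + (t2 + t3))) + ((u0 + u0) + (t0 + t0)) := by ring
      rw [e, e1, e2, tt u0, tt t0, add_zero, add_zero]
    have hsum0 : q1 + q2 + q3 = 0 := by
      by_contra h0
      have h4 := F.N4 _ h0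
      have h5 : NN (fam G w hq) (q1 + q2 + q3) = univ := by
        ext z
        simp only [mem_univ, iff_true]
        exact mem_filter.mpr ⟨mem_univ _, fun v => hrad v v.2 z⟩
      rw [h5, card_univ, card_V] at h4
      have h6 : 2 ^ 4 ≤ 2 ^ n := Nat.pow_le_pow_right (by norm_num) hn
      omega
    have h3 : q3 = q1 + q2 := (eq_of_add_zero _ _ hsum0).symm
    have h7 : DDG G q1 q2 0 = 0 := by
      have h := hrel' 0
      rw [h3] at h
      refine Eq.trans ?_ h
      unfold DDG
      simp only [zero_add]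
      abel
    rcases (apn_iff G).mp hG q1 q2 0 (Ne.symm hR0.1) h7 with h | h
    · exact hR0.2.1 h.symm
    · exact h12 h.symm

end Pool.Agent.Lib.AbHyp8
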