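import Pool.Agent.Lib.AbHyp8.Dual

set_option autoImplicit false

namespace Pool.Agent.Lib.AbHyp8

open Finset

variable {n : ℕ} {H : Type} [AddCommGroup H] [Fintype H]

lemma eq_of_add_zero (a b : V n) (h : a + b = 0) : a = b := by
  calc a = a + (b + b) := by rw [vv, add_zero]
    _ = (a + b) + b := by abel
    _ = b := by rw [h, zero_add]

/-- the subgroup `T` is the plane `{0, a, b, a + b}` -/
def IsPl (T : AddSubgroup (V n)) (a b : V n) : Prop :=
  a ≠ 0 ∧ b ≠ 0 ∧ a ≠ b ∧ ∀ x, x ∈ T ↔ x = 0 ∨ x = a ∨ x = b ∨ x = a + b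

lemma card_four (a b : V n) (ha : a ≠ 0) (hb : b ≠ 0) (hab : a ≠ b) :
    ({0, a, b, a + b} : Finset (V n)).card = 4 := by
  have h1 : a + b ≠ 0 := fun h => hab (eq_of_add_zero a b h)
  have h2 : a + b ≠ a := fun h => hb (by simpa using h)
  have h3 : a + b ≠ b := fun h => ha (by simpa using h)
  rw [card_insert_of_notMem, card_insert_of_notMem, card_insert_of_notMem, card_singleton]
  · simp only [mem_singleton]; exact fun h => h3 h.symm
  · simp only [mem_insert, mem_singleton, not_or]
    exact ⟨hab, fun h => h2 h.symm⟩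
  · simp only [mem_insert, mem_singleton, not_or]
    exact ⟨ha.symm, hb.symm, h1.symm⟩

lemma pl_of_card (S : AddSubgroup (V n)) (hc : Nat.card S ≤ 4) (a b : V n) (haS : a ∈ S)
    (hbS : b ∈ S) (ha : a ≠ 0) (hb : b ≠ 0) (hab : a ≠ b) : IsPl S a b := by
  classical
  refine ⟨ha, hb, hab, ?_⟩
  have hsub : ({0, a, b, a + b} : Finset (V n)) ⊆ univ.filter fun x => x ∈ S := by
    intro x hx
    simp only [mem_insert, mem_singleton] at hx
    rw [mem_filter]
    refine ⟨mem_univ _, ?_⟩
    rcases hx with rfl | rfl | rfl | rfl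
    · exact S.zero_mem
    · exact haS
    · exact hbS
    · exact S.add_mem haS hbS
  have h4 := card_four a b ha hb hab
  have hcc : (univ.filter fun x : V n => x ∈ S).card ≤ 4 := by
    rw [Nat.card_eq_fintype_card, Fintype.card_subtype] at hc
    exact hc
  have heq := eq_of_subset_of_card_le hsub (by rw [h4]; exact hcc)
  intro x
  have : x ∈ ({0, a, b, a + b} : Finset (V n)) ↔ x ∈ univ.filter fun x : V n => x ∈ S := by
    rw [heq]
  simp only [mem_insert, mem_singleton, mem_filter, mem_univ, true_and] at this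
  exact this.symm

lemma IsPl.card {T : AddSubgroup (V n)} {a b : V n} (h : IsPl T a b) : Nat.card T = 4 := by
  classical
  obtain ⟨ha, hb, hab, hm⟩ := h
  rw [Nat.card_eq_fintype_card, Fintype.card_subtype, ← card_four a b ha hb hab]
  congr 1
  ext x
  simp only [mem_insert, mem_singleton, mem_filter, mem_univ, true_and]
  exact hm x

lemma IsPl.left {T : AddSubgroup (V n)} {a b : V n} (h : IsPl T a b) : a ∈ T :=
  (h.2.2.2 a).mpr (Or.inr (Or.inl rfl))

lemma IsPl.right {T : AddSubgroup (V n)} {a b : V n} (h : IsPl T a b) : b ∈ T :=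
  (h.2.2.2 b).mpr (Or.inr (Or.inr (Or.inl rfl)))

variable (β : H →+ V n →+ V n →+ ZMod 2)

/-- the hypotheses on the family of forms -/
structure Fam (β : H →+ V n →+ V n →+ ZMod 2) : Prop where
  symm : ∀ v a b, β v a b = β v b a
  alt : ∀ v a, β v a a = 0
  card : Fintype.card (V n) = 2 * Fintype.card H
  rad : ∀ v : H, v ≠ 0 → (univ.filter fun a : V n => ∀ b, β v a b = 0).card = 2
  N4 : ∀ a : V n, a ≠ 0 → (NN β a).card ≤ 4

/-- the kernel of `a` as a subgroup -/
def NS (a : V n) : AddSubgroup (V n) where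
  carrier := {b | ∀ v, β v a b = 0}
  add_mem' := by
    intro x y hx hy v
    rw [map_add, hx v, hy v, add_zero]
  zero_mem' := fun v => map_zero _
  neg_mem' := by
    intro x hx v
    rw [map_neg, hx v, neg_zero]

lemma mem_NS (a b : V n) : b ∈ NS β a ↔ ∀ v, β v a b = 0 := Iff.rfl

lemma card_NS (a : V n) : Nat.card (NS β a) = (NN β a).card := by
  classical
  rw [Nat.card_eq_fintype_card, Fintype.card_subtype]
  congr 1
  ext x
  simp only [NN, mem_filter, mem_univ, true_and]
  exact Iff.rfl

variable {β}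

lemma zcard_eq (F : Fam β) : (ZZ β).card + 1 = Fintype.card H := by
  classical
  have hM1 : ∀ a, 1 ≤ (MM β a).card := by
    intro a
    apply Finset.card_pos.mpr
    exact ⟨0, by simp [MM]⟩
  have h1 : ∑ v ∈ univ.erase (0 : H), ((univ.erase (0 : V n)).filter fun a => ∀ b, β v a b = 0).card
      = Fintype.card H - 1 := by
    have : ∀ v ∈ univ.erase (0 : H),
        ((univ.erase (0 : V n)).filter fun a => ∀ b, β v a b = 0).card = 1 := by
      intro v hv
      have hv0 : v ≠ 0 := (Finset.mem_erase.mp hv).1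
      have h := F.rad v hv0
      have he : ((univ.erase (0 : V n)).filter fun a => ∀ b, β v a b = 0)
          = (univ.filter fun a : V n => ∀ b, β v a b = 0).erase 0 := by
        ext a; simp [and_comm]
      rw [he, Finset.card_erase_of_mem (by simp), h]
    rw [sum_congr rfl this]
    simp [Finset.card_erase_of_mem]
  have h2 : ∑ v ∈ univ.erase (0 : H), ((univ.erase (0 : V n)).filter fun a => ∀ b, β v a b = 0).card
      = ∑ a ∈ univ.erase (0 : V n), ((univ.erase (0 : H)).filter fun v => ∀ b, β v a b = 0).card := by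
    simp only [card_filter]
    rw [sum_comm]
  have h3 : ∀ a ∈ univ.erase (0 : V n),
      ((univ.erase (0 : H)).filter fun v => ∀ b, β v a b = 0).card
        = if (NN β a).card = 4 then 1 else 0 := by
    intro a ha
    have ha0 : a ≠ 0 := (Finset.mem_erase.mp ha).1
    have he : ((univ.erase (0 : H)).filter fun v => ∀ b, β v a b = 0) = (MM β a).erase 0 := by
      ext v; simp [MM, and_comm]
    rw [he, Finset.card_erase_of_mem (by simp [MM])]
    have hn := nm2 β F.card a
    have hl := F.N4 a ha0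
    have hm := hM1 a
    split_ifs with h4 <;> omega
  rw [h2, sum_congr rfl h3, ← card_filter] at h1
  have hz : (univ.erase (0 : V n)).filter (fun a => (NN β a).card = 4) = ZZ β := by
    ext a; simp [ZZ]
  rw [hz] at h1
  have hp : 0 < Fintype.card H := Fintype.card_pos
  omega

lemma mem_ZZ (a : V n) : a ∈ ZZ β ↔ a ≠ 0 ∧ (NN β a).card = 4 := by
  simp only [ZZ, mem_filter, mem_univ, true_and]

lemma NS_plane (F : Fam β) (a : V n) (ha : a ∈ ZZ β) : ∃ b, IsPl (NS β a) a b := by
  classical
  rw [mem_ZZ] at ha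
  obtain ⟨ha0, ha4⟩ := ha
  obtain ⟨y, hy, hy0, hya⟩ : ∃ y ∈ NN β a, y ≠ 0 ∧ y ≠ a := by
    by_contra hcon
    push Not at hcon
    have hsub : NN β a ⊆ {0, a} := by
      intro y hy
      rw [mem_insert, mem_singleton]
      by_cases h : y = 0
      · exact Or.inl h
      · exact Or.inr (hcon y hy h)
    have := card_le_card hsub
    have h2 : ({0, a} : Finset (V n)).card ≤ 2 := card_le_two
    omega
  refine ⟨y, pl_of_card _ ?_ a y (fun v => F.alt v a) (mem_filter.mp hy).2 ha0 hy0 hya.symm⟩
  rw [card_NS, ha4]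

lemma NS_eq (F : Fam β) (a : V n) (ha : a ∈ ZZ β) (x : V n) (hx : x ∈ NS β a) (hx0 : x ≠ 0) :
    NS β x = NS β a ∧ x ∈ ZZ β := by
  classical
  by_cases hxa : x = a
  · rw [hxa]; exact ⟨rfl, ha⟩
  · have ha' := (mem_ZZ a).mp ha
    have h1 : IsPl (NS β a) a x := pl_of_card _ (by rw [card_NS, ha'.2]) a x
      (fun v => F.alt v a) hx ha'.1 hx0 (Ne.symm hxa)
    have h2 : IsPl (NS β x) x a := pl_of_card _ (by rw [card_NS]; exact F.N4 x hx0) x a
      (fun v => F.alt v x) (fun v => by rw [F.symm]; exact hx v) hx0 ha'.1 hxa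
    constructor
    · ext y
      rw [h1.2.2.2, h2.2.2.2, add_comm x a]
      tauto
    · rw [mem_ZZ]
      exact ⟨hx0, by rw [← card_NS]; exact h2.card⟩

open Classical in
/-- the set of planes -/
noncomputable def TT (β : H →+ V n →+ V n →+ ZMod 2) : Finset (AddSubgroup (V n)) :=
  (ZZ β).image (NS β)

lemma mem_TT (T : AddSubgroup (V n)) : T ∈ TT β ↔ ∃ a ∈ ZZ β, NS β a = T := by
  classical
  unfold TT
  rw [mem_image]

lemma TT_eq (F : Fam β) {T : AddSubgroup (V n)} (hT : T ∈ TT β) {x : V n} (hx : x ∈ T)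
    (hx0 : x ≠ 0) : NS β x = T ∧ x ∈ ZZ β := by
  obtain ⟨a, ha, rfl⟩ := (mem_TT T).mp hT
  exact NS_eq F a ha x hx hx0

lemma TT_disj (F : Fam β) {T T' : AddSubgroup (V n)} (hT : T ∈ TT β) (hT' : T' ∈ TT β)
    {x : V n} (hx : x ∈ T) (hx' : x ∈ T') (hx0 : x ≠ 0) : T = T' :=
  (TT_eq F hT hx hx0).1.symm.trans (TT_eq F hT' hx' hx0).1

lemma TT_null (F : Fam β) {T : AddSubgroup (V n)} (hT : T ∈ TT β) {x y : V n} (hx : x ∈ T)
    (hy : y ∈ T) (v : H) : β v x y = 0 := by
  by_cases hx0 : x = 0
  · rw [hx0, map_zero, AddMonoidHom.zero_apply]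
  · have h := (TT_eq F hT hx hx0).1
    rw [← h] at hy
    exact hy v

lemma TT_plane (F : Fam β) {T : AddSubgroup (V n)} (hT : T ∈ TT β) : ∃ a b, IsPl T a b := by
  obtain ⟨a, ha, rfl⟩ := (mem_TT T).mp hT
  obtain ⟨b, hb⟩ := NS_plane F a ha
  exact ⟨a, b, hb⟩

lemma card_TT (F : Fam β) : 3 * (TT β).card = (ZZ β).card := by
  classical
  have h := card_eq_sum_card_image (NS β) (ZZ β)
  have h2 : ∀ T ∈ (ZZ β).image (NS β), ((ZZ β).filter fun a => NS β a = T).card = 3 := by
    intro T hT
    have hT' : T ∈ TT β := by rw [mem_TT]; exact mem_image.mp hT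
    obtain ⟨a, b, hab⟩ := TT_plane F hT'
    have e : ((ZZ β).filter fun a => NS β a = T) = ({0, a, b, a + b} : Finset (V n)).erase 0 := by
      ext x
      rw [mem_filter, mem_erase]
      constructor
      · rintro ⟨h1, h2⟩
        refine ⟨((mem_ZZ x).mp h1).1, ?_⟩
        have hx : x ∈ T := by rw [← h2]; exact fun v => F.alt v x
        simp only [mem_insert, mem_singleton]
        exact (hab.2.2.2 x).mp hx
      · rintro ⟨h1, h2⟩
        simp only [mem_insert, mem_singleton] at h2
        have hx : x ∈ T := (hab.2.2.2 x).mpr h2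
        have := TT_eq F hT' hx h1
        exact ⟨this.2, this.1⟩
    rw [e, card_erase_of_mem (by simp), card_four a b hab.1 hab.2.1 hab.2.2.1]
  rw [sum_congr rfl h2, sum_const, smul_eq_mul] at h
  rw [h, mul_comm]
  rfl

/-! alternating forms -/

/-- `k ∧ l` -/
def wedge (k l : V n) : V n →+ V n →+ ZMod 2 :=
  AddMonoidHom.mk' (fun a => AddMonoidHom.mk' (fun b => dot k a * dot l b + dot k b * dot l a)
    (fun x y => by rw [dot_add_right, dot_add_right]; ring))
    (fun x y => AddMonoidHom.ext fun b => by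
      change dot k (x + y) * dot l b + dot k b * dot l (x + y) =
        (dot k x * dot l b + dot k b * dot l x) + (dot k y * dot l b + dot k b * dot l y)
      rw [dot_add_right, dot_add_right]; ring)

lemma wedge_apply (k l a b : V n) : wedge k l a b = dot k a * dot l b + dot k b * dot l a := rfl

lemma wedge_self (k l a : V n) : wedge k l a a = 0 := by rw [wedge_apply, tt]

/-- the point of the plane killed by `l` -/
def tau (l a b : V n) : V n := dot l a • b + dot l b • a

lemma wedge_tau (k l a b : V n) : wedge k l a b = dot l (tau k a b) := by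
  rw [wedge_apply, tau, dot_add_right, dot_smul_right, dot_smul_right]

open Classical in
/-- a basis of a plane -/
noncomputable def pp (T : AddSubgroup (V n)) : V n × V n :=
  if h : ∃ p : V n × V n, IsPl T p.1 p.2 then h.choose else 0

lemma pp_spec (F : Fam β) {T : AddSubgroup (V n)} (hT : T ∈ TT β) :
    IsPl T (pp T).1 (pp T).2 := by
  obtain ⟨a, b, hab⟩ := TT_plane F hT
  have h : ∃ p : V n × V n, IsPl T p.1 p.2 := ⟨(a, b), hab⟩
  unfold pp
  rw [dif_pos h]
  exact h.choose_spec

/-- value of a form on a plane -/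
noncomputable def ev (γ : V n →+ V n →+ ZMod 2) (T : AddSubgroup (V n)) : ZMod 2 :=
  γ (pp T).1 (pp T).2

/-- the point of the plane killed by `l` -/
noncomputable def tauT (l : V n) (T : AddSubgroup (V n)) : V n := tau l (pp T).1 (pp T).2

lemma ev_wedge (k l : V n) (T : AddSubgroup (V n)) : ev (wedge k l) T = dot l (tauT k T) :=
  wedge_tau k l _ _

lemma tauT_mem (F : Fam β) {T : AddSubgroup (V n)} (hT : T ∈ TT β) (l : V n) :
    tauT l T ∈ T := by
  have h := pp_spec F hT
  unfold tauT tau
  rcases zmod2_cases (dot l (pp T).1) with h1 | h1 <;>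
    rcases zmod2_cases (dot l (pp T).2) with h2 | h2 <;>
    simp only [h1, h2, zero_smul, one_smul, add_zero, zero_add]
  · exact T.zero_mem
  · exact h.left
  · exact h.right
  · exact T.add_mem h.right h.left

lemma tauT_ann {T : AddSubgroup (V n)} (l : V n) (F : Fam β) (hT : T ∈ TT β) (hl : l ∈ ann T) :
    tauT l T = 0 := by
  have h := pp_spec F hT
  unfold tauT tau
  rw [hl _ h.left, hl _ h.right, zero_smul, zero_smul, add_zero]

lemma tauT_ne (F : Fam β) {T : AddSubgroup (V n)} (hT : T ∈ TT β) (l : V n)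
    (hl : l ∉ ann T) : tauT l T ≠ 0 := by
  have h := pp_spec F hT
  unfold tauT tau
  rcases zmod2_cases (dot l (pp T).1) with h1 | h1 <;>
    rcases zmod2_cases (dot l (pp T).2) with h2 | h2 <;>
    simp only [h1, h2, zero_smul, one_smul, add_zero, zero_add]
  · exfalso
    apply hl
    intro x hx
    rcases (h.2.2.2 x).mp hx with rfl | rfl | rfl | rfl
    · exact dot_zero_right l
    · exact h1
    · exact h2
    · rw [dot_add_right, h1, h2, add_zero]
  · exact h.1
  · exact h.2.1
  · intro h0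
    exact h.2.2.1 (eq_of_add_zero _ _ h0).symm

lemma dot_tauT (l : V n) (T : AddSubgroup (V n)) : dot l (tauT l T) = 0 := by
  rw [← ev_wedge]
  unfold ev
  rw [wedge_apply]
  have : ∀ s t : ZMod 2, s * t + t * s = 0 := by decide
  exact this _ _

end Pool.Agent.Lib.AbHyp8
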