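import Pool.Agent.Lib.AbHyp8.Basic

set_option autoImplicit false

namespace Pool.Agent.Lib.AbHyp8

open Finset

variable {n : ℕ}

/-- periods of a function -/
def inv (f : V n → ZMod 2) : Finset (V n) := univ.filter fun y => ∀ x, f (x + y) = f x

lemma inv_lt (f : V n → ZMod 2) (y : V n) (hy : ¬ DegLeTwo (D y f)) :
    (inv f).card < (inv (D y f)).card := by
  apply card_lt_card
  rw [ssubset_iff_of_subset]
  · refine ⟨y, ?_, ?_⟩
    · simp only [inv, mem_filter, mem_univ, true_and]
      intro x
      have h := D_self y f x
      conv_lhs at h => rw [D]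
      have h2 : ∀ s t : ZMod 2, s + t = 0 → s = t := by decide
      exact h2 _ _ h
    · intro h
      simp only [inv, mem_filter, mem_univ, true_and] at h
      apply hy
      have : D y f = fun _ => 0 := by
        funext x
        simp only [D]; rw [h x, tt]
      rw [this]
      exact degLeTwo_const 0
  · intro z hz
    simp only [inv, mem_filter, mem_univ, true_and] at hz ⊢
    intro x
    simp only [D]
    rw [add_right_comm, hz, hz]

/-- a function of degree at least three, in a class closed under derivatives, has an iterated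
derivative of degree exactly three -/
lemma reduce (C : (V n → ZMod 2) → Prop) (hC : ∀ f y, C f → C (D y f)) :
    ∀ (N : ℕ) (f : V n → ZMod 2), Fintype.card (V n) - (inv f).card ≤ N → C f → ¬ DegLeTwo f →
      ∃ f', C f' ∧ ¬ DegLeTwo f' ∧ ∀ y, DegLeTwo (D y f') := by
  intro N
  induction N with
  | zero =>
    intro f hN hf hd
    exfalso
    apply hd
    have h1 : (inv f).card = Fintype.card (V n) := by
      have := card_le_univ (inv f)
      omega
    have h2 : inv f = univ := (card_eq_iff_eq_univ _).mp h1
    have h3 : ∀ y, D y f = fun _ => 0 := by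
      intro y
      funext x
      have hy : y ∈ inv f := by rw [h2]; exact mem_univ y
      simp only [inv, mem_filter, mem_univ, true_and] at hy
      simp only [D]; rw [hy x, tt]
    intro a b c x
    rw [h3 c, D_zero_fun, D_zero_fun]
  | succ N ih =>
    intro f hN hf hd
    by_cases h : ∀ y, DegLeTwo (D y f)
    · exact ⟨f, hf, hd, h⟩
    · push Not at h
      obtain ⟨y, hy⟩ := h
      have hlt := inv_lt f y hy
      refine ih (D y f) ?_ (hC f y hf) hy
      omega

/-- the trilinear form of a function of degree three -/
def tri (f : V n → ZMod 2) (a b c : V n) : ZMod 2 := D a (D b (D c f)) 0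

lemma tri_const {f : V n → ZMod 2} (hf : ∀ y, DegLeTwo (D y f)) (a b c x : V n) :
    D a (D b (D c f)) x = tri f a b c := by
  have h := (hf c).D_const a b x 0
  exact h

lemma tri_Tri {f : V n → ZMod 2} (hf : ∀ y, DegLeTwo (D y f)) : Tri (tri f) where
  add := by
    intro x y b c
    simp only [tri]
    rw [D_add, (hf c) x y b 0, add_zero]
  s1 := by
    intro a b c
    simp only [tri]
    rw [D_comm]
  s2 := by
    intro a b c
    simp only [tri]
    rw [D_comm b c]
  alt := by
    intro a c
    simp only [tri]
    rw [D_self]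

lemma tri_ne {f : V n → ZMod 2} (hf : ∀ y, DegLeTwo (D y f)) (hd : ¬ DegLeTwo f) :
    ∃ a b c, tri f a b c ≠ 0 := by
  by_contra hcon
  push Not at hcon
  apply hd
  intro a b c x
  rw [tri_const hf, hcon]

/-- the alternating form of a function of degree two -/
def pol (f : V n → ZMod 2) (a b : V n) : ZMod 2 := D a (D b f) 0

lemma pol_const {f : V n → ZMod 2} (hf : DegLeTwo f) (a b x : V n) :
    D a (D b f) x = pol f a b := hf.D_const a b x 0

lemma pol_add {f : V n → ZMod 2} (hf : DegLeTwo f) (x y b : V n) :
    pol f (x + y) b = pol f x b + pol f y b := by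
  simp only [pol]
  rw [D_add, hf, add_zero]

lemma pol_symm (f : V n → ZMod 2) (a b : V n) : pol f a b = pol f b a := by
  simp only [pol]
  rw [D_comm]

lemma pol_add2 {f : V n → ZMod 2} (hf : DegLeTwo f) (b x y : V n) :
    pol f b (x + y) = pol f b x + pol f b y := by
  rw [pol_symm, pol_add hf, pol_symm f x, pol_symm f y]

lemma pol_self (f : V n → ZMod 2) (a : V n) : pol f a a = 0 := D_self a f 0

lemma pol_zero (f : V n → ZMod 2) (a : V n) : pol f 0 a = 0 := D_zero _ 0

/-- `f(x+z) + f(x)` for a function of degree two -/
lemma quad_shift {f : V n → ZMod 2} (hf : DegLeTwo f) (x z : V n) :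
    f (x + z) + f x = f z + f 0 + pol f x z := by
  have h := pol_const hf x z 0
  simp only [D, zero_add] at h
  rw [← h]
  have h2 : ∀ p q r s : ZMod 2, p + q = r + s + (p + q + (r + s)) := by decide
  exact h2 _ _ _ _

/-- the hyperplane `w^⊥` -/
def hyp (w : V n) : AddSubgroup (V n) := (dotHom w).ker

noncomputable instance hypFintype (w : V n) : Fintype (hyp w) := Fintype.ofFinite _

lemma mem_hyp (w v : V n) : v ∈ hyp w ↔ dot v w = 0 := Iff.rfl

/-- the family of alternating forms of the components in `w^⊥` -/
def fam (G : V n → V n) (w : V n) (hq : ∀ v, dot v w = 0 → DegLeTwo (comp v G)) :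
    hyp w →+ V n →+ V n →+ ZMod 2 :=
  AddMonoidHom.mk' (fun v => AddMonoidHom.mk' (fun a => AddMonoidHom.mk' (fun b =>
    pol (comp (v : V n) G) a b) (fun x y => pol_add2 (hq v v.2) a x y))
    (fun x y => AddMonoidHom.ext fun b => pol_add (hq v v.2) x y b))
    (fun v v' => AddMonoidHom.ext fun a => AddMonoidHom.ext fun b => by
      change pol (comp ((v + v' : hyp w) : V n) G) a b
        = pol (comp (v : V n) G) a b + pol (comp (v' : V n) G) a b
      simp only [pol, D, comp, AddSubgroup.coe_add, dot_add_left]
      ring)

lemma fam_apply (G : V n → V n) (w : V n) (hq : ∀ v, dot v w = 0 → DegLeTwo (comp v G))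
    (v : hyp w) (a b : V n) : fam G w hq v a b = pol (comp (v : V n) G) a b := rfl

lemma card_hyp (w : V n) (hw : w ≠ 0) : Fintype.card (V n) = 2 * Nat.card (hyp w) := by
  have h1 := AddSubgroup.card_eq_card_quotient_mul_card_addSubgroup (hyp w)
  have h2 : Nat.card (V n ⧸ hyp w) = Nat.card (ZMod 2) := by
    have hs : Function.Surjective (dotHom w) := by
      obtain ⟨i, hi⟩ : ∃ i, w i ≠ 0 := by
        by_contra hcon
        push Not at hcon
        exact hw (funext hcon)
      intro t
      refine ⟨Pi.single i t, ?_⟩
      change dot (Pi.single i t) w = t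
      rw [dot_single, zmod2_ne _ hi, mul_one]
    exact Nat.card_congr (QuotientAddGroup.quotientKerEquivOfSurjective (dotHom w) hs).toEquiv
  rw [h2, Nat.card_zmod, Nat.card_eq_fintype_card] at h1
  exact h1

end Pool.Agent.Lib.AbHyp8
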