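import Pool.Agent.Lib.AbHyp8.Planes

set_option autoImplicit false

namespace Pool.Agent.Lib.AbHyp8

open Finset

variable {n : ℕ} {H : Type} [AddCommGroup H] [Fintype H] {β : H →+ V n →+ V n →+ ZMod 2}

lemma exists_not_ann (F : Fam β) {T : AddSubgroup (V n)} (hT : T ∈ TT β) : ∃ l, l ∉ ann T := by
  have h := pp_spec F hT
  obtain ⟨l, -, hl⟩ := sep (⊥ : AddSubgroup (V n)) (pp T).1 (fun h0 => h.1 (by simpa using h0))
  refine ⟨l, fun h0 => ?_⟩
  have := h0 _ h.left
  rw [this] at hl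
  exact absurd hl (by decide)

lemma sid2 (F : Fam β) {T T' : AddSubgroup (V n)} (hT : T ∈ TT β) (hT' : T' ∈ TT β)
    (hne : T ≠ T') (l : V n) (hl : l ∉ ann T) : tauT l T + tauT l T' ≠ 0 := by
  intro h
  have h1 := eq_of_add_zero _ _ h
  have h2 := tauT_mem F hT' l
  rw [← h1] at h2
  exact hne (TT_disj F hT hT' (tauT_mem F hT l) h2 (tauT_ne F hT l hl))

lemma zmul_cases (b z : V n) (hz : z ∈ AddSubgroup.zmultiples b) : z = 0 ∨ z = b := by
  obtain ⟨k, hk⟩ := AddSubgroup.mem_zmultiples_iff.mp hz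
  rcases Int.even_or_odd' k with ⟨m, hm | hm⟩
  · left
    rw [← hk, hm, mul_comm, mul_smul, two_smul, vv, smul_zero]
  · right
    rw [← hk, hm, add_smul, one_smul, mul_comm, mul_smul, two_smul, vv, smul_zero, zero_add]

lemma dual_pair (F : Fam β) {T T' : AddSubgroup (V n)} (hT : T ∈ TT β) (hT' : T' ∈ TT β)
    (hne : T ≠ T') (a b : V n) (haT : a ∈ T) (hbT : b ∈ T) (ha : a ≠ 0) (hab : a ≠ b) :
    ∃ l ∈ ann T', dot l b = 0 ∧ dot l a = 1 := by
  obtain ⟨l, hl, hl1⟩ := sep (T' ⊔ AddSubgroup.zmultiples b) a (by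
    intro h
    obtain ⟨y, hy, z, hz, hyz⟩ := AddSubgroup.mem_sup.mp h
    rcases zmul_cases b z hz with rfl | rfl
    · rw [add_zero] at hyz
      rw [hyz] at hy
      exact hne (TT_disj F hT hT' haT hy ha)
    · have h1 : y = a + z := by
        rw [← hyz, add_assoc, vv, add_zero]
      have h2 : a + z ≠ 0 := fun h => hab (eq_of_add_zero _ _ h)
      rw [h1] at hy
      exact hne (TT_disj F hT hT' (T.add_mem haT hbT) hy h2))
  refine ⟨l, fun x hx => hl x ((le_sup_left : T' ≤ _) hx), ?_, hl1⟩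
  exact hl b ((le_sup_right : AddSubgroup.zmultiples b ≤ _) (AddSubgroup.mem_zmultiples b))

lemma sidon (F : Fam β) (J : Finset (AddSubgroup (V n))) (hJ : ∀ T ∈ J, T ∈ TT β)
    (hne : J.Nonempty) (hc : J.card ≤ 4) : ∃ l, ∑ T ∈ J, tauT l T ≠ 0 := by
  classical
  have hpos : 0 < J.card := hne.card_pos
  have hcases : J.card = 1 ∨ J.card = 2 ∨ J.card = 3 ∨ J.card = 4 := by omega
  rcases hcases with h | h | h | h
  · obtain ⟨T, rfl⟩ := card_eq_one.mp h
    have hT := hJ T (by simp)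
    obtain ⟨l, hl⟩ := exists_not_ann F hT
    exact ⟨l, by rw [sum_singleton]; exact tauT_ne F hT l hl⟩
  · obtain ⟨T, T', hTT, rfl⟩ := card_eq_two.mp h
    have hT := hJ T (by simp)
    have hT' := hJ T' (by simp)
    obtain ⟨l, hl⟩ := exists_not_ann F hT
    exact ⟨l, by rw [sum_pair hTT]; exact sid2 F hT hT' hTT l hl⟩
  · obtain ⟨T1, T2, T3, h12, h13, h23, rfl⟩ := card_eq_three.mp h
    have hT1 := hJ T1 (by simp)
    have hT2 := hJ T2 (by simp)
    have hT3 := hJ T3 (by simp)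
    have hp := pp_spec F hT2
    obtain ⟨l, hl, hl1⟩ := sep T1 (pp T2).1
      (fun h => h12 (TT_disj F hT1 hT2 h hp.left hp.1))
    refine ⟨l, ?_⟩
    rw [sum_insert (by simp [h12, h13]), sum_pair h23, tauT_ann l F hT1 hl, zero_add]
    refine sid2 F hT2 hT3 h23 l (fun h0 => ?_)
    rw [h0 _ hp.left] at hl1
    exact absurd hl1 (by decide)
  · obtain ⟨T1, J3, h1J, rfl, h3⟩ := card_eq_succ.mp h
    obtain ⟨T2, T3, T4, h23, h24, h34, rfl⟩ := card_eq_three.mp h3
    simp only [mem_insert, mem_singleton, not_or] at h1J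
    obtain ⟨h12, h13, h14⟩ := h1J
    have hT1 := hJ T1 (by simp)
    have hT2 := hJ T2 (by simp)
    have hT3 := hJ T3 (by simp)
    have hT4 := hJ T4 (by simp)
    have hsum : ∀ l, ∑ T ∈ insert T1 {T2, T3, T4}, tauT l T
        = tauT l T1 + (tauT l T2 + (tauT l T3 + tauT l T4)) := by
      intro l
      rw [sum_insert (by simp [h12, h13, h14]), sum_insert (by simp [h23, h24]), sum_pair h34]
    by_cases hA : ∃ x ∈ T3, x ∉ T1 ⊔ T2
    · obtain ⟨x, hx, hxS⟩ := hA
      obtain ⟨l, hl, hl1⟩ := sep (T1 ⊔ T2) x hxS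
      refine ⟨l, ?_⟩
      rw [hsum, tauT_ann l F hT1 (fun y hy => hl y ((le_sup_left : T1 ≤ _) hy)),
        tauT_ann l F hT2 (fun y hy => hl y ((le_sup_right : T2 ≤ _) hy)), zero_add, zero_add]
      refine sid2 F hT3 hT4 h34 l (fun h0 => ?_)
      rw [h0 x hx] at hl1
      exact absurd hl1 (by decide)
    by_cases hB : ∃ x ∈ T4, x ∉ T1 ⊔ T2
    · obtain ⟨x, hx, hxS⟩ := hB
      obtain ⟨l, hl, hl1⟩ := sep (T1 ⊔ T2) x hxS
      refine ⟨l, ?_⟩
      rw [hsum, tauT_ann l F hT1 (fun y hy => hl y ((le_sup_left : T1 ≤ _) hy)),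
        tauT_ann l F hT2 (fun y hy => hl y ((le_sup_right : T2 ≤ _) hy)), zero_add, zero_add,
        add_comm]
      refine sid2 F hT4 hT3 (Ne.symm h34) l (fun h0 => ?_)
      rw [h0 x hx] at hl1
      exact absurd hl1 (by decide)
    push Not at hA hB
    have hp := pp_spec F hT1
    obtain ⟨L, hL, hLb, hLa⟩ := dual_pair F hT1 hT2 h12 (pp T1).1 (pp T1).2 hp.left hp.right
      hp.1 hp.2.2.1
    obtain ⟨M, hM, hMa, hMb⟩ := dual_pair F hT1 hT2 h12 (pp T1).2 (pp T1).1 hp.right hp.left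
      hp.2.1 (Ne.symm hp.2.2.1)
    have inj : ∀ x ∈ T1, dot L x = 0 → dot M x = 0 → x = 0 := by
      intro x hx h1 h2
      have n10 : (1 : ZMod 2) ≠ 0 := by decide
      rcases (hp.2.2.2 x).mp hx with h | h | h | h
      · exact h
      · rw [h, hLa] at h1; exact absurd h1 n10
      · rw [h, hMb] at h2; exact absurd h2 n10
      · rw [h, dot_add_right, hLa, hLb, add_zero] at h1; exact absurd h1 n10
    -- value on a graph
    have key : ∀ T ∈ TT β, T ≠ T2 → (∀ x ∈ T, x ∈ T1 ⊔ T2) → ev (wedge L M) T = 1 := by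
      intro T hT hTn hle
      have hq := pp_spec F hT
      obtain ⟨p1, hp1, p2, hp2, hpp⟩ := AddSubgroup.mem_sup.mp (hle _ hq.left)
      obtain ⟨q1, hq1, q2, hq2, hqq⟩ := AddSubgroup.mem_sup.mp (hle _ hq.right)
      have hp0 : p1 ≠ 0 := by
        rintro rfl
        rw [zero_add] at hpp
        rw [hpp] at hp2
        exact hTn (TT_disj F hT hT2 hq.left hp2 hq.1)
      have hq0 : q1 ≠ 0 := by
        rintro rfl
        rw [zero_add] at hqq
        rw [hqq] at hq2
        exact hTn (TT_disj F hT hT2 hq.right hq2 hq.2.1)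
      have hpq : p1 ≠ q1 := by
        rintro rfl
        have e : (pp T).1 + (pp T).2 = p2 + q2 := by
          rw [← hpp, ← hqq]
          calc p1 + p2 + (p1 + q2) = (p1 + p1) + (p2 + q2) := by abel
            _ = _ := by rw [vv, zero_add]
        have h1 : (pp T).1 + (pp T).2 ∈ T2 := by rw [e]; exact T2.add_mem hp2 hq2
        exact hTn (TT_disj F hT hT2 (T.add_mem hq.left hq.right) h1
          (fun h => hq.2.2.1 (eq_of_add_zero _ _ h)))
      unfold ev
      rw [wedge_apply, ← hpp, ← hqq]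
      simp only [dot_add_right, hL p2 hp2, hL q2 hq2, hM p2 hp2, hM q2 hq2, add_zero]
      have e1 : ¬ (dot L p1 = 0 ∧ dot M p1 = 0) := fun h => hp0 (inj p1 hp1 h.1 h.2)
      have e2 : ¬ (dot L q1 = 0 ∧ dot M q1 = 0) := fun h => hq0 (inj q1 hq1 h.1 h.2)
      have e3 : ¬ (dot L p1 + dot L q1 = 0 ∧ dot M p1 + dot M q1 = 0) := by
        intro h
        apply hpq
        apply eq_of_add_zero
        apply inj (p1 + q1) (T1.add_mem hp1 hq1)
        · rw [dot_add_right]; exact h.1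
        · rw [dot_add_right]; exact h.2
      have dec : ∀ s t s' t' : ZMod 2, ¬ (s = 0 ∧ t = 0) → ¬ (s' = 0 ∧ t' = 0) →
          ¬ (s + s' = 0 ∧ t + t' = 0) → s * t' + s' * t = 1 := by decide
      exact dec _ _ _ _ e1 e2 e3
    refine ⟨L, fun h0 => ?_⟩
    have h1 : dot M (∑ T ∈ insert T1 {T2, T3, T4}, tauT L T) = 0 := by
      rw [h0, dot_zero_right]
    rw [hsum, dot_add_right, dot_add_right, dot_add_right, ← ev_wedge, ← ev_wedge L M T3,
      ← ev_wedge L M T4, key T3 hT3 (Ne.symm h23) hA, key T4 hT4 (Ne.symm h24) hB,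
      tauT_ann L F hT2 hL, dot_zero_right] at h1
    have h2 : ev (wedge L M) T1 = 1 := by
      unfold ev
      rw [wedge_apply, hLa, hLb, hMb]
      ring
    rw [h2] at h1
    exact absurd h1 (by decide)

/-- the group of alternating forms -/
def altG (n : ℕ) : AddSubgroup (V n →+ V n →+ ZMod 2) where
  carrier := {γ | ∀ a, γ a a = 0}
  add_mem' := by
    intro γ δ hγ hδ a
    rw [AddMonoidHom.add_apply, AddMonoidHom.add_apply, hγ a, hδ a, add_zero]
  zero_mem' := fun a => rfl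
  neg_mem' := by
    intro γ hγ a
    rw [AddMonoidHom.neg_apply, AddMonoidHom.neg_apply, hγ a, neg_zero]

instance finHom : Finite (V n →+ V n →+ ZMod 2) := by
  have : Finite (V n →+ ZMod 2) := DFunLike.finite _
  exact DFunLike.finite _

noncomputable instance altFintype : Fintype (altG n) := Fintype.ofFinite _

/-- evaluation at a set of planes -/
noncomputable def phi (I : Finset (AddSubgroup (V n))) : altG n →+ ZMod 2 :=
  AddMonoidHom.mk' (fun γ => ∑ T ∈ I, ev (γ : V n →+ V n →+ ZMod 2) T) (by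
    intro γ δ
    rw [← sum_add_distrib]
    apply sum_congr rfl
    intro T _
    rfl)

lemma phi_apply (I : Finset (AddSubgroup (V n))) (γ : altG n) :
    phi I γ = ∑ T ∈ I, ev (γ : V n →+ V n →+ ZMod 2) T := rfl

lemma phi_ne (F : Fam β) (I I' : Finset (AddSubgroup (V n))) (hI : ∀ T ∈ I, T ∈ TT β)
    (hI' : ∀ T ∈ I', T ∈ TT β) (hc : I.card ≤ 2) (hc' : I'.card ≤ 2) (hne : I ≠ I') :
    ∃ γ : altG n, phi I γ + phi I' γ ≠ 0 := by
  classical
  have hJ : ∀ γ : altG n, phi I γ + phi I' γ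
      = ∑ T ∈ (I \ I') ∪ (I' \ I), ev (γ : V n →+ V n →+ ZMod 2) T := by
    intro γ
    rw [phi_apply, phi_apply, sum_union (disjoint_sdiff_sdiff),
      ← sum_inter_add_sum_sdiff I I', ← sum_inter_add_sum_sdiff I' I, inter_comm I' I]
    have : ∀ p q r : ZMod 2, p + q + (p + r) = q + r := by decide
    exact this _ _ _
  obtain ⟨l, hl⟩ := sidon F ((I \ I') ∪ (I' \ I))
    (by
      intro T hT
      rcases mem_union.mp hT with h | h
      · exact hI T (mem_sdiff.mp h).1
      · exact hI' T (mem_sdiff.mp h).1)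
    (by
      rw [nonempty_iff_ne_empty]
      intro h
      apply hne
      have h1 : I \ I' = ∅ := by
        rw [← subset_empty, ← h]; exact subset_union_left
      have h2 : I' \ I = ∅ := by
        rw [← subset_empty, ← h]; exact subset_union_right
      exact Subset.antisymm (sdiff_eq_empty_iff_subset.mp h1) (sdiff_eq_empty_iff_subset.mp h2))
    (by
      have h1 := card_union_le (I \ I') (I' \ I)
      have h2 := card_le_card (sdiff_subset : I \ I' ⊆ I)
      have h3 := card_le_card (sdiff_subset : I' \ I ⊆ I')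
      omega)
  obtain ⟨m, -, hm⟩ := sep (⊥ : AddSubgroup (V n)) _ (fun h0 => hl (by simpa using h0))
  refine ⟨⟨wedge l m, fun a => wedge_self l m a⟩, ?_⟩
  rw [hJ]
  have h1 : ∑ T ∈ (I \ I') ∪ (I' \ I), ev (wedge l m) T
      = dot m (∑ T ∈ (I \ I') ∪ (I' \ I), tauT l T) := by
    have h2 := map_sum (dotHom' m) (fun T => tauT l T) ((I \ I') ∪ (I' \ I))
    exact (sum_congr rfl (fun T _ => ev_wedge l m T)).trans h2.symm
  change ∑ T ∈ (I \ I') ∪ (I' \ I), ev (wedge l m) T ≠ 0
  rw [h1, hm]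
  decide

/-- the main inequality -/
lemma delta_ineq (F : Fam β) (S : Finset (AddSubgroup (V n))) (hS : ∀ T ∈ S, T ∈ TT β)
    (J : Finset (altG n)) (hJ : ∀ γ ∈ J, ∀ T ∈ S, ev (γ : V n →+ V n →+ ZMod 2) T = 0) :
    J.card * (S.powerset.filter fun I => I.card ≤ 2).card ≤ Fintype.card (altG n) := by
  classical
  obtain ⟨P, hP⟩ : ∃ P, P = S.powerset.filter fun I => I.card ≤ 2 := ⟨_, rfl⟩
  have hPm : ∀ I ∈ P, (∀ T ∈ I, T ∈ S) ∧ I.card ≤ 2 := by
    intro I hI
    rw [hP, mem_filter, mem_powerset] at hI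
    exact ⟨fun T hT => hI.1 hT, hI.2⟩
  rw [← hP]
  have h1 : ∑ γ : altG n, (∑ I ∈ P, sg (phi I γ)) ^ 2 = (Fintype.card (altG n) : ℤ) * P.card := by
    have h2 : ∀ γ : altG n, (∑ I ∈ P, sg (phi I γ)) ^ 2
        = ∑ I ∈ P, ∑ I' ∈ P, sg ((phi I + phi I') γ) := by
      intro γ
      rw [sq, sum_mul_sum]
      apply sum_congr rfl
      intro I _
      apply sum_congr rfl
      intro I' _
      rw [← sg_add]; rfl
    simp only [h2]
    rw [sum_comm]
    have h3 : ∀ I ∈ P, ∑ γ : altG n, ∑ I' ∈ P, sg ((phi I + phi I') γ)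
        = (Fintype.card (altG n) : ℤ) := by
      intro I hI
      rw [sum_comm, sum_eq_single I]
      · rw [sum_sg, if_pos]
        intro γ
        rw [AddMonoidHom.add_apply, tt]
      · intro I' hI' hne
        rw [sum_sg, if_neg]
        intro h
        obtain ⟨γ, hγ⟩ := phi_ne F I I' (fun T hT => hS T ((hPm I hI).1 T hT))
          (fun T hT => hS T ((hPm I' hI').1 T hT)) (hPm I hI).2 (hPm I' hI').2 (Ne.symm hne)
        exact hγ (h γ)
      · intro h; exact absurd hI h
    rw [sum_congr rfl h3, sum_const, nsmul_eq_mul, mul_comm]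
  have h4 : (J.card : ℤ) * (P.card : ℤ) ^ 2 ≤ ∑ γ : altG n, (∑ I ∈ P, sg (phi I γ)) ^ 2 := by
    calc (J.card : ℤ) * (P.card : ℤ) ^ 2 = ∑ γ ∈ J, (∑ I ∈ P, sg (phi I γ)) ^ 2 := by
          have : ∀ γ ∈ J, (∑ I ∈ P, sg (phi I γ)) ^ 2 = (P.card : ℤ) ^ 2 := by
            intro γ hγ
            have : ∀ I ∈ P, sg (phi I γ) = 1 := by
              intro I hI
              rw [phi_apply, sum_eq_zero, sg_zero]
              intro T hT
              exact hJ γ hγ T ((hPm I hI).1 T hT)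
            rw [sum_congr rfl this]
            simp
          rw [sum_congr rfl this, sum_const, nsmul_eq_mul]
      _ ≤ _ := sum_le_sum_of_subset_of_nonneg (subset_univ _) (fun γ _ _ => sq_nonneg _)
  rw [h1] at h4
  have hPpos : 0 < P.card := by
    rw [hP]
    apply card_pos.mpr
    exact ⟨∅, by simp⟩
  have h5 : J.card * P.card * P.card ≤ Fintype.card (altG n) * P.card := by
    have : (J.card : ℤ) * P.card * P.card ≤ Fintype.card (altG n) * P.card := by
      calc (J.card : ℤ) * P.card * P.card = (J.card : ℤ) * (P.card : ℤ) ^ 2 := by ring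
        _ ≤ _ := h4
    exact_mod_cast this
  exact Nat.le_of_mul_le_mul_right h5 hPpos

lemma card_P2 {α : Type} [DecidableEq α] (S : Finset α) :
    (S.powerset.filter fun I => I.card ≤ 2).card = 1 + S.card + S.card.choose 2 := by
  have h : S.powerset.filter (fun I => I.card ≤ 2)
      = (powersetCard 0 S ∪ powersetCard 1 S) ∪ powersetCard 2 S := by
    ext I
    simp only [mem_filter, mem_powerset, mem_union, mem_powersetCard]
    constructor
    · rintro ⟨h1, h2⟩
      have : I.card = 0 ∨ I.card = 1 ∨ I.card = 2 := by omega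
      rcases this with h | h | h
      · left; left; exact ⟨h1, h⟩
      · left; right; exact ⟨h1, h⟩
      · right; exact ⟨h1, h⟩
    · rintro ((⟨h1, h2⟩ | ⟨h1, h2⟩) | ⟨h1, h2⟩)
      · exact ⟨h1, by omega⟩
      · exact ⟨h1, by omega⟩
      · exact ⟨h1, by omega⟩
  rw [h, card_union_of_disjoint, card_union_of_disjoint, card_powersetCard, card_powersetCard,
    card_powersetCard, Nat.choose_zero_right, Nat.choose_one_right]
  · rw [disjoint_left]
    intro I h1 h2
    rw [mem_powersetCard] at h1 h2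
    omega
  · rw [disjoint_left]
    intro I h1 h2
    rw [mem_union, mem_powersetCard, mem_powersetCard] at h1
    rw [mem_powersetCard] at h2
    omega

end Pool.Agent.Lib.AbHyp8
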